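import Pool.Agent.Helper8.OT.Defs

/-!
PROJECT OT, module OT-Ball (independent).
Breadth first search in a graph all of whose cycles have more than `2 R + 1` edges: the balls of radius
`r ≤ R` span at most as many edges as vertices.

PLAN.  (1) `no_short`: if `f = s(a, b)` is an edge and `p` is a walk of `G` from `b` to `a` that does
not use `f`, then `2 * R < p.length`: take `p.bypass` (a path, edges a sublist, length `≤`); then
`cons h p.bypass` is a cycle (`SimpleGraph.Walk.cons_isCycle_iff`) of length `≤ p.length + 1`.
(2) BFS inside `S` from `v ∈ S`: `B 0 = {v}`, `B (r+1) = B r ∪ {y ∈ S adjacent to a member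
of B r}`.  By induction on `r` there is a finset `T` of edges of `G` with
`T.card + 1 ≤ (B r).card` such that each `b ∈ B r` has a walk from `v` to `b` of length `≤ r`
all of whose edges lie in `T` (the new vertices `y ∈ B (r+1) \ B r` get the edge `s(y, par y)` with a
chosen `par y ∈ B r`).
(3) For `r ≤ R` every edge `f = s(a, b)` inside `B r` lies in `T`: otherwise the walk
`b → v → a` made of the two walks of (2) has length `≤ 2 r ≤ 2 R` and avoids `f`, against (1).
So `(einside G (B r)).card ≤ T.card ≤ (B r).card` for `r ≤ R`.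
-/

namespace Pool.Agent.Helper8.OT

open Finset

variable {V : Type} [Fintype V] [DecidableEq V]

private theorem no_short (G : SimpleGraph V) (R : ℕ)
    (hG : ∀ (v : V) (c : G.Walk v v), c.IsCycle → 2 * R + 1 < c.length) {a b : V} (h : G.Adj a b)
    (p : G.Walk b a) (hf : s(a, b) ∉ p.edges) : 2 * R < p.length := by
  have h1 : (SimpleGraph.Walk.cons h p.bypass).IsCycle := by
    rw [SimpleGraph.Walk.cons_isCycle_iff]
    exact ⟨p.bypass_isPath, fun hh => hf (p.edges_bypass_subset hh)⟩
  have h2 := hG a _ h1
  rw [SimpleGraph.Walk.length_cons] at h2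
  have h3 := p.length_bypass_le
  omega

open Classical in
/-- the balls of the breadth first search inside `S` -/
private noncomputable def bfs (G : SimpleGraph V) (S : Finset V) (v : V) : ℕ → Finset V
  | 0 => {v}
  | r + 1 => bfs G S v r ∪ S.filter (fun y => ∃ x ∈ bfs G S v r, G.Adj x y)

private theorem bfs_tree (G : SimpleGraph V) (S : Finset V) (v : V) (r : ℕ) :
    ∃ T : Finset (Sym2 V), T.card + 1 ≤ (bfs G S v r).card ∧
      ∀ b ∈ bfs G S v r, ∃ p : G.Walk v b, p.length ≤ r ∧ ∀ e ∈ p.edges, e ∈ T := by
  classical
  induction r with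
  | zero =>
    refine ⟨∅, by simp [bfs], ?_⟩
    intro b hb
    simp only [bfs, mem_singleton] at hb
    subst hb
    exact ⟨SimpleGraph.Walk.nil, by simp, by simp⟩
  | succ r ih =>
    obtain ⟨T, hT, hw⟩ := ih
    have hpar : ∀ y, ∃ x, y ∈ bfs G S v (r + 1) \ bfs G S v r → x ∈ bfs G S v r ∧ G.Adj x y := by
      intro y
      by_cases hy : y ∈ bfs G S v (r + 1) \ bfs G S v r
      · rw [mem_sdiff] at hy
        have h1 := hy.1
        simp only [bfs, mem_union, mem_filter] at h1
        rcases h1 with h1 | ⟨_, x, hx, hxy⟩
        · exact absurd h1 hy.2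
        · exact ⟨x, fun _ => ⟨hx, hxy⟩⟩
      · exact ⟨v, fun h => absurd h hy⟩
    choose par hpar using hpar
    refine ⟨T ∪ (bfs G S v (r + 1) \ bfs G S v r).image (fun y => s(par y, y)), ?_, ?_⟩
    · have h1 := card_union_le T ((bfs G S v (r + 1) \ bfs G S v r).image (fun y => s(par y, y)))
      have h2 := card_image_le (s := bfs G S v (r + 1) \ bfs G S v r) (f := fun y => s(par y, y))
      have h3 : bfs G S v r ⊆ bfs G S v (r + 1) := by
        simp only [bfs]
        exact subset_union_left
      have h4 := card_sdiff_add_card_eq_card h3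
      omega
    · intro b hb
      by_cases hbr : b ∈ bfs G S v r
      · obtain ⟨p, hp, hpe⟩ := hw b hbr
        exact ⟨p, by omega, fun e he => mem_union_left _ (hpe e he)⟩
      · have hbn : b ∈ bfs G S v (r + 1) \ bfs G S v r := mem_sdiff.2 ⟨hb, hbr⟩
        obtain ⟨hx, hxb⟩ := hpar b hbn
        obtain ⟨p, hp, hpe⟩ := hw _ hx
        refine ⟨p.concat hxb, by simp [hp], ?_⟩
        intro e he
        rw [SimpleGraph.Walk.edges_concat, List.concat_eq_append, List.mem_append] at he
        rcases he with he | he
        · exact mem_union_left _ (hpe e he)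
        · rw [List.mem_singleton] at he
          subst he
          exact mem_union_right _ (mem_image.2 ⟨b, hbn, rfl⟩)

theorem balls (G : SimpleGraph V) (R : ℕ)
    (hG : ∀ (v : V) (c : G.Walk v v), c.IsCycle → 2 * R + 1 < c.length) (S : Finset V) (v : V)
    (hv : v ∈ S) :
    ∃ B : ℕ → Finset V, B 0 = {v} ∧ (∀ r, B r ⊆ B (r + 1)) ∧ (∀ r, B r ⊆ S) ∧
      (∀ r x y, x ∈ B r → y ∈ S → G.Adj x y → y ∈ B (r + 1)) ∧
      ∀ r ≤ R, (einside G (B r)).card ≤ (B r).card := by
  classical
  refine ⟨bfs G S v, rfl, ?_, ?_, ?_, ?_⟩
  · intro r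
    simp only [bfs]
    exact subset_union_left
  · intro r
    induction r with
    | zero => simpa [bfs] using hv
    | succ r ih =>
      simp only [bfs]
      exact union_subset ih (filter_subset _ _)
  · intro r x y hx hy hxy
    simp only [bfs, mem_union, mem_filter]
    exact Or.inr ⟨hy, x, hx, hxy⟩
  · intro r hr
    obtain ⟨T, hT, hw⟩ := bfs_tree G S v r
    have h1 : einside G (bfs G S v r) ⊆ T := by
      intro f hf
      induction f using Sym2.ind with
      | _ a b =>
        simp only [einside, mem_filter, mem_univ, true_and, SimpleGraph.mem_edgeSet] at hf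
        obtain ⟨hab, hin⟩ := hf
        obtain ⟨pa, hpa, hpae⟩ := hw a (hin a (by simp))
        obtain ⟨pb, hpb, hpbe⟩ := hw b (hin b (by simp))
        by_contra hcon
        have h2 := no_short G R hG hab (pb.reverse.append pa) (by
          intro h3
          rw [SimpleGraph.Walk.edges_append, List.mem_append, SimpleGraph.Walk.edges_reverse,
            List.mem_reverse] at h3
          rcases h3 with h3 | h3
          · exact hcon (hpbe _ h3)
          · exact hcon (hpae _ h3))
        rw [SimpleGraph.Walk.length_append, SimpleGraph.Walk.length_reverse] at h2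
        omega
    have h2 := card_le_card h1
    omega

end Pool.Agent.Helper8.OT
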