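import Pool.Agent.Helper8.OT.Ult

/-!
PROJECT OT, module OT-Cost (uses the statements of `Ult.lean`).
PLAN.  `sum_le_harmonic`: induction on `s.card`: let `v` be an element with minimal `f v`; if
`f v > 0` then `f v * s.card ≤ S` by the hypothesis for `l = f v` (all elements count), so
`f v ≤ S / s.card`; if `f v = 0` it is clear.  The rest `s.erase v` satisfies the hypothesis (smaller
counts), `harmonic (n+1) = harmonic n + 1/(n+1)`.
`cost_bound`.  Put `z k = ∑_{v∈clusters k} max 0 (R(v) - a(v))`, `FF k = ∑_{v∈clusters k} f v`,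
`out v = R(v) - F(v) + f v`.
(a) `out v ≤ max 0 (R(v) - a(v)) + f v` (if `out v > 0` then `F(v) = a(v)`; otherwise `out v = 0`).
(b) for `P ∈ clusters (k+1)`: `∑_{v∈children P} f v ≤ H * (∑_{v∈children P} max 0 (R(v)-a(v)) + f P)`
(`sum_le_harmonic` with `Inv.star`, harmonic is monotone, `card_children_le`), hence with
`sum_clusters`: `FF k ≤ H * (z k + FF (k+1))`, for all `k`.
(c) `FF K = f univ = 0` by `clusters_top`, `Inv.top`.
(d) `∑_{v∈clusters k} out v ≤ z k + FF k ≤ (1 + H) * (z k + FF (k+1))`.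
(e) With `A = ∑_{k<K} δ (k+1) * z k` and `G = ∑_{k<K} δ (k+1) * FF (k+1)`:
`δ (k+1) * FF (k+1) ≤ δ (k+1) * H * (z (k+1) + FF (k+2)) ≤ (1/2) * δ (k+2) * (z (k+1) + FF (k+2))` for
`k + 1 < K`, and the term `k = K - 1` is 0 by (c); so `G ≤ (1/2) * (A + G)`, `G ≤ A`.
So the left-hand side is at most `(1 + H) * (A + G) ≤ 2 * (1 + H) * A`.
(`H ≥ harmonic (card V) ≥ 1 > 0` as `V` is nonempty.)
-/

namespace Pool.Agent.Helper8.OT

open Finset

variable {V : Type} [Fintype V] [DecidableEq V]

theorem sum_le_harmonic {ι : Type} [DecidableEq ι] (s : Finset ι) (f : ι → ℝ)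
    (hf : ∀ i ∈ s, 0 ≤ f i) (S : ℝ) (hS0 : 0 ≤ S)
    (hS : ∀ l : ℝ, 0 < l → l * (s.filter (fun i => l ≤ f i)).card ≤ S) :
    ∑ i ∈ s, f i ≤ (harmonic s.card : ℝ) * S := by
  obtain ⟨n, hn⟩ : ∃ n, s.card = n := ⟨_, rfl⟩
  induction n generalizing s with
  | zero =>
    rw [Finset.card_eq_zero.1 hn]
    simp
  | succ n ih =>
    have hne : s.Nonempty := by
      rw [← Finset.card_pos]
      omega
    obtain ⟨v, hv, hmin⟩ := s.exists_min_image f hne
    have hn0 : (0 : ℝ) < (n : ℝ) + 1 := by positivity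
    have h1 : f v ≤ ((n : ℝ) + 1)⁻¹ * S := by
      rcases (hf v hv).eq_or_lt with h | h
      · rw [← h]
        positivity
      · have h2 := hS (f v) h
        have h3 : s.filter (fun i => f v ≤ f i) = s :=
          Finset.filter_true_of_mem fun i hi => hmin i hi
        rw [h3, hn] at h2
        push_cast at h2
        rw [inv_mul_eq_div, le_div_iff₀ hn0]
        exact h2
    have hcard : (s.erase v).card = n := by
      rw [Finset.card_erase_of_mem hv]
      omega
    have h2 := ih (s.erase v) (fun i hi => hf i (Finset.mem_of_mem_erase hi)) (by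
      intro l hl
      refine le_trans ?_ (hS l hl)
      apply mul_le_mul_of_nonneg_left _ hl.le
      exact_mod_cast Finset.card_le_card
        (Finset.filter_subset_filter _ (Finset.erase_subset v s))) hcard
    rw [← Finset.add_sum_erase s f hv, hn, harmonic_succ]
    rw [hcard] at h2
    push_cast
    rw [add_mul]
    linarith

private theorem cost_harm_mono {n m : ℕ} (h : n ≤ m) :
    (harmonic n : ℝ) ≤ (harmonic m : ℝ) := by
  have : harmonic n ≤ harmonic m := by
    unfold harmonic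
    exact Finset.sum_le_sum_of_subset_of_nonneg
      (Finset.range_subset_range.2 h) fun i _ _ => by positivity
  exact_mod_cast this

theorem cost_bound [Nonempty V] {lev : V → V → ℕ} (hlev : IsUlt lev) (K : ℕ)
    (hK : ∀ i j, lev i j ≤ K) (δ : ℕ → ℝ) (hδ0 : ∀ k, 0 ≤ δ k) (H : ℝ)
    (hH : (harmonic (Fintype.card V) : ℝ) ≤ H) (hδ : ∀ k, 1 ≤ k → 2 * H * δ k ≤ δ (k + 1))
    {a F R : V → ℝ} {f : Finset V → ℝ} (hI : Inv lev a F R f) :
    ∑ k ∈ range K, δ (k + 1) * ∑ v ∈ clusters lev k, (∑ i ∈ v, R i - ∑ i ∈ v, F i + f v) ≤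
      2 * (1 + H) * ∑ k ∈ range K, δ (k + 1) *
        ∑ v ∈ clusters lev k, max 0 (∑ i ∈ v, R i - ∑ i ∈ v, a i) := by
  set z : ℕ → ℝ := fun k => ∑ v ∈ clusters lev k, max 0 (∑ i ∈ v, R i - ∑ i ∈ v, a i) with hz
  set FF : ℕ → ℝ := fun k => ∑ v ∈ clusters lev k, f v with hFF
  have hH0 : 0 ≤ H := by
    refine le_trans ?_ hH
    have : (0 : ℚ) ≤ harmonic (Fintype.card V) := by
      unfold harmonic
      exact Finset.sum_nonneg fun i _ => by positivity
    exact_mod_cast this
  have hz0 : ∀ k, 0 ≤ z k := fun k => Finset.sum_nonneg fun v _ => le_max_left _ _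
  have hFF0 : ∀ k, 0 ≤ FF k := fun k => Finset.sum_nonneg fun v _ => hI.f0 v
  have hFFle : ∀ k, FF k ≤ H * (z k + FF (k + 1)) := by
    intro k
    have h1 : FF k = ∑ P ∈ clusters lev (k + 1), ∑ v ∈ children lev k P, f v :=
      (sum_clusters hlev k f).symm
    have h2 : z k + FF (k + 1) = ∑ P ∈ clusters lev (k + 1),
        (∑ v ∈ children lev k P, max 0 (∑ i ∈ v, R i - ∑ i ∈ v, a i) + f P) := by
      rw [Finset.sum_add_distrib, sum_clusters hlev k]
    rw [h1, h2, Finset.mul_sum]
    apply Finset.sum_le_sum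
    intro P hP
    have hS0 : 0 ≤ ∑ v ∈ children lev k P, max 0 (∑ i ∈ v, R i - ∑ i ∈ v, a i) + f P :=
      add_nonneg (Finset.sum_nonneg fun v _ => le_max_left _ _) (hI.f0 P)
    refine (sum_le_harmonic _ f (fun v _ => hI.f0 v) _ hS0 (hI.star k P hP)).trans ?_
    apply mul_le_mul_of_nonneg_right _ hS0
    exact (cost_harm_mono card_children_le).trans hH
  have hFK : FF K = 0 := by
    simp only [hFF]
    rw [clusters_top hK, Finset.sum_singleton]
    exact hI.top
  have hout : ∀ k, ∑ v ∈ clusters lev k, (∑ i ∈ v, R i - ∑ i ∈ v, F i + f v) ≤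
      (1 + H) * (z k + FF (k + 1)) := by
    intro k
    have h1 : ∑ v ∈ clusters lev k, (∑ i ∈ v, R i - ∑ i ∈ v, F i + f v) ≤ z k + FF k := by
      simp only [hz, hFF]
      rw [← Finset.sum_add_distrib]
      apply Finset.sum_le_sum
      intro v hv
      rcases (hI.out0 k v hv).eq_or_lt with h | h
      · rw [← h]
        exact add_nonneg (le_max_left _ _) (hI.f0 v)
      · rw [hI.full k v hv h]
        have := le_max_right 0 (∑ i ∈ v, R i - ∑ i ∈ v, a i)
        linarith
    have h2 := hFFle k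
    have h3 := hFF0 (k + 1)
    nlinarith
  set A := ∑ k ∈ range K, δ (k + 1) * z k with hA
  set GG := ∑ k ∈ range K, δ (k + 1) * FF (k + 1) with hGG
  have hGA : GG ≤ A := by
    have h1 : GG ≤ (A + GG) / 2 := by
      have h2 : (A + GG) / 2 = ∑ k ∈ range K, δ (k + 1) * (z k + FF (k + 1)) / 2 := by
        rw [hA, hGG, ← Finset.sum_add_distrib, Finset.sum_div]
        apply Finset.sum_congr rfl
        intro k _
        ring
      rw [h2, hGG]
      rcases Nat.eq_zero_or_pos K with rfl | hKpos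
      · simp
      · obtain ⟨K', rfl⟩ : ∃ K', K = K' + 1 := ⟨K - 1, by omega⟩
        rw [Finset.sum_range_succ, hFK, mul_zero, add_zero, Finset.sum_range_succ']
        have h3 : ∑ k ∈ range K', δ (k + 1) * FF (k + 1) ≤
            ∑ k ∈ range K', δ (k + 1 + 1) * (z (k + 1) + FF (k + 1 + 1)) / 2 := by
          apply Finset.sum_le_sum
          intro k _
          have h4 := hFFle (k + 1)
          have h5 := hδ (k + 1) (by omega)
          have h6 : 0 ≤ z (k + 1) + FF (k + 1 + 1) := add_nonneg (hz0 _) (hFF0 _)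
          have h7 := mul_le_mul_of_nonneg_left h4 (hδ0 (k + 1))
          have h8 := mul_le_mul_of_nonneg_right h5 h6
          linarith
        have h4 : 0 ≤ δ (0 + 1) * (z 0 + FF (0 + 1)) / 2 := by
          have := mul_nonneg (hδ0 (0 + 1)) (add_nonneg (hz0 0) (hFF0 (0 + 1)))
          linarith
        linarith
    linarith
  calc ∑ k ∈ range K, δ (k + 1) * ∑ v ∈ clusters lev k, (∑ i ∈ v, R i - ∑ i ∈ v, F i + f v)
      ≤ ∑ k ∈ range K, δ (k + 1) * ((1 + H) * (z k + FF (k + 1))) := by
        apply Finset.sum_le_sum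
        intro k _
        exact mul_le_mul_of_nonneg_left (hout k) (hδ0 _)
    _ = (1 + H) * (A + GG) := by
        rw [hA, hGG, ← Finset.sum_add_distrib, Finset.mul_sum]
        apply Finset.sum_congr rfl
        intro k _
        ring
    _ ≤ (1 + H) * (A + A) := by
        apply mul_le_mul_of_nonneg_left _ (by linarith)
        linarith
    _ = 2 * (1 + H) * A := by ring

end Pool.Agent.Helper8.OT
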