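import Mathlib

/-!
Definitions for the polylogarithmic upper bound for online transportation with extra servers
(project OT, problem MP_ed2ca9_lc).
-/

namespace Pool.Agent.Helper8.OT

open Finset

variable {V : Type} [Fintype V] [DecidableEq V]

/-- `d` is a metric on the set `V`. -/
structure IsMet (d : V → V → ℝ) : Prop where
  self : ∀ i, d i i = 0
  pos : ∀ i j, i ≠ j → 0 < d i j
  symm : ∀ i j, d i j = d j i
  tri : ∀ i j k, d i k ≤ d i j + d j k

omit [Fintype V] [DecidableEq V] in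
theorem IsMet.nonneg {d : V → V → ℝ} (hd : IsMet d) (i j : V) : 0 ≤ d i j := by
  by_cases h : i = j
  · rw [h, hd.self]
  · exact (hd.pos i j h).le

/-! ### graphs, walks and flows -/

/-- The weighted length of a walk. -/
def wlen (w : V → V → ℝ) {G : SimpleGraph V} : ∀ {u v : V}, G.Walk u v → ℝ
  | _, _, .nil => 0
  | _, _, @SimpleGraph.Walk.cons _ _ u v' _ _ p => w u v' + wlen w p

/-- The edges of `G` with both end points in `S`. -/
noncomputable def einside (G : SimpleGraph V) (S : Finset V) : Finset (Sym2 V) :=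
  open Classical in univ.filter (fun e => e ∈ G.edgeSet ∧ ∀ v ∈ e, v ∈ S)

/-- There is a unit flow from `u` to `k` on the edges of `adj` of total cost at most `L`. -/
def Flow (adj : V → V → Prop) (w : V → V → ℝ) (u k : V) (L : ℝ) : Prop :=
  ∃ φ : V → V → ℝ, (∀ i j, φ i j = - φ j i) ∧ (∀ i j, ¬ adj i j → φ i j = 0) ∧
    (∀ i, ∑ j, φ i j = (if i = u then 1 else 0) - (if i = k then 1 else 0)) ∧
    ∑ i, ∑ j, w i j * max 0 (φ i j) ≤ L

/-- A graph on the sites with thresholds, of stretch `t`. -/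
structure Net (d : V → V → ℝ) (t g : ℝ) where
  adj : V → V → Prop
  θ : V → V → ℝ
  symm : ∀ i j, adj i j → adj j i
  irr : ∀ i, ¬ adj i i
  g_pos : 0 < g
  g_le : g ≤ 1
  θ_ge : ∀ i j, adj i j → g ≤ θ i j
  θ_add : ∀ i j, adj i j → θ i j + θ j i = 1 + g
  θ_off : ∀ i j, ¬ adj i j → θ i j = 0
  θ_sum : ∀ i, ∑ j, θ i j < 2
  flow : ∀ u k, Flow adj d u k (t * d u k)

/-- An antisymmetric function supported on the edges. -/
def Good (adj : V → V → Prop) (E : V → V → ℝ) : Prop :=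
  (∀ i j, E i j = - E j i) ∧ ∀ i j, ¬ adj i j → E i j = 0

/-- The potential of the rounding algorithm. -/
noncomputable def pot {d : V → V → ℝ} {t g : ℝ} (N : Net d t g) (E : V → V → ℝ) : ℝ :=
  open Classical in
  ∑ i, ∑ j, if N.adj i j then d i j * (max 0 (E i j - N.θ i j + g) / g) else 0

/-! ### ultrametrics and water filling -/

/-- An ultrametric with values in `ℕ`. -/
structure IsUlt (lev : V → V → ℕ) : Prop where
  zero : ∀ i j, lev i j = 0 ↔ i = j
  symm : ∀ i j, lev i j = lev j i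
  tri : ∀ i j k, lev i k ≤ max (lev i j) (lev j k)

/-- The cluster of level `k` that contains `i`. -/
def cl (lev : V → V → ℕ) (k : ℕ) (i : V) : Finset V := univ.filter (fun j => lev i j ≤ k)

/-- The clusters of level `k`. -/
def clusters (lev : V → V → ℕ) (k : ℕ) : Finset (Finset V) := univ.image (cl lev k)

/-- The clusters of level `k` inside `P`. -/
def children (lev : V → V → ℕ) (k : ℕ) (P : Finset V) : Finset (Finset V) := P.image (cl lev k)

/-- The relation between the loads `F`, a request `u` and its fractional assignment `x`. -/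
structure Step (lev : V → V → ℕ) (a F : V → ℝ) (u : V) (x : V → ℝ) : Prop where
  x0 : ∀ i, 0 ≤ x i
  sum : ∑ i, x i = 1
  xa : ∀ i, F i + x i ≤ a i
  own : ∀ k, ∑ i ∈ cl lev k u, x i < 1 →
    ∑ i ∈ cl lev k u, (F i + x i) = ∑ i ∈ cl lev k u, a i
  water : ∀ k, ∀ P ∈ clusters lev (k + 1), ∃ lam : ℝ, 0 ≤ lam ∧
    (∀ v ∈ children lev k P, u ∉ v → ∑ i ∈ v, x i = min lam (∑ i ∈ v, (a i - F i))) ∧
    (∀ v ∈ children lev k P, u ∈ v → ∑ i ∈ v, (F i + x i) < ∑ i ∈ v, a i → lam = 0)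

/-- The invariant of the water filling algorithm: `a` capacities, `F` loads, `R` numbers of
requests, `f v` the load of the cluster `v` coming from outside `v`. -/
structure Inv (lev : V → V → ℕ) (a F R : V → ℝ) (f : Finset V → ℝ) : Prop where
  F0 : ∀ i, 0 ≤ F i
  Fa : ∀ i, F i ≤ a i
  f0 : ∀ v, 0 ≤ f v
  out0 : ∀ k, ∀ v ∈ clusters lev k, 0 ≤ ∑ i ∈ v, R i - ∑ i ∈ v, F i + f v
  full : ∀ k, ∀ v ∈ clusters lev k, 0 < ∑ i ∈ v, R i - ∑ i ∈ v, F i + f v →
    ∑ i ∈ v, F i = ∑ i ∈ v, a i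
  level : ∀ k, ∀ P ∈ clusters lev (k + 1), ∃ L : ℝ, ∀ v ∈ children lev k P,
    f v ≤ L ∧ (∑ i ∈ v, F i < ∑ i ∈ v, a i → f v = L)
  star : ∀ k, ∀ P ∈ clusters lev (k + 1), ∀ l : ℝ, 0 < l →
    l * ((children lev k P).filter (fun v => l ≤ f v)).card ≤
      ∑ v ∈ children lev k P, max 0 (∑ i ∈ v, R i - ∑ i ∈ v, a i) + f P
  top : f univ = 0

/-- The requests `0, …, t`. -/
def hist {V : Type} (u : ℕ → V) (t : ℕ) : List V := (List.range (t + 1)).map u

end Pool.Agent.Helper8.OT
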