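import Pool.Agent.Helper8.OT.Ball

/-!
PROJECT OT, module OT-Density (short, uses the statement of `Ball.lean`).
A graph all of whose cycles have more than `2 R + 1` edges, on fewer than `(5/4)^R` vertices, has
at most `(5/4)|S|` edges inside every vertex set `S`.

PLAN.  Strong induction on `S.card`: `S = ∅` clear (`einside G ∅ = ∅`: every `e : Sym2 V` has a member).
Otherwise pick `v ∈ S` and the balls `B r` of `balls`.  (a) Some `r < R` has
`4 * (B (r+1)).card ≤ 5 * (B r).card`; otherwise `(B R).card ≥ (5/4)^R` by induction
(`(B 0).card = 1`), contradicting `hR` as `(B R).card ≤ card V`.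
(b) Every edge inside `S` is inside `S \ B r` or inside `B (r+1)` (if one end is in `B r` then the other
end is in `B (r+1)`, and `B r ⊆ B (r+1)`).  So with `b = (B r).card ≥ 1` (`v ∈ B r`)
`4 e(S) ≤ 4 e(B (r+1)) + 4 e(S \ B r) ≤ 4 (B (r+1)).card + 5 |S \ B r| ≤ 5 b + 5 |S \ B r| = 5 |S|`
(`r + 1 ≤ R`; induction hypothesis for `S \ B r`).
-/

namespace Pool.Agent.Helper8.OT

open Finset

variable {V : Type} [Fintype V] [DecidableEq V]

theorem density (G : SimpleGraph V) (R : ℕ) (hR : (Fintype.card V : ℝ) < (5 / 4 : ℝ) ^ R)
    (hG : ∀ (v : V) (c : G.Walk v v), c.IsCycle → 2 * R + 1 < c.length) (S : Finset V) :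
    4 * (einside G S).card ≤ 5 * S.card := by
  induction hS : S.card using Nat.strong_induction_on generalizing S with
  | _ n ih =>
  subst hS
  rcases S.eq_empty_or_nonempty with rfl | ⟨v, hv⟩
  · have h0 : einside G (∅ : Finset V) = ∅ := by
      rw [Finset.eq_empty_iff_forall_notMem]
      intro e he
      induction e using Sym2.ind with
      | _ a b =>
        simp only [einside, mem_filter, mem_univ, true_and] at he
        have := he.2 a (by simp)
        simp at this
    rw [h0]
    simp
  · obtain ⟨B, hB0, hBs, hBS, hBn, hBe⟩ := balls G R hG S v hv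
    have hex : ∃ r < R, 4 * (B (r + 1)).card ≤ 5 * (B r).card := by
      by_contra hcon
      push Not at hcon
      have hgrow : ∀ r ≤ R, (5 / 4 : ℝ) ^ r ≤ ((B r).card : ℝ) := by
        intro r
        induction r with
        | zero =>
          intro _
          rw [hB0]
          simp
        | succ r ihr =>
          intro hr
          have h1 := ihr (by omega)
          have h2 := hcon r (by omega)
          have h3 : (5 : ℝ) * ((B r).card : ℝ) ≤ 4 * ((B (r + 1)).card : ℝ) := by
            exact_mod_cast h2.le
          rw [pow_succ]
          linarith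
      have h1 := hgrow R le_rfl
      have h2 : ((B R).card : ℝ) ≤ (Fintype.card V : ℝ) := by
        exact_mod_cast card_le_univ (B R)
      linarith
    obtain ⟨r, hrR, hr⟩ := hex
    have hvB : ∀ r, v ∈ B r := by
      intro r
      induction r with
      | zero => simp [hB0]
      | succ r ihr => exact hBs r ihr
    have hsub : einside G S ⊆ einside G (B (r + 1)) ∪ einside G (S \ B r) := by
      intro e he
      induction e using Sym2.ind with
      | _ a b =>
        simp only [einside, mem_filter, mem_univ, true_and, SimpleGraph.mem_edgeSet,
          mem_union] at he ⊢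
        obtain ⟨hab, hin⟩ := he
        have ha := hin a (by simp)
        have hb := hin b (by simp)
        by_cases haB : a ∈ B r
        · left
          refine ⟨hab, ?_⟩
          intro w hw
          rcases Sym2.mem_iff.mp hw with rfl | rfl
          · exact hBs r haB
          · exact hBn r a _ haB hb hab
        · by_cases hbB : b ∈ B r
          · left
            refine ⟨hab, ?_⟩
            intro w hw
            rcases Sym2.mem_iff.mp hw with rfl | rfl
            · exact hBn r b _ hbB ha hab.symm
            · exact hBs r hbB
          · right
            refine ⟨hab, ?_⟩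
            intro w hw
            rcases Sym2.mem_iff.mp hw with rfl | rfl
            · exact mem_sdiff.mpr ⟨ha, haB⟩
            · exact mem_sdiff.mpr ⟨hb, hbB⟩
    have hcard := (card_le_card hsub).trans (card_union_le _ _)
    have hbe := hBe (r + 1) (by omega)
    have hsd := card_sdiff_add_card_eq_card (hBS r)
    have hpos : 0 < (B r).card := card_pos.mpr ⟨v, hvB r⟩
    have hlt : (S \ B r).card < S.card := by omega
    have hih := ih (S \ B r).card hlt (S \ B r) rfl
    omega

end Pool.Agent.Helper8.OT
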