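import Pool.Agent.Helper8.OT.Ult

/-!
PROJECT OT, module OT-Fill (uses the statements of `Ult.lean`).
PLAN.  `water_level`: intermediate value theorem for `lam ↦ ∑ min lam (ρ i)` on `[0, M]`,
`M ≥ all ρ i` (value 0 at 0, `∑ ρ i` at `M`; continuous).
`fill`: induction on `k` (for all `p`, `μ`).  Level 0: `cl lev 0 p = {p}`, `x i = if i = p then μ else 0`,
no condition for the levels.  Level `k+1`: water level `lam` for the children of
`P = cl lev (k+1) p` and the numbers `∑ i ∈ v, ρ i` (`sum_children`); for every vertex `q` let `y q`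
be the function of the induction hypothesis for `cl lev k q` with `μ = min lam (∑_{cl lev k q} ρ)`, chosen
as a function of the SET `cl lev k q` (e.g. choose for every finset `v` that is in `clusters lev k`),
and `x i = if i ∈ P then (y (cl lev k i)) i else 0`.  On a child `v` of `P` we have `x = y v`.
`∑ i ∈ P, x i = μ` by `sum_children`.  Level `j = k` condition: `Q ⊆ P`, both clusters of level `k+1`, so
`Q = P` (`clusters_eq`, clusters are nonempty): `lam`.  Level `j < k`: `Q ∈ clusters (j+1)`, `Q ⊆ P`, lies in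
one child `v` of `P` (`Q = cl (j+1) i ⊆ cl k i = v`), and `x = y v` there; its children are subsets of `Q`.
-/

namespace Pool.Agent.Helper8.OT

open Finset

variable {V : Type} [Fintype V] [DecidableEq V]

theorem water_level {ι : Type} (s : Finset ι) (ρ : ι → ℝ) (hρ : ∀ i ∈ s, 0 ≤ ρ i) (μ : ℝ)
    (h0 : 0 ≤ μ) (h1 : μ ≤ ∑ i ∈ s, ρ i) :
    ∃ lam : ℝ, 0 ≤ lam ∧ ∑ i ∈ s, min lam (ρ i) = μ := by
  have hM : 0 ≤ ∑ i ∈ s, ρ i := sum_nonneg hρ
  have hc : ContinuousOn (fun lam : ℝ => ∑ i ∈ s, min lam (ρ i)) (Set.Icc 0 (∑ i ∈ s, ρ i)) := by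
    refine Continuous.continuousOn ?_
    exact continuous_finsetSum s (fun i _ => continuous_id.min continuous_const)
  have h := intermediate_value_Icc hM hc
  have e0 : ∑ i ∈ s, min (0 : ℝ) (ρ i) = 0 :=
    sum_eq_zero (fun i hi => min_eq_left (hρ i hi))
  have e1 : ∑ i ∈ s, min (∑ i ∈ s, ρ i) (ρ i) = ∑ i ∈ s, ρ i :=
    sum_congr rfl (fun i hi => min_eq_right (single_le_sum (f := ρ) hρ hi))
  have hμ : μ ∈ Set.Icc (∑ i ∈ s, min (0 : ℝ) (ρ i)) (∑ i ∈ s, min (∑ i ∈ s, ρ i) (ρ i)) := by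
    rw [e0, e1]
    exact ⟨h0, h1⟩
  obtain ⟨lam, hlam, hl⟩ := h hμ
  exact ⟨lam, hlam.1, hl⟩

theorem fill {lev : V → V → ℕ} (hlev : IsUlt lev) (ρ : V → ℝ) (hρ : ∀ i, 0 ≤ ρ i) (k : ℕ)
    (p : V) (μ : ℝ) (h0 : 0 ≤ μ) (h1 : μ ≤ ∑ i ∈ cl lev k p, ρ i) :
    ∃ x : V → ℝ, (∀ i, 0 ≤ x i) ∧ (∀ i, x i ≤ ρ i) ∧ (∀ i, i ∉ cl lev k p → x i = 0) ∧
      ∑ i ∈ cl lev k p, x i = μ ∧
      ∀ j < k, ∀ Q ∈ clusters lev (j + 1), Q ⊆ cl lev k p → ∃ lam : ℝ, 0 ≤ lam ∧
        ∀ v ∈ children lev j Q, ∑ i ∈ v, x i = min lam (∑ i ∈ v, ρ i) := by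
  induction k generalizing p μ with
  | zero =>
    rw [cl_zero hlev, sum_singleton] at h1
    refine ⟨fun i => if i = p then μ else 0, ?_, ?_, ?_, ?_, ?_⟩
    · intro i
      by_cases hi : i = p
      · simpa [hi] using h0
      · simp [hi]
    · intro i
      by_cases hi : i = p
      · simpa [hi] using h1
      · simpa [hi] using hρ i
    · intro i hi
      rw [cl_zero hlev, mem_singleton] at hi
      simp [hi]
    · rw [cl_zero hlev, sum_singleton]
      simp
    · intro j hj
      exact absurd hj (Nat.not_lt_zero j)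
  | succ k ih =>
    have hP : cl lev (k + 1) p ∈ clusters lev (k + 1) := cl_mem_clusters lev (k + 1) p
    obtain ⟨lam, hlam0, hlam⟩ := water_level (children lev k (cl lev (k + 1) p))
      (fun v => ∑ i ∈ v, ρ i) (fun v _ => sum_nonneg (fun i _ => hρ i)) μ h0
      (by rw [sum_children hlev hP]; exact h1)
    have hex : ∀ v : Finset V, ∃ y : V → ℝ, v ∈ clusters lev k →
        (∀ i, 0 ≤ y i) ∧ (∀ i, y i ≤ ρ i) ∧
        ∑ i ∈ v, y i = min lam (∑ i ∈ v, ρ i) ∧
        ∀ j < k, ∀ Q ∈ clusters lev (j + 1), Q ⊆ v → ∃ lam : ℝ, 0 ≤ lam ∧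
          ∀ w ∈ children lev j Q, ∑ i ∈ w, y i = min lam (∑ i ∈ w, ρ i) := by
      intro v
      by_cases hv : v ∈ clusters lev k
      · have hv' := hv
        unfold clusters at hv'
        rw [mem_image] at hv'
        obtain ⟨a, -, ha⟩ := hv'
        obtain ⟨x, x1, x2, -, x4, x5⟩ := ih a (min lam (∑ i ∈ cl lev k a, ρ i))
          (le_min hlam0 (sum_nonneg (fun i _ => hρ i))) (min_le_right _ _)
        rw [ha] at x4 x5
        exact ⟨x, fun _ => ⟨x1, x2, x4, x5⟩⟩
      · exact ⟨fun _ => 0, fun h => absurd h hv⟩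
    choose Y hY using hex
    have hx : ∀ v ∈ children lev k (cl lev (k + 1) p), ∀ i ∈ v,
        (if i ∈ cl lev (k + 1) p then Y (cl lev k i) i else 0) = Y v i := by
      intro v hv i hi
      have hv' := (mem_children hlev hP).mp hv
      rw [if_pos (hv'.2 hi), ← mem_clusters hlev hv'.1 hi]
    have hsum : ∀ v ∈ children lev k (cl lev (k + 1) p),
        ∑ i ∈ v, (if i ∈ cl lev (k + 1) p then Y (cl lev k i) i else 0)
          = min lam (∑ i ∈ v, ρ i) := by
      intro v hv
      rw [sum_congr rfl (hx v hv)]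
      exact (hY v (children_subset hv)).2.2.1
    refine ⟨fun i => if i ∈ cl lev (k + 1) p then Y (cl lev k i) i else 0, ?_, ?_, ?_, ?_, ?_⟩
    · intro i
      show (0 : ℝ) ≤ if i ∈ cl lev (k + 1) p then Y (cl lev k i) i else 0
      by_cases hi : i ∈ cl lev (k + 1) p
      · rw [if_pos hi]
        exact (hY (cl lev k i) (cl_mem_clusters lev k i)).1 i
      · rw [if_neg hi]
    · intro i
      show (if i ∈ cl lev (k + 1) p then Y (cl lev k i) i else 0) ≤ ρ i
      by_cases hi : i ∈ cl lev (k + 1) p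
      · rw [if_pos hi]
        exact (hY (cl lev k i) (cl_mem_clusters lev k i)).2.1 i
      · rw [if_neg hi]
        exact hρ i
    · intro i hi
      exact if_neg hi
    · rw [← sum_children hlev hP, sum_congr rfl hsum]
      exact hlam
    · intro j hj Q hQ hQP
      have hQ' := hQ
      unfold clusters at hQ'
      rw [mem_image] at hQ'
      obtain ⟨a, -, ha⟩ := hQ'
      have haQ : a ∈ Q := by
        rw [← ha]
        exact self_mem_cl hlev (j + 1) a
      have haP : a ∈ cl lev (k + 1) p := hQP haQ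
      rcases Nat.lt_succ_iff_lt_or_eq.mp hj with hjk | hjk
      · have hv : cl lev k a ∈ children lev k (cl lev (k + 1) p) := by
          unfold children
          exact mem_image_of_mem _ haP
        have hQv : Q ⊆ cl lev k a := by
          rw [← ha]
          exact cl_mono hjk a
        obtain ⟨lam', hl0, hl⟩ := (hY (cl lev k a) (cl_mem_clusters lev k a)).2.2.2 j hjk Q hQ hQv
        refine ⟨lam', hl0, fun w hw => ?_⟩
        rw [← hl w hw]
        refine sum_congr rfl (fun i hi => ?_)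
        exact hx _ hv i (hQv (((mem_children hlev hQ).mp hw).2 hi))
      · subst hjk
        have hQe : Q = cl lev (j + 1) p := clusters_eq hlev hQ hP haQ haP
        rw [hQe]
        exact ⟨lam, hlam0, hsum⟩

end Pool.Agent.Helper8.OT
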