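import Pool.Agent.Helper8.OT.Defs

/-!
PROJECT OT, module OT-FrtTree (independent).  One tree of the Fakcharoenphol-Rao-Talwar embedding,
for one permutation `π` and one sequence of radii `ρ`.

PLAN.  `cen k i` = the vertex `c` with `d c i ≤ ρ k` of minimal `π c` (`exists_min_image`; `c = i`
is always a candidate as `0 ≤ ρ k`; `π` is injective, so it is unique).
`lev i j` = the least `k` such that `cen k' i = cen k' j` for all `k' ≥ k` (`Nat.find`; `k = K` is
possible: for `k' ≥ K` all vertices are candidates for all `i`, so `cen k' i = cen k' j`).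
Then: `lev i j ≤ K`; symmetric and `lev i k ≤ max (lev i j) (lev j k)` clear; `lev i j = 0 ↔ i = j`
because `ρ 0 < d c i` for `c ≠ i`, so `cen 0 i = i`.
`d i j ≤ δ (lev i j)`: for `i ≠ j`, `l = lev i j ≥ 1`, `c = cen l i = cen l j`:
`d i j ≤ d c i + d c j ≤ 2 * ρ l ≤ δ l`.
Last claim: for `i = j` the left side is `δ 0 = 0`.  For `i ≠ j` let `l = lev i j ≥ 1`; at level
`k = l - 1 < K` the centers of `i` and `j` differ (minimality of `l`; they agree at all levels `≥ l`).
Write `dmin c = min (d c i) (d c j)`, `dmax c = max (d c i) (d c j)`, and let `c` be the vertex with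
`dmin c ≤ ρ k` of minimal `π c`.  Then `ρ k < dmax c` (otherwise `c` is the center of both `i`
and `j`), and `c` is first among all `c'` with `dmin c' ≤ dmin c`.  So the summand for this `c` on the
right is at least its term `δ (k + 1) = δ l`; all other summands are nonnegative.
-/

namespace Pool.Agent.Helper8.OT

open Finset

variable {V : Type} [Fintype V] [DecidableEq V]

open Classical in
theorem frt_tree {d : V → V → ℝ} (hd : IsMet d) (π : V ≃ Fin (Fintype.card V)) (ρ : ℕ → ℝ)
    (h0 : ∀ k, 0 ≤ ρ k) (h1 : ∀ i j, i ≠ j → ρ 0 < d i j) (K : ℕ)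
    (hK : ∀ k, K ≤ k → ∀ i j, d i j ≤ ρ k) (δ : ℕ → ℝ) (hδz : δ 0 = 0) (hδn : ∀ k, 0 ≤ δ k)
    (hδ : ∀ k, 1 ≤ k → 2 * ρ k ≤ δ k) :
    ∃ lev : V → V → ℕ, IsUlt lev ∧ (∀ i j, lev i j ≤ K) ∧ (∀ i j, d i j ≤ δ (lev i j)) ∧
      ∀ i j, δ (lev i j) ≤
        ∑ c, if (∀ c', min (d c' i) (d c' j) ≤ min (d c i) (d c j) → π c ≤ π c') then
          ∑ k ∈ range K, (if min (d c i) (d c j) ≤ ρ k ∧ ρ k < max (d c i) (d c j) then δ (k + 1)
            else 0) else 0 := by
  have hcex : ∀ k i, ∃ c, d c i ≤ ρ k ∧ ∀ c', d c' i ≤ ρ k → π c ≤ π c' := by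
    intro k i
    obtain ⟨c, hc, hmin⟩ := exists_min_image (univ.filter (fun c => d c i ≤ ρ k)) π
      ⟨i, mem_filter.mpr ⟨mem_univ _, by rw [hd.self]; exact h0 k⟩⟩
    exact ⟨c, (mem_filter.mp hc).2, fun c' hc' => hmin c' (mem_filter.mpr ⟨mem_univ _, hc'⟩)⟩
  choose cen hcen1 hcen2 using hcex
  have hcu : ∀ k i c, d c i ≤ ρ k → (∀ c', d c' i ≤ ρ k → π c ≤ π c') → cen k i = c := by
    intro k i c h h'
    exact π.injective (le_antisymm (hcen2 k i c h) (h' _ (hcen1 k i)))
  have hK' : ∀ i j k, K ≤ k → cen k i = cen k j := by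
    intro i j k hk
    exact hcu k i _ (hK k hk _ _) (fun c' _ => hcen2 k j c' (hK k hk _ _))
  have hex : ∀ i j, ∃ k, ∀ k', k ≤ k' → cen k' i = cen k' j := fun i j => ⟨K, hK' i j⟩
  obtain ⟨lev, hlev1, hlev2⟩ : ∃ lev : V → V → ℕ,
      (∀ i j k', lev i j ≤ k' → cen k' i = cen k' j) ∧
      (∀ i j m, (∀ k', m ≤ k' → cen k' i = cen k' j) → lev i j ≤ m) :=
    ⟨fun i j => Nat.find (hex i j), fun i j => Nat.find_spec (hex i j),
      fun i j m h => Nat.find_min' (hex i j) h⟩
  have hcen0 : ∀ i, cen 0 i = i := by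
    intro i
    by_contra hne
    exact absurd (hcen1 0 i) (not_le.mpr (h1 _ _ hne))
  have hzero : ∀ i j, lev i j = 0 ↔ i = j := by
    intro i j
    constructor
    · intro h
      have := hlev1 i j 0 h.le
      rwa [hcen0, hcen0] at this
    · intro h
      subst h
      exact Nat.le_zero.mp (hlev2 i i 0 (fun _ _ => rfl))
  have hleK : ∀ i j, lev i j ≤ K := fun i j => hlev2 i j K (hK' i j)
  refine ⟨lev, ⟨hzero, ?_, ?_⟩, hleK, ?_, ?_⟩
  · intro i j
    exact le_antisymm (hlev2 i j _ (fun k' hk' => (hlev1 j i k' hk').symm))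
      (hlev2 j i _ (fun k' hk' => (hlev1 i j k' hk').symm))
  · intro i j k
    exact hlev2 i k _ (fun k' hk' => (hlev1 i j k' (le_trans (le_max_left _ _) hk')).trans
      (hlev1 j k k' (le_trans (le_max_right _ _) hk')))
  · intro i j
    by_cases hij : i = j
    · rw [hij, hd.self]
      exact hδn _
    · have hl : 1 ≤ lev i j := Nat.one_le_iff_ne_zero.mpr (fun h => hij ((hzero i j).mp h))
      have hc := hlev1 i j (lev i j) le_rfl
      have e1 := hcen1 (lev i j) i
      have e2 := hcen1 (lev i j) j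
      rw [← hc] at e2
      have e3 := hd.tri i (cen (lev i j) i) j
      have e4 := hd.symm i (cen (lev i j) i)
      have e5 := hδ (lev i j) hl
      linarith
  · intro i j
    have hnn : ∀ c, 0 ≤ (if (∀ c', min (d c' i) (d c' j) ≤ min (d c i) (d c j) → π c ≤ π c') then
          ∑ k ∈ range K, (if min (d c i) (d c j) ≤ ρ k ∧ ρ k < max (d c i) (d c j) then δ (k + 1)
            else 0) else 0) := by
      intro c
      split_ifs
      · exact sum_nonneg (fun k _ => by split_ifs <;> first | exact hδn _ | exact le_rfl)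
      · exact le_rfl
    by_cases hij : i = j
    · have : lev i j = 0 := (hzero i j).mpr hij
      rw [this, hδz]
      exact sum_nonneg (fun c _ => hnn c)
    · have hl : 1 ≤ lev i j := Nat.one_le_iff_ne_zero.mpr (fun h => hij ((hzero i j).mp h))
      obtain ⟨k, hk⟩ : ∃ k, lev i j = k + 1 := ⟨lev i j - 1, by omega⟩
      have hne : cen k i ≠ cen k j := by
        intro h
        have : lev i j ≤ k := by
          apply hlev2
          intro k' hk'
          rcases Nat.eq_or_lt_of_le hk' with h' | h'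
          · rw [← h']; exact h
          · exact hlev1 i j k' (by omega)
        omega
      obtain ⟨c, hc, hmin⟩ := exists_min_image
        (univ.filter (fun c => min (d c i) (d c j) ≤ ρ k)) π
        ⟨i, mem_filter.mpr ⟨mem_univ _, le_trans (min_le_left _ _) (by rw [hd.self]; exact h0 k)⟩⟩
      have hc1 : min (d c i) (d c j) ≤ ρ k := (mem_filter.mp hc).2
      have hc2 : ∀ c', min (d c' i) (d c' j) ≤ ρ k → π c ≤ π c' :=
        fun c' h => hmin c' (mem_filter.mpr ⟨mem_univ _, h⟩)
      have hc3 : ρ k < max (d c i) (d c j) := by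
        by_contra hcon
        have hcon' := not_lt.mp hcon
        have a1 : cen k i = c := hcu k i c (le_trans (le_max_left _ _) hcon')
          (fun c' h => hc2 c' (le_trans (min_le_left _ _) h))
        have a2 : cen k j = c := hcu k j c (le_trans (le_max_right _ _) hcon')
          (fun c' h => hc2 c' (le_trans (min_le_right _ _) h))
        exact hne (a1.trans a2.symm)
      have hkK : k < K := by
        have := hleK i j
        omega
      refine le_trans ?_ (single_le_sum (fun c _ => hnn c) (mem_univ c))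
      rw [if_pos (fun c' h => hc2 c' (le_trans h hc1))]
      refine le_trans ?_ (single_le_sum (f := fun k => if min (d c i) (d c j) ≤ ρ k ∧
        ρ k < max (d c i) (d c j) then δ (k + 1) else 0)
        (fun k _ => by
          split_ifs
          · exact hδn _
          · exact le_rfl) (mem_range.mpr hkK))
      rw [if_pos ⟨hc1, hc3⟩, hk]

end Pool.Agent.Helper8.OT
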