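import Pool.Agent.Helper8.OT.Defs

/-!
PROJECT OT, module OT-Perm (short, independent).
`first_count`: among the bijections `π : V ≃ Fin (card V)`, the number of those for which `c ∈ A` is
the first element of `A` times `|A|` is at most their total number.
PLAN.  For `c' ∈ A` let `B c'` be the set of `π` for which `c'` is first in `A`.  `π ↦ (swap c c').trans π`
is a bijection from `B c` to `B c'` (it maps `A` to itself), so all the `B c'` have the same
cardinality; they are disjoint (the first element is unique as `π` is injective), so the sum of the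
cardinalities over `c' ∈ A`, i.e. `|A| * |B c|`, is at most the number of all `π`.
`rank_sum`: induction on a finset: for every finset `s` of `V`,
`∑_{c∈s} 1 / #{c' ∈ s | D c' ≤ D c} ≤ harmonic s.card`: remove an element `c0` with maximal `D`; its count is
`s.card`; for the others the count in `s` is at least the count in `s.erase c0`.
-/

namespace Pool.Agent.Helper8.OT

open Finset

variable {V : Type} [Fintype V] [DecidableEq V]

theorem first_count (A : Finset V) (c : V) (hc : c ∈ A) :
    (univ.filter (fun π : V ≃ Fin (Fintype.card V) => ∀ c' ∈ A, π c ≤ π c')).card * A.card ≤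
      Fintype.card (V ≃ Fin (Fintype.card V)) := by
  set B : V → Finset (V ≃ Fin (Fintype.card V)) :=
    fun c' => univ.filter (fun π => ∀ c'' ∈ A, π c' ≤ π c'') with hB
  have hcard : ∀ c' ∈ A, (B c').card = (B c).card := by
    intro c' hc'
    have hswap : ∀ x ∈ A, Equiv.swap c c' x ∈ A := by
      intro x hx
      by_cases h1 : x = c
      · subst h1; rw [Equiv.swap_apply_left]; exact hc'
      · by_cases h2 : x = c'
        · subst h2; rw [Equiv.swap_apply_right]; exact hc
        · rw [Equiv.swap_apply_of_ne_of_ne h1 h2]; exact hx
    symm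
    refine card_bij (fun π _ => (Equiv.swap c c').trans π) ?_ ?_ ?_
    · intro π hπ
      simp only [hB, mem_filter, mem_univ, true_and] at hπ ⊢
      intro x hx
      rw [Equiv.trans_apply, Equiv.trans_apply, Equiv.swap_apply_right]
      exact hπ _ (hswap x hx)
    · intro π _ σ _ h
      have := congrArg (fun τ => (Equiv.swap c c').trans τ) h
      simpa [← Equiv.trans_assoc] using this
    · intro π hπ
      refine ⟨(Equiv.swap c c').trans π, ?_, ?_⟩
      · simp only [hB, mem_filter, mem_univ, true_and] at hπ ⊢
        intro x hx
        rw [Equiv.trans_apply, Equiv.trans_apply, Equiv.swap_apply_left]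
        exact hπ _ (hswap x hx)
      · ext x
        simp
  have hdis : ∀ c1 ∈ A, ∀ c2 ∈ A, c1 ≠ c2 → Disjoint (B c1) (B c2) := by
    intro c1 h1 c2 h2 hne
    rw [disjoint_left]
    intro π hp1 hp2
    simp only [hB, mem_filter, mem_univ, true_and] at hp1 hp2
    exact hne (π.injective (le_antisymm (hp1 c2 h2) (hp2 c1 h1)))
  have hsum : (A.biUnion B).card = A.card * (B c).card := by
    rw [card_biUnion hdis, sum_congr rfl hcard, sum_const, smul_eq_mul]
  calc (B c).card * A.card = (A.biUnion B).card := by rw [hsum, mul_comm]
    _ ≤ (univ : Finset (V ≃ Fin (Fintype.card V))).card := card_le_card (subset_univ _)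
    _ = Fintype.card (V ≃ Fin (Fintype.card V)) := card_univ

omit [Fintype V] in
private theorem rank_sum_aux (D : V → ℝ) (s : Finset V) :
    ∑ c ∈ s, (1 : ℝ) / (s.filter (fun c' => D c' ≤ D c)).card ≤ (harmonic s.card : ℝ) := by
  induction s using Finset.induction_on_max_value D with
  | empty => simp
  | insert a s ha hmax ih =>
    rw [sum_insert ha, card_insert_of_notMem ha, harmonic_succ]
    have h1 : ((insert a s).filter (fun c' => D c' ≤ D a)) = insert a s := by
      refine filter_true_of_mem ?_
      intro x hx
      rcases mem_insert.1 hx with rfl | hx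
      · exact le_rfl
      · exact hmax x hx
    rw [h1, card_insert_of_notMem ha]
    have h2 : ∑ c ∈ s, (1 : ℝ) / ((insert a s).filter (fun c' => D c' ≤ D c)).card ≤
        ∑ c ∈ s, (1 : ℝ) / (s.filter (fun c' => D c' ≤ D c)).card := by
      refine sum_le_sum ?_
      intro c hc
      have hpos : 0 < (s.filter (fun c' => D c' ≤ D c)).card :=
        card_pos.2 ⟨c, mem_filter.2 ⟨hc, le_rfl⟩⟩
      have hle : (s.filter (fun c' => D c' ≤ D c)).card ≤
          ((insert a s).filter (fun c' => D c' ≤ D c)).card :=
        card_le_card (filter_subset_filter _ (subset_insert _ _))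
      exact one_div_le_one_div_of_le (by exact_mod_cast hpos) (by exact_mod_cast hle)
    push_cast
    rw [one_div]
    linarith

theorem rank_sum (D : V → ℝ) :
    ∑ c, (1 : ℝ) / (univ.filter (fun c' => D c' ≤ D c)).card ≤
      (harmonic (Fintype.card V) : ℝ) := by
  have h := rank_sum_aux D univ
  rwa [card_univ] at h

end Pool.Agent.Helper8.OT
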