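import Pool.Agent.Helper8.OT.Grid
import Pool.Agent.Helper8.OT.Perm
import Pool.Agent.Helper8.OT.FrtTree

/-!
PROJECT OT, module OT-Frt (uses the statements of `Grid.lean`, `Perm.lean`, `FrtTree.lean`).
The Fakcharoenphol-Rao-Talwar ultrametrics with base `α`, with a grid of radii instead of a
continuous one.

PLAN.  Choose `Λ > 0` with `Λ * α ≤ d i j` for all `i ≠ j` (finite minimum), `K` with
`d i j ≤ Λ * α ^ K` for all `i, j`, and `N > 0` with
`2 * α ^ 2 * ∑ k ∈ range K, Λ * α ^ k ≤ N * (Λ * α)`.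
`Ω = (V ≃ Fin (card V)) × Fin N` (nonempty: `Fintype.equivFin`).
Radius `ρ n k = (1 + (α-1) n / N) * (Λ * α ^ k)`, so `Λ α^k ≤ ρ n k < Λ α^(k+1)`, monotone in `k`.
`δ 0 = 0`, `δ k = 2 * Λ * α ^ (k+1)` for `k ≥ 1`, so `α * δ k = δ (k+1)` for `k ≥ 1`.
`lev (π, n)` from `frt_tree` (choice).
Expected stretch, for `i ≠ j` (for `i = j` both sides are 0): write
`dmin c = min (d c i) (d c j)`, `dmax c = max (d c i) (d c j)`, `dmax c - dmin c ≤ d i j`.
Sum the last claim of `frt_tree` over `(π, n)` and exchange the sums: by `grid` (with `a = dmin c`,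
`b = dmax c`, `δ (k+1) = 2 α^2 * (Λ α^k)`)
`∑ n, ∑ k, … ≤ 2 α^2 * (N * d i j / (α-1) + ∑ k, Λ α^k) ≤ N * (2 α^2/(α-1) + 1) * d i j
≤ N * (4 α + 1) * d i j` (`α^2 ≤ 2 α (α - 1)` for `α ≥ 2`), and by `first_count` for
`A c = {c' | dmin c' ≤ dmin c}` (`c ∈ A c`):
`#{π | c first in A c} ≤ (number of π) / |A c|`, and `rank_sum` for `D = dmin`.
-/

namespace Pool.Agent.Helper8.OT

open Finset

variable {V : Type} [Fintype V] [DecidableEq V]

omit [DecidableEq V] in
private theorem frt_min {d : V → V → ℝ} (hd : IsMet d) :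
    ∃ μ : ℝ, 0 < μ ∧ ∀ i j, i ≠ j → μ ≤ d i j := by
  classical
  by_cases h : (univ.filter (fun p : V × V => p.1 ≠ p.2)).Nonempty
  · obtain ⟨p, hp, hmin⟩ := exists_min_image _ (fun p : V × V => d p.1 p.2) h
    exact ⟨d p.1 p.2, hd.pos _ _ (mem_filter.mp hp).2,
      fun i j hij => hmin (i, j) (mem_filter.mpr ⟨mem_univ _, hij⟩)⟩
  · exact ⟨1, one_pos, fun i j hij =>
      absurd ⟨(i, j), mem_filter.mpr ⟨mem_univ _, hij⟩⟩ h⟩

omit [DecidableEq V] in
private theorem frt_max {d : V → V → ℝ} (hd : IsMet d) :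
    ∃ D : ℝ, ∀ i j, d i j ≤ D := by
  refine ⟨∑ i, ∑ j, d i j, fun i j => ?_⟩
  refine le_trans ?_ (single_le_sum (f := fun i => ∑ j, d i j)
    (fun i _ => sum_nonneg (fun j _ => hd.nonneg i j)) (mem_univ i))
  exact single_le_sum (f := fun j => d i j) (fun j _ => hd.nonneg i j) (mem_univ j)

private theorem frt_grid (α Λ a b : ℝ) (hα : 1 < α) (hΛ : 0 < Λ) (hab : a ≤ b) (K N : ℕ)
    (hN : 0 < N) :
    ∑ n : Fin N, ∑ k ∈ range K,
      (if a ≤ (1 + (α - 1) * ((n : ℕ) : ℝ) / N) * (Λ * α ^ k) ∧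
          (1 + (α - 1) * ((n : ℕ) : ℝ) / N) * (Λ * α ^ k) < b then
        2 * α ^ 2 * (Λ * α ^ k) else 0) ≤
      2 * α ^ 2 * (N * (b - a) / (α - 1) + ∑ k ∈ range K, Λ * α ^ k) := by
  have h := grid α Λ a b hα hΛ hab K N hN
  have e1 : ∑ n : Fin N, ∑ k ∈ range K,
      (if a ≤ (1 + (α - 1) * ((n : ℕ) : ℝ) / N) * (Λ * α ^ k) ∧
          (1 + (α - 1) * ((n : ℕ) : ℝ) / N) * (Λ * α ^ k) < b then
        2 * α ^ 2 * (Λ * α ^ k) else 0) =
      2 * α ^ 2 * ∑ k ∈ range K, Λ * α ^ k * (((range N).filter (fun n : ℕ =>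
        a ≤ (1 + (α - 1) * (n : ℝ) / N) * (Λ * α ^ k) ∧
          (1 + (α - 1) * (n : ℝ) / N) * (Λ * α ^ k) < b)).card : ℝ) := by
    rw [sum_comm, mul_sum]
    refine sum_congr rfl (fun k _ => ?_)
    rw [Fin.sum_univ_eq_sum_range (fun n : ℕ =>
      (if a ≤ (1 + (α - 1) * (n : ℝ) / N) * (Λ * α ^ k) ∧
          (1 + (α - 1) * (n : ℝ) / N) * (Λ * α ^ k) < b then
        2 * α ^ 2 * (Λ * α ^ k) else 0)) N]
    rw [← sum_filter, sum_const, nsmul_eq_mul]
    ring
  rw [e1]
  exact mul_le_mul_of_nonneg_left h (by positivity)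

private theorem frt_arith (α x y : ℝ) (hα : 2 ≤ α) (hx : 0 ≤ x) (hy : 2 * α ^ 2 * y ≤ x) :
    2 * α ^ 2 * (x / (α - 1) + y) ≤ (4 * α + 1) * x := by
  have h1 : 0 < α - 1 := by linarith
  have h2 : 2 * α ^ 2 * (x / (α - 1)) ≤ 4 * α * x := by
    rw [mul_div_assoc', div_le_iff₀ h1]
    nlinarith [mul_nonneg (mul_nonneg (by linarith : (0 : ℝ) ≤ α) hx) (by linarith : 0 ≤ α - 2)]
  nlinarith

theorem frt {d : V → V → ℝ} (hd : IsMet d) (α : ℝ) (hα : 2 ≤ α) :
    ∃ (Ω : Type) (_ : Fintype Ω) (_ : Nonempty Ω) (lev : Ω → V → V → ℕ) (δ : ℕ → ℝ) (K : ℕ),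
      (∀ ω, IsUlt (lev ω)) ∧ (∀ ω i j, lev ω i j ≤ K) ∧ δ 0 = 0 ∧ (∀ k, 0 ≤ δ k) ∧
      (∀ k, 1 ≤ k → α * δ k ≤ δ (k + 1)) ∧ (∀ ω i j, d i j ≤ δ (lev ω i j)) ∧
      ∀ i j, ∑ ω, δ (lev ω i j) ≤
        Fintype.card Ω * ((4 * α + 1) * (harmonic (Fintype.card V) : ℝ) * d i j) := by
  classical
  have hα0 : 0 < α := by linarith
  have hα1 : 1 < α := by linarith
  obtain ⟨μ, hμ, hμd⟩ := frt_min hd
  obtain ⟨D, hD⟩ := frt_max hd
  obtain ⟨Λ, hΛ⟩ : ∃ Λ : ℝ, Λ * α = μ := ⟨μ / α, by field_simp⟩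
  have hΛ0 : 0 < Λ := by
    by_contra h
    have : Λ * α ≤ 0 := mul_nonpos_of_nonpos_of_nonneg (not_lt.mp h) hα0.le
    linarith
  obtain ⟨K, hK⟩ := pow_unbounded_of_one_lt (D / Λ) hα1
  have hK' : D ≤ Λ * α ^ K := by
    rw [div_lt_iff₀ hΛ0] at hK
    linarith
  obtain ⟨N0, hN0⟩ := exists_nat_ge ((2 * α ^ 2 * ∑ k ∈ range K, Λ * α ^ k) / μ)
  obtain ⟨N, hN⟩ : ∃ N : ℕ, N = N0 + 1 := ⟨_, rfl⟩
  have hNpos : 0 < N := by omega
  have hNr : (0 : ℝ) < N := by exact_mod_cast hNpos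
  have hNbig : 2 * α ^ 2 * ∑ k ∈ range K, Λ * α ^ k ≤ N * μ := by
    rw [div_le_iff₀ hμ] at hN0
    have : (N0 : ℝ) * μ ≤ N * μ := by
      apply mul_le_mul_of_nonneg_right _ hμ.le
      rw [hN]
      push_cast
      linarith
    linarith
  have hbase : ∀ (n : Fin N) (k : ℕ), Λ * α ^ k ≤
      (1 + (α - 1) * ((n : ℕ) : ℝ) / N) * (Λ * α ^ k) := by
    intro n k
    have h1 : 0 ≤ (α - 1) * ((n : ℕ) : ℝ) / N := by
      have : (0 : ℝ) ≤ α - 1 := by linarith
      positivity
    have h2 : 0 ≤ Λ * α ^ k := by positivity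
    nlinarith [mul_nonneg h1 h2]
  have hbase2 : ∀ (n : Fin N) (k : ℕ),
      (1 + (α - 1) * ((n : ℕ) : ℝ) / N) * (Λ * α ^ k) < α * (Λ * α ^ k) := by
    intro n k
    have h2 : 0 < Λ * α ^ k := by positivity
    have h3 : ((n : ℕ) : ℝ) < N := by exact_mod_cast n.2
    have h1 : (α - 1) * ((n : ℕ) : ℝ) / N < α - 1 := by
      rw [div_lt_iff₀ hNr]
      exact mul_lt_mul_of_pos_left h3 (by linarith)
    exact mul_lt_mul_of_pos_right (by linarith) h2
  obtain ⟨δ, hδ0, hδ1⟩ : ∃ δ : ℕ → ℝ, δ 0 = 0 ∧ ∀ k, 1 ≤ k → δ k = 2 * Λ * α ^ (k + 1) :=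
    ⟨fun k => if k = 0 then 0 else 2 * Λ * α ^ (k + 1), by simp, fun k hk => by
      show (if k = 0 then 0 else 2 * Λ * α ^ (k + 1)) = _
      rw [if_neg (by omega)]⟩
  have hδn : ∀ k, 0 ≤ δ k := by
    intro k
    rcases Nat.eq_zero_or_pos k with h | h
    · rw [h, hδ0]
    · rw [hδ1 k h]
      positivity
  have hδs : ∀ k, δ (k + 1) = 2 * α ^ 2 * (Λ * α ^ k) := by
    intro k
    rw [hδ1 (k + 1) (by omega)]
    ring
  have key : ∀ ω : (V ≃ Fin (Fintype.card V)) × Fin N, _ := fun ω =>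
    frt_tree hd ω.1 (fun k => (1 + (α - 1) * ((ω.2 : ℕ) : ℝ) / N) * (Λ * α ^ k))
      (fun k => le_trans (by positivity) (hbase ω.2 k))
      (fun i j hij => by
        have h1 := hbase2 ω.2 0
        have h2 := hμd i j hij
        have h3 : α * (Λ * α ^ 0) = μ := by rw [← hΛ]; ring
        linarith)
      K
      (fun k hk i j => by
        have h1 := hbase ω.2 k
        have h2 := hD i j
        have h3 : Λ * α ^ K ≤ Λ * α ^ k :=
          mul_le_mul_of_nonneg_left (pow_le_pow_right₀ hα1.le hk) hΛ0.le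
        exact le_trans h2 (le_trans hK' (le_trans h3 h1)))
      δ hδ0 hδn
      (fun k hk => by
        have h1 := hbase2 ω.2 k
        rw [hδ1 k hk]
        have h3 : 2 * Λ * α ^ (k + 1) = 2 * (α * (Λ * α ^ k)) := by ring
        rw [h3]
        linarith)
  choose lev hult hleK hdom hstr using key
  refine ⟨(V ≃ Fin (Fintype.card V)) × Fin N, inferInstance,
    ⟨(Fintype.equivFin V, ⟨0, hNpos⟩)⟩, lev, δ, K, hult, hleK, hδ0, hδn, ?_, hdom, ?_⟩
  · intro k hk
    rw [hδ1 k hk, hδ1 (k + 1) (by omega)]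
    exact le_of_eq (by ring)
  · intro i j
    by_cases hij : i = j
    · subst hij
      have : ∀ ω, δ (lev ω i i) = 0 := by
        intro ω
        rw [((hult ω).zero i i).mpr rfl, hδ0]
      rw [sum_congr rfl (fun ω _ => this ω), sum_const_zero, hd.self]
      simp
    · have hdpos := hd.pos i j hij
      have hdμ := hμd i j hij
      have hM : ∀ c, (((univ.filter (fun π : V ≃ Fin (Fintype.card V) =>
            ∀ c', min (d c' i) (d c' j) ≤ min (d c i) (d c j) → π c ≤ π c')).card : ℕ) : ℝ) ≤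
          (Fintype.card (V ≃ Fin (Fintype.card V)) : ℝ) *
            (1 / ((univ.filter (fun c' => min (d c' i) (d c' j) ≤
              min (d c i) (d c j))).card : ℝ)) := by
        intro c
        have h := first_count (univ.filter (fun c' => min (d c' i) (d c' j) ≤
              min (d c i) (d c j))) c (mem_filter.mpr ⟨mem_univ _, le_rfl⟩)
        have hpos : 0 < (univ.filter (fun c' => min (d c' i) (d c' j) ≤
              min (d c i) (d c j))).card := card_pos.2 ⟨c, mem_filter.mpr ⟨mem_univ _, le_rfl⟩⟩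
        have e : (univ.filter (fun π : V ≃ Fin (Fintype.card V) =>
            ∀ c', min (d c' i) (d c' j) ≤ min (d c i) (d c j) → π c ≤ π c')) =
            (univ.filter (fun π : V ≃ Fin (Fintype.card V) =>
              ∀ c' ∈ (univ.filter (fun c' => min (d c' i) (d c' j) ≤
              min (d c i) (d c j))), π c ≤ π c')) := by
          ext π
          simp only [mem_filter, mem_univ, true_and]
        rw [e, mul_one_div, le_div_iff₀ (by exact_mod_cast hpos)]
        exact_mod_cast h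
      have hG : ∀ c, ∑ n : Fin N, ∑ k ∈ range K,
          (if min (d c i) (d c j) ≤ (1 + (α - 1) * ((n : ℕ) : ℝ) / N) * (Λ * α ^ k) ∧
            (1 + (α - 1) * ((n : ℕ) : ℝ) / N) * (Λ * α ^ k) < max (d c i) (d c j) then
              δ (k + 1) else 0) ≤ (4 * α + 1) * (N * d i j) := by
        intro c
        simp only [hδs]
        refine le_trans (frt_grid α Λ _ _ hα1 hΛ0 (min_le_max) K N hNpos) ?_
        have h1 : max (d c i) (d c j) - min (d c i) (d c j) ≤ d i j := by
          rw [max_sub_min_eq_abs]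
          rw [abs_le]
          have h2 := hd.tri c i j
          have h3 := hd.tri c j i
          have h4 := hd.symm i j
          constructor <;> linarith
        have h2 : (N : ℝ) * (max (d c i) (d c j) - min (d c i) (d c j)) / (α - 1) ≤
            N * d i j / (α - 1) := by
          apply div_le_div_of_nonneg_right _ (by linarith)
          exact mul_le_mul_of_nonneg_left h1 hNr.le
        refine le_trans (mul_le_mul_of_nonneg_left
          (add_le_add_left h2 _) (by positivity)) ?_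
        refine frt_arith α _ _ hα (by positivity) (le_trans hNbig ?_)
        exact mul_le_mul_of_nonneg_left hdμ hNr.le
      have hG0 : ∀ c, 0 ≤ ∑ n : Fin N, ∑ k ∈ range K,
          (if min (d c i) (d c j) ≤ (1 + (α - 1) * ((n : ℕ) : ℝ) / N) * (Λ * α ^ k) ∧
            (1 + (α - 1) * ((n : ℕ) : ℝ) / N) * (Λ * α ^ k) < max (d c i) (d c j) then
              δ (k + 1) else 0) := by
        intro c
        refine sum_nonneg (fun n _ => sum_nonneg (fun k _ => ?_))
        split_ifs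
        · exact hδn _
        · exact le_rfl
      have hrank := rank_sum (fun c => min (d c i) (d c j))
      calc ∑ ω, δ (lev ω i j)
          ≤ ∑ ω : (V ≃ Fin (Fintype.card V)) × Fin N, ∑ c,
            if (∀ c', min (d c' i) (d c' j) ≤ min (d c i) (d c j) → ω.1 c ≤ ω.1 c') then
              ∑ k ∈ range K,
              (if min (d c i) (d c j) ≤ (1 + (α - 1) * ((ω.2 : ℕ) : ℝ) / N) * (Λ * α ^ k) ∧
                (1 + (α - 1) * ((ω.2 : ℕ) : ℝ) / N) * (Λ * α ^ k) < max (d c i) (d c j) then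
                  δ (k + 1) else 0) else 0 := sum_le_sum (fun ω _ => hstr ω i j)
        _ = ∑ c, ∑ π : V ≃ Fin (Fintype.card V),
            if (∀ c', min (d c' i) (d c' j) ≤ min (d c i) (d c j) → π c ≤ π c') then
              ∑ n : Fin N, ∑ k ∈ range K,
              (if min (d c i) (d c j) ≤ (1 + (α - 1) * ((n : ℕ) : ℝ) / N) * (Λ * α ^ k) ∧
                (1 + (α - 1) * ((n : ℕ) : ℝ) / N) * (Λ * α ^ k) < max (d c i) (d c j) then
                  δ (k + 1) else 0) else 0 := by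
            rw [sum_comm]
            refine sum_congr rfl (fun c _ => ?_)
            rw [Fintype.sum_prod_type]
            refine sum_congr rfl (fun π _ => ?_)
            by_cases hP : ∀ c', min (d c' i) (d c' j) ≤ min (d c i) (d c j) → π c ≤ π c'
            · simp only [if_pos hP]
            · simp only [if_neg hP, sum_const_zero]
        _ ≤ ∑ c, ((Fintype.card (V ≃ Fin (Fintype.card V)) : ℝ) *
            (1 / ((univ.filter (fun c' => min (d c' i) (d c' j) ≤
              min (d c i) (d c j))).card : ℝ))) * ((4 * α + 1) * (N * d i j)) := by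
            refine sum_le_sum (fun c _ => ?_)
            rw [← sum_filter, sum_const, nsmul_eq_mul]
            refine mul_le_mul (hM c) (hG c) (hG0 c) (by positivity)
        _ = (Fintype.card (V ≃ Fin (Fintype.card V)) : ℝ) * ((4 * α + 1) * (N * d i j)) *
            ∑ c, (1 / ((univ.filter (fun c' => min (d c' i) (d c' j) ≤
              min (d c i) (d c j))).card : ℝ)) := by
            rw [mul_sum]
            refine sum_congr rfl (fun c _ => by ring)
        _ ≤ (Fintype.card (V ≃ Fin (Fintype.card V)) : ℝ) * ((4 * α + 1) * (N * d i j)) *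
            (harmonic (Fintype.card V) : ℝ) :=
            mul_le_mul_of_nonneg_left hrank (by positivity)
        _ = Fintype.card ((V ≃ Fin (Fintype.card V)) × Fin N) *
            ((4 * α + 1) * (harmonic (Fintype.card V) : ℝ) * d i j) := by
            rw [Fintype.card_prod, Fintype.card_fin]
            push_cast
            ring

end Pool.Agent.Helper8.OT
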