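import Pool.Agent.Helper8.OT.TreeAlg
import Pool.Agent.Helper8.OT.Frt

/-!
PROJECT OT, module OT-Frac (short assembly; uses the statements of `TreeAlg.lean`, `Frt.lean`).
The fractional algorithm for a general metric.
PLAN.  `H = harmonic (card V) ≥ 1`.  Apply `frt` with `α = 2 * H`.  For every `ω` let `X ω` be the
function given by `tree_alg` for `lev ω` (choice), and
`X l i = (∑ ω, X ω l i) / card Ω`.  Nonnegative, sums one, loads at most `a i`: clear (exchange the
sums).  Cost: `d (u t) i ≤ δ (lev ω (u t) i)` for every `ω`, so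
`∑ t, ∑ i, X (hist u t) i * d (u t) i ≤ (1 / card Ω) * ∑ ω, ∑ t, ∑ i, X ω (hist u t) i * δ (lev ω (u t) i)
≤ (1 / card Ω) * ∑ ω, 4 * (1 + H) * ∑ t, δ (lev ω (u t) (σ t))
= 4 * (1+H) * ∑ t, (1 / card Ω) * ∑ ω, δ (lev ω (u t) (σ t)) ≤ 4 * (1 + H) * ∑ t, (8 * H + 1) * H * d (u t) (σ t)`.
-/

namespace Pool.Agent.Helper8.OT

open Finset

variable {V : Type} [Fintype V] [DecidableEq V]

private theorem one_le_harm (n : ℕ) (hn : 0 < n) : (1 : ℝ) ≤ (harmonic n : ℝ) := by
  have h : (1 : ℚ) ≤ harmonic n := by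
    unfold harmonic
    have h1 : ∀ i ∈ range n, (0 : ℚ) ≤ ((i + 1 : ℕ) : ℚ)⁻¹ := fun i _ => by positivity
    have h2 := single_le_sum h1 (mem_range.2 hn)
    simpa using h2
  exact_mod_cast h

theorem frac [Nonempty V] {d : V → V → ℝ} (hd : IsMet d) (a : V → ℕ) :
    ∃ X : List V → V → ℝ, (∀ l i, 0 ≤ X l i) ∧
      ∀ (u : ℕ → V) (n : ℕ), n ≤ ∑ i, a i →
        (∀ t < n, ∑ i, X (hist u t) i = 1) ∧
        (∀ i, ∑ t ∈ range n, X (hist u t) i ≤ a i) ∧
        ∀ σ : ℕ → V, (∀ i, ((range n).filter (fun t => σ t = i)).card ≤ a i) →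
          ∑ t ∈ range n, ∑ i, X (hist u t) i * d (u t) i ≤
            4 * (1 + (harmonic (Fintype.card V) : ℝ)) *
              ((8 * (harmonic (Fintype.card V) : ℝ) + 1) * (harmonic (Fintype.card V) : ℝ)) *
              ∑ t ∈ range n, d (u t) (σ t) := by
  set H : ℝ := (harmonic (Fintype.card V) : ℝ) with hH
  have hH1 : 1 ≤ H := one_le_harm _ Fintype.card_pos
  obtain ⟨Ω, fΩ, nΩ, lev, δ, K, hult, hK, hδz, hδ0, hδ, hdd, hst⟩ :=
    frt hd (2 * H) (by linarith)
  have hX := fun ω => tree_alg (hult ω) K (hK ω) δ hδz hδ0 H le_rfl hδ a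
  choose X hX0 hX1 using hX
  have hc : (0 : ℝ) < Fintype.card Ω := by exact_mod_cast Fintype.card_pos
  refine ⟨fun l i => (∑ ω, X ω l i) / Fintype.card Ω, ?_, ?_⟩
  · intro l i
    exact div_nonneg (sum_nonneg fun ω _ => hX0 ω l i) hc.le
  · intro u n hn
    refine ⟨?_, ?_, ?_⟩
    · intro t ht
      rw [← sum_div, sum_comm]
      have h1 : ∑ ω, ∑ i, X ω (hist u t) i = ∑ _ω : Ω, (1 : ℝ) :=
        sum_congr rfl fun ω _ => (hX1 ω u n hn).1 t ht
      rw [h1, sum_const, card_univ, nsmul_eq_mul, mul_one, div_self hc.ne']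
    · intro i
      rw [← sum_div, sum_comm, div_le_iff₀ hc]
      calc ∑ ω, ∑ t ∈ range n, X ω (hist u t) i ≤ ∑ _ω : Ω, (a i : ℝ) :=
            sum_le_sum fun ω _ => (hX1 ω u n hn).2.1 i
        _ = a i * Fintype.card Ω := by
            rw [sum_const, card_univ, nsmul_eq_mul, mul_comm]
    · intro σ hσ
      have h1 : ∑ t ∈ range n, ∑ i, (∑ ω, X ω (hist u t) i) / Fintype.card Ω * d (u t) i =
          (∑ ω, ∑ t ∈ range n, ∑ i, X ω (hist u t) i * d (u t) i) / Fintype.card Ω := by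
        rw [sum_comm (s := univ) (t := range n), sum_div]
        refine sum_congr rfl fun t _ => ?_
        rw [sum_comm (s := univ) (t := univ), sum_div]
        refine sum_congr rfl fun i _ => ?_
        rw [← sum_mul]
        ring
      have h2 : ∑ ω, ∑ t ∈ range n, ∑ i, X ω (hist u t) i * d (u t) i ≤
          ∑ ω, 4 * (1 + H) * ∑ t ∈ range n, δ (lev ω (u t) (σ t)) := by
        refine sum_le_sum fun ω _ => ?_
        refine le_trans ?_ ((hX1 ω u n hn).2.2 σ hσ)
        refine sum_le_sum fun t _ => sum_le_sum fun i _ => ?_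
        exact mul_le_mul_of_nonneg_left (hdd ω _ _) (hX0 ω _ _)
      have h3 : ∑ ω, 4 * (1 + H) * ∑ t ∈ range n, δ (lev ω (u t) (σ t)) =
          4 * (1 + H) * ∑ t ∈ range n, ∑ ω, δ (lev ω (u t) (σ t)) := by
        rw [← mul_sum, sum_comm]
      have h4 : ∑ t ∈ range n, ∑ ω, δ (lev ω (u t) (σ t)) ≤
          ∑ t ∈ range n, Fintype.card Ω * ((4 * (2 * H) + 1) * H * d (u t) (σ t)) :=
        sum_le_sum fun t _ => hst _ _
      have h5 : ∑ t ∈ range n, (Fintype.card Ω : ℝ) * ((4 * (2 * H) + 1) * H * d (u t) (σ t)) =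
          Fintype.card Ω * (((8 * H + 1) * H) * ∑ t ∈ range n, d (u t) (σ t)) := by
        rw [← mul_sum, ← mul_sum]
        ring
      rw [h1, div_le_iff₀ hc]
      have h6 : 4 * (1 + H) * ∑ t ∈ range n, ∑ ω, δ (lev ω (u t) (σ t)) ≤
          4 * (1 + H) * (Fintype.card Ω * (((8 * H + 1) * H) *
            ∑ t ∈ range n, d (u t) (σ t))) := by
        refine mul_le_mul_of_nonneg_left ?_ (by positivity)
        rw [← h5]
        exact h4
      calc ∑ ω, ∑ t ∈ range n, ∑ i, X ω (hist u t) i * d (u t) i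
          ≤ 4 * (1 + H) * (Fintype.card Ω * (((8 * H + 1) * H) *
            ∑ t ∈ range n, d (u t) (σ t))) := (h2.trans h3.le).trans h6
        _ = (4 * (1 + H) * ((8 * H + 1) * H) * ∑ t ∈ range n, d (u t) (σ t)) *
            Fintype.card Ω := by ring

end Pool.Agent.Helper8.OT
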