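import Pool.Agent.Helper8.OT.Defs

/-!
PROJECT OT, module OT-Hall (short, independent).
Fractional orientation by Hall's theorem (`Finset.all_card_le_biUnion_card_iff_exists_injective`).
PLAN.  Index set `ι = {e : Sym2 V // e ∈ G.edgeSet} × Fin q`, values `V × Fin c`,
`N (e, s) = univ.filter (fun p => p.1 ∈ e)`.  For a finset `A` of `ι` let `S` be the set of vertices on
edges of `A` (the biUnion of the `N`'s is `S ×ˢ univ`, of cardinality `S.card * c`);
`A` injects into `einside G S × Fin q`, so `A.card ≤ q * (einside G S).card ≤ c * S.card`.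
Hall gives an injective `f`.  Put `τ i j = #{s : Fin q | G.Adj i j, (f (s(i,j), s)).1 = i}` (0 if not
adjacent).  `τ i j + τ j i = q` since the first coordinate is one of the two ends (`i ≠ j`).
`∑ j, τ i j ≤ c`: these indices `(s(i,j), s)` are different for different `(j, s)` and are mapped
injectively into `{i} × Fin c`.
-/

namespace Pool.Agent.Helper8.OT

open Finset

variable {V : Type} [Fintype V] [DecidableEq V]

theorem tokens (G : SimpleGraph V) (q c : ℕ)
    (h : ∀ S : Finset V, q * (einside G S).card ≤ c * S.card) :
    ∃ τ : V → V → ℕ, (∀ i j, G.Adj i j → τ i j + τ j i = q) ∧ (∀ i j, ¬ G.Adj i j → τ i j = 0) ∧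
      ∀ i, ∑ j, τ i j ≤ c := by
  classical
  set ι := {e : Sym2 V // e ∈ G.edgeSet} × Fin q with hι
  set N : ι → Finset (V × Fin c) := fun x => univ.filter (fun p => p.1 ∈ x.1.1) with hN
  have hall : ∀ A : Finset ι, A.card ≤ (A.biUnion N).card := by
    intro A
    set S : Finset V := univ.filter (fun v => ∃ x ∈ A, v ∈ x.1.1) with hS
    have h1 : A.biUnion N = S ×ˢ (univ : Finset (Fin c)) := by
      ext p
      simp only [hN, hS, mem_biUnion, mem_filter, mem_univ, true_and, mem_product, and_true]
    rw [h1, card_product, card_univ, Fintype.card_fin]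
    have h2 : A.card ≤ (einside G S).card * q := by
      have h3 : A.card ≤ (einside G S ×ˢ (univ : Finset (Fin q))).card := by
        refine card_le_card_of_injOn (fun x => (x.1.1, x.2)) ?_ ?_
        · intro x hx
          rw [mem_coe, mem_product]
          refine ⟨?_, mem_univ _⟩
          unfold einside
          rw [mem_filter]
          refine ⟨mem_univ _, x.1.2, fun v hv => ?_⟩
          rw [hS, mem_filter]
          exact ⟨mem_univ _, x, hx, hv⟩
        · intro x _ y _ hxy
          simp only [Prod.mk.injEq] at hxy
          exact Prod.ext (Subtype.ext hxy.1) hxy.2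
      rwa [card_product, card_univ, Fintype.card_fin] at h3
    have h4 := h S
    calc A.card ≤ (einside G S).card * q := h2
      _ = q * (einside G S).card := mul_comm _ _
      _ ≤ c * S.card := h4
      _ = S.card * c := mul_comm _ _
  obtain ⟨f, hf, hfN⟩ := (Finset.all_card_le_biUnion_card_iff_exists_injective N).1 hall
  have hmem : ∀ x : ι, (f x).1 ∈ x.1.1 := by
    intro x
    have := hfN x
    rw [hN, mem_filter] at this
    exact this.2
  refine ⟨fun i j => if hij : G.Adj i j then
    (univ.filter (fun s : Fin q => (f (⟨s(i, j), hij⟩, s)).1 = i)).card else 0, ?_, ?_, ?_⟩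
  · intro i j hij
    simp only [dif_pos hij, dif_pos hij.symm]
    have e1 : ∀ s : Fin q, (f ((⟨s(j, i), hij.symm⟩ : {e : Sym2 V // e ∈ G.edgeSet}), s)) =
        f (⟨s(i, j), hij⟩, s) := by
      intro s
      congr 2
      exact Subtype.ext Sym2.eq_swap
    simp only [e1]
    have e2 : (univ.filter (fun s : Fin q => (f (⟨s(i, j), hij⟩, s)).1 = j)) =
        univ.filter (fun s : Fin q => ¬ (f (⟨s(i, j), hij⟩, s)).1 = i) := by
      apply filter_congr
      intro s _
      have h5 := hmem (⟨s(i, j), hij⟩, s)
      have h6 := Sym2.mem_iff.1 h5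
      constructor
      · intro h7 h8
        rw [h7] at h8
        exact hij.ne h8.symm
      · intro h7
        rcases h6 with h8 | h8
        · exact absurd h8 h7
        · exact h8
    rw [e2, Finset.card_filter_add_card_filter_not, card_univ, Fintype.card_fin]
  · intro i j hij
    simp only [dif_neg hij]
  · intro i
    set B : Finset ι := univ.filter (fun x => (f x).1 = i) with hB
    have hBc : B.card ≤ c := by
      rw [← card_image_of_injective B hf]
      have h1 : B.image f ⊆ ({i} : Finset V) ×ˢ (univ : Finset (Fin c)) := by
        intro p hp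
        rw [mem_image] at hp
        obtain ⟨x, hx, rfl⟩ := hp
        rw [hB, mem_filter] at hx
        rw [mem_product, mem_singleton]
        exact ⟨hx.2, mem_univ _⟩
      have h2 := card_le_card h1
      rwa [card_product, card_singleton, one_mul, card_univ, Fintype.card_fin] at h2
    set Bj : V → Finset ι := fun j => B.filter (fun x => x.1.1 = s(i, j)) with hBj
    have h1 : ∀ j ∈ (univ : Finset V), (if hij : G.Adj i j then
        (univ.filter (fun s : Fin q => (f (⟨s(i, j), hij⟩, s)).1 = i)).card else 0) ≤
        (Bj j).card := by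
      intro j _
      split_ifs with hij
      · refine card_le_card_of_injOn (fun s => ((⟨s(i, j), hij⟩ : {e : Sym2 V // e ∈ G.edgeSet}), s))
          ?_ ?_
        · intro s hs
          rw [mem_coe, mem_filter] at hs
          rw [mem_coe, hBj, mem_filter, hB, mem_filter]
          exact ⟨⟨mem_univ _, hs.2⟩, rfl⟩
        · intro s _ s' _ hss
          exact (Prod.ext_iff.1 hss).2
      · exact Nat.zero_le _
    refine (sum_le_sum h1).trans (le_trans ?_ hBc)
    rw [← card_biUnion]
    · refine card_le_card ?_
      intro x hx
      rw [mem_biUnion] at hx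
      obtain ⟨j, -, hx⟩ := hx
      rw [hBj, mem_filter] at hx
      exact hx.1
    · intro j _ j' _ hjj
      change Disjoint (Bj j) (Bj j')
      rw [disjoint_left]
      intro x hx hx'
      rw [hBj, mem_filter] at hx hx'
      have h2 := hx.2.symm.trans hx'.2
      rw [Sym2.eq_iff] at h2
      rcases h2 with h2 | h2
      · exact hjj h2.2
      · exact hjj (h2.2.trans h2.1)

end Pool.Agent.Helper8.OT
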