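import Pool.Agent.Helper8.OT.HeapOne

/-!
PROJECT OT, module OT-Heap (short, uses the statements of `HeapOne.lean` and the `wlen` lemmas of
`Flow.lean`).
Degree reduction: the star of the in-neighbours of each vertex `c` is replaced by a binary heap.
PLAN.  `τ` is an orientation of `G` with out-degrees at most 2: the edge `{v, c}` is owned by `v` if
`τ v c = 1` (then `τ c v = 0`, and `G.Adj v c` by `hoff`, so `v ≠ c`).  For each `c` let
`I c = {v | τ v c = 1}` (`c ∉ I c`), `H c` the graph of `heap_one hd c (I c)`, and `G2 = ⨆ c, H c`.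
Degree of `x`: `G2.neighborSet x ⊆ (H x).neighborSet x ∪ ⋃ c ∈ {c | τ x c = 1}, (H c).neighborSet x`
(for `c ≠ x` an edge of `H c` at `x` needs `x ∈ I c`), and there are at most two `c` with `τ x c = 1`
(`∑ j, τ x j ≤ 2`); so at most `1 + 2 * 3 = 7` neighbours.
Walks: an edge `{i, j}` of `G` is owned by `i` (then `i ∈ I j`, walk from `i` to `j` in `H j`, `mapLe`)
or by `j` (then reverse the walk in `H i`; `wlen_reverse`, `hd.symm`).
-/

namespace Pool.Agent.Helper8.OT

open Finset

variable {V : Type} [Fintype V] [DecidableEq V]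

omit [Fintype V] [DecidableEq V] in
private theorem ncard_biUnion_le {ι : Type*} [DecidableEq ι] (f : ι → Set V) (s : Finset ι)
    (h : ∀ c, (f c).ncard ≤ 3) : (⋃ c ∈ s, f c).ncard ≤ s.card * 3 := by
  induction s using Finset.induction_on with
  | empty => simp
  | insert a s ha ih =>
    rw [Finset.set_biUnion_insert, Finset.card_insert_of_notMem ha]
    have h1 := Set.ncard_union_le (f a) (⋃ c ∈ s, f c)
    have h2 := h a
    omega

theorem bounded_degree {d : V → V → ℝ} (hd : IsMet d) (G : SimpleGraph V) (τ : V → V → ℕ)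
    (hτ : ∀ i j, G.Adj i j → τ i j + τ j i = 1) (hoff : ∀ i j, ¬ G.Adj i j → τ i j = 0)
    (hs : ∀ i, ∑ j, τ i j ≤ 2) :
    ∃ G2 : SimpleGraph V, (∀ i, (G2.neighborSet i).ncard ≤ 7) ∧
      ∀ i j, G.Adj i j → ∃ p : G2.Walk i j,
        wlen d p ≤ 2 * ((Nat.log 2 (Fintype.card V) : ℝ) + 1) * d i j := by
  have hcI : ∀ c, c ∉ univ.filter (fun v => τ v c = 1) := by
    intro c h
    have h1 : τ c c = 1 := (Finset.mem_filter.1 h).2
    have h2 := hoff c c (fun h => G.ne_of_adj h rfl)
    omega
  choose H hH1 hH2 hH3 hH4 using fun c =>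
    heap_one hd c (univ.filter (fun v => τ v c = 1)) (hcI c)
  refine ⟨⨆ c, H c, ?_, ?_⟩
  · intro x
    have hsub : (⨆ c, H c).neighborSet x ⊆ (H x).neighborSet x ∪
        ⋃ c ∈ univ.filter (fun c => τ x c = 1), (H c).neighborSet x := by
      intro y hy
      rw [SimpleGraph.mem_neighborSet, SimpleGraph.iSup_adj] at hy
      obtain ⟨c, hc⟩ := hy
      by_cases hxc : x = c
      · left
        subst hxc
        exact hc
      · right
        have h1 := hH1 c x y hc hxc
        rw [Set.mem_iUnion₂]
        exact ⟨c, Finset.mem_filter.2 ⟨Finset.mem_univ _, (Finset.mem_filter.1 h1).2⟩, hc⟩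
    have hcard : (univ.filter (fun c => τ x c = 1)).card ≤ 2 := by
      refine le_trans ?_ (hs x)
      rw [Finset.card_eq_sum_ones, Finset.sum_filter]
      refine Finset.sum_le_sum (fun c _ => ?_)
      by_cases h : τ x c = 1
      · simp [h]
      · simp [h]
    have h1 := Set.ncard_le_ncard hsub (Set.toFinite _)
    have h2 := Set.ncard_union_le ((H x).neighborSet x)
      (⋃ c ∈ univ.filter (fun c => τ x c = 1), (H c).neighborSet x)
    have h3 := ncard_biUnion_le (fun c => (H c).neighborSet x)
      (univ.filter (fun c => τ x c = 1)) (fun c => hH3 c x)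
    have h4 := hH2 x
    omega
  · intro i j hij
    have hle : ∀ c, H c ≤ ⨆ c, H c := fun c => le_iSup H c
    rcases Nat.eq_zero_or_pos (τ i j) with h0 | h0
    · have h1 : τ j i = 1 := by
        have := hτ i j hij
        omega
      obtain ⟨p, hp⟩ := hH4 i j (Finset.mem_filter.2 ⟨Finset.mem_univ _, h1⟩)
      refine ⟨(p.mapLe (hle i)).reverse, ?_⟩
      rw [wlen_reverse hd.symm, wlen_mapLe]
      exact hp
    · have h1 : τ i j = 1 := by
        have := hτ i j hij
        omega
      obtain ⟨p, hp⟩ := hH4 j i (Finset.mem_filter.2 ⟨Finset.mem_univ _, h1⟩)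
      refine ⟨p.mapLe (hle j), ?_⟩
      rw [wlen_mapLe, hd.symm i j]
      exact hp

end Pool.Agent.Helper8.OT
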