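import Pool.Agent.Helper8.OT.Greedy
import Pool.Agent.Helper8.OT.Density
import Pool.Agent.Helper8.OT.Hall
import Pool.Agent.Helper8.OT.Heap

/-!
PROJECT OT, module OT-NetEx (assembly; uses the statements of Greedy, Density, Hall, Heap, Flow).
PLAN.  If `V` is empty everything is trivial; so `1 ≤ card V < (5/4)^R` gives `1 ≤ R`, `1 ≤ 2 * R`.
`G1` = greedy for `G0 = ⊤`, `t = 2 * R` (cycles have more than `2 R + 1` edges).  `density` for `G1`,
`tokens` with `q = 1, c = 2` (`e(S) ≤ 2 |S|`), `bounded_degree` gives `G2`; `G3` = greedy for `G2`,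
`t = 2 * R`; `density` for `G3`, `tokens` with `q = 4, c = 5` gives `τ`.
`adj = G3.Adj`, `θ i j = if adj i j then 1/8 + 7/8 * (τ i j / 4) else 0`.
`θ_sum`: at most 7 neighbours, `7 * (1/8) + 7/8 * (5/4) = 63/32 < 2`.
Flow from `u` to `k`: `u = k` trivial.  Otherwise the walk in `G1` with
`wlen ≤ 2 R * d u k`; replace each of its edges by the walk in `G2`
(`wlen ≤ 2 (log + 1) * d`) and each edge of that by the walk in `G3` (`wlen ≤ 2 R * d`):
general lemma: if every edge `{i,j}` of `G` has a walk in `G'` with `wlen ≤ c * d i j`, `0 ≤ c`, then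
for every walk `p` in `G` there is a walk in `G'` with `wlen ≤ c * wlen p` (induction).  The product
is `2R * 2(log+1) * 2R = 8 R^2 (log + 1)`.  Finally `flow_of_walk` and `flow_mono`.
-/

namespace Pool.Agent.Helper8.OT

open Finset

variable {V : Type} [Fintype V] [DecidableEq V]

omit [Fintype V] [DecidableEq V] in
private theorem walk_replace {d : V → V → ℝ} {G G' : SimpleGraph V} (c : ℝ)
    (h : ∀ i j, G.Adj i j → ∃ p : G'.Walk i j, wlen d p ≤ c * d i j) {u v : V}
    (p : G.Walk u v) : ∃ q : G'.Walk u v, wlen d q ≤ c * wlen d p := by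
  induction p with
  | nil => exact ⟨.nil, by simp [wlen]⟩
  | cons hadj p ih =>
    obtain ⟨q1, hq1⟩ := h _ _ hadj
    obtain ⟨q2, hq2⟩ := ih
    refine ⟨q1.append q2, ?_⟩
    rw [wlen_append]
    simp only [wlen]
    nlinarith [hq1, hq2]

theorem net_exists {d : V → V → ℝ} (hd : IsMet d) (R : ℕ)
    (hR : (Fintype.card V : ℝ) < (5 / 4 : ℝ) ^ R) :
    Nonempty (Net d (8 * (R : ℝ) ^ 2 * ((Nat.log 2 (Fintype.card V) : ℝ) + 1)) (1 / 8)) := by
  classical
  rcases isEmpty_or_nonempty V with hV | hV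
  · exact ⟨{
      adj := fun _ _ => False
      θ := fun _ _ => 0
      symm := fun i => isEmptyElim i
      irr := fun i => isEmptyElim i
      g_pos := by norm_num
      g_le := by norm_num
      θ_ge := fun i => isEmptyElim i
      θ_add := fun i => isEmptyElim i
      θ_off := fun i => isEmptyElim i
      θ_sum := fun i => isEmptyElim i
      flow := fun i => isEmptyElim i }⟩
  have hR1 : 1 ≤ R := by
    rcases Nat.eq_zero_or_pos R with h | h
    · exfalso
      rw [h, pow_zero] at hR
      have h1 : 0 < Fintype.card V := Fintype.card_pos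
      have h2 : (1 : ℝ) ≤ Fintype.card V := by exact_mod_cast h1
      linarith
    · exact h
  obtain ⟨G1, -, hG1w, hG1c⟩ := greedy d hd.nonneg hd.symm ⊤ (2 * R) (by omega)
  have hd1 := density G1 R hR (fun v c hc => hG1c v c hc)
  obtain ⟨τ1, h11, h12, h13⟩ := tokens G1 1 2 (fun S => by have := hd1 S; omega)
  obtain ⟨G2, hdeg, hG2w⟩ := bounded_degree hd G1 τ1 h11 h12 h13
  obtain ⟨G3, hle, hG3w, hG3c⟩ := greedy d hd.nonneg hd.symm G2 (2 * R) (by omega)
  have hd3 := density G3 R hR (fun v c hc => hG3c v c hc)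
  obtain ⟨τ, ht1, ht2, ht3⟩ := tokens G3 4 5 hd3
  refine ⟨{
      adj := G3.Adj
      θ := fun i j => if G3.Adj i j then 1 / 8 + 7 / 8 * ((τ i j : ℝ) / 4) else 0
      symm := fun i j h => h.symm
      irr := fun i h => G3.loopless.irrefl i h
      g_pos := by norm_num
      g_le := by norm_num
      θ_ge := ?_
      θ_add := ?_
      θ_off := ?_
      θ_sum := ?_
      flow := ?_ }⟩
  · intro i j h
    rw [if_pos h]
    have : (0 : ℝ) ≤ τ i j := Nat.cast_nonneg _
    linarith
  · intro i j h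
    have h' : G3.Adj j i := h.symm
    rw [if_pos h, if_pos h']
    have h4 : ((τ i j : ℝ)) + (τ j i : ℝ) = 4 := by exact_mod_cast ht1 i j h
    linarith
  · intro i j h
    rw [if_neg h]
  · intro i
    have hcount : ((univ.filter (fun j => G3.Adj i j)).card : ℝ) ≤ 7 := by
      have h1 : (G3.neighborSet i).ncard ≤ 7 := by
        refine le_trans (Set.ncard_le_ncard ?_ (Set.toFinite _)) (hdeg i)
        intro j hj
        exact hle hj
      have h2 : (G3.neighborSet i).ncard = (univ.filter (fun j => G3.Adj i j)).card := by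
        rw [← Set.ncard_coe_finset]
        congr 1
        ext j
        simp
      rw [h2] at h1
      exact_mod_cast h1
    have hτ : ∑ j, (τ i j : ℝ) ≤ 5 := by exact_mod_cast ht3 i
    have hsum : ∑ j, (if G3.Adj i j then 1 / 8 + 7 / 8 * ((τ i j : ℝ) / 4) else 0)
        = 1 / 8 * ((univ.filter (fun j => G3.Adj i j)).card : ℝ) + 7 / 32 * ∑ j, (τ i j : ℝ) := by
      rw [Finset.mul_sum, Finset.card_filter]
      push_cast
      rw [Finset.mul_sum, ← Finset.sum_add_distrib]
      refine Finset.sum_congr rfl fun j _ => ?_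
      by_cases h : G3.Adj i j
      · rw [if_pos h, if_pos h]; ring
      · rw [if_neg h, if_neg h, ht2 i j h]; simp
    rw [hsum]
    linarith
  · intro u k
    by_cases huk : u = k
    · subst huk
      rw [hd.self, mul_zero]
      exact flow_refl _ _ _
    obtain ⟨p1, hp1⟩ := hG1w u k (by simpa using huk)
    obtain ⟨p2, hp2⟩ := walk_replace _ hG2w p1
    obtain ⟨p3, hp3⟩ := walk_replace _ hG3w p2
    refine flow_mono (fun _ _ h => h) ?_ (flow_of_walk hd.nonneg p3)
    have hRn : (0 : ℝ) ≤ R := Nat.cast_nonneg _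
    have hLn : (0 : ℝ) ≤ (Nat.log 2 (Fintype.card V) : ℝ) := Nat.cast_nonneg _
    push_cast at hp1 hp3
    calc wlen d p3 ≤ 2 * (R : ℝ) * wlen d p2 := hp3
      _ ≤ 2 * (R : ℝ) * (2 * ((Nat.log 2 (Fintype.card V) : ℝ) + 1) * wlen d p1) :=
          mul_le_mul_of_nonneg_left hp2 (by positivity)
      _ ≤ 2 * (R : ℝ) * (2 * ((Nat.log 2 (Fintype.card V) : ℝ) + 1) * (2 * (R : ℝ) * d u k)) :=
          mul_le_mul_of_nonneg_left (mul_le_mul_of_nonneg_left hp1 (by positivity)) (by positivity)
      _ = 8 * (R : ℝ) ^ 2 * ((Nat.log 2 (Fintype.card V) : ℝ) + 1) * d u k := by ring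

end Pool.Agent.Helper8.OT
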