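import Pool.Agent.Helper8.OT.Run
import Pool.Agent.Helper8.OT.NetEx
import Pool.Agent.Helper8.OT.Frac
import Pool.Agent.Helper84.TransportDefs

/-!
The polylogarithmic upper bound for online transportation with one extra server per site
(project OT, problem MP_ed2ca9_lc).
-/

namespace Pool.Agent.Helper8.OT

open Finset Pool.Agent.Helper84.Transport
open scoped ENNReal

section

variable {m : ℕ} {N : Type} [MetricSpace N]

/-- The metric on the indices of the sites (the discrete metric if two sites coincide). -/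
noncomputable def dm (s : Fin m → N) : Fin m → Fin m → ℝ :=
  open Classical in
  if Function.Injective s then fun i j => dist (s i) (s j) else fun i j => if i = j then 0 else 1

theorem dm_inj {s : Fin m → N} (hs : Function.Injective s) (i j : Fin m) :
    dm s i j = dist (s i) (s j) := by
  simp [dm, hs]

theorem isMet_dm (s : Fin m → N) : IsMet (dm s) := by
  classical
  by_cases hs : Function.Injective s
  · have : dm s = fun i j => dist (s i) (s j) := by simp [dm, hs]
    rw [this]
    exact ⟨fun i => dist_self _, fun i j h => dist_pos.2 (hs.ne h), fun i j => dist_comm _ _,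
      fun i j k => dist_triangle _ _ _⟩
  · have : dm s = fun i j => if i = j then 0 else 1 := by simp [dm, hs]
    rw [this]
    refine ⟨fun i => by simp, fun i j h => by simp [h], fun i j => by simp [eq_comm],
      fun i j k => ?_⟩
    by_cases h1 : i = k
    · simp only [h1, if_true]
      positivity
    · by_cases h2 : i = j
      · have h3 : j ≠ k := fun h => h1 (h2.trans h)
        simp [h2, h3]
      · simp only [h1, h2, if_false]
        have : (0 : ℝ) ≤ if j = k then 0 else 1 := by positivity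
        linarith

variable [NeZero m]

theorem near_exists (s : Fin m → N) (p : N) : ∃ i, ∀ j, dist (s i) p ≤ dist (s j) p :=
  Finite.exists_min fun i => dist (s i) p

/-- A nearest site. -/
noncomputable def near (s : Fin m → N) (p : N) : Fin m := (near_exists s p).choose

theorem near_spec (s : Fin m → N) (p : N) (j : Fin m) :
    dist (s (near s p)) p ≤ dist (s j) p := (near_exists s p).choose_spec j

/-- The stretch of the graph. -/
noncomputable def stretch (m R : ℕ) : ℝ := 8 * (R : ℝ) ^ 2 * ((Nat.log 2 m : ℝ) + 1)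

omit [NeZero m] in
theorem net_dm (s : Fin m → N) (R : ℕ) (hR : (m : ℝ) < (5 / 4 : ℝ) ^ R) :
    Nonempty (Net (dm s) (stretch m R) (1 / 8)) := by
  have h := net_exists (isMet_dm s) R (by simpa using hR)
  simpa [stretch] using h

/-- The graph used by the algorithm. -/
noncomputable def net (s : Fin m → N) (R : ℕ) (hR : (m : ℝ) < (5 / 4 : ℝ) ^ R) :
    Net (dm s) (stretch m R) (1 / 8) := Classical.choice (net_dm s R hR)

/-- The fractional algorithm. -/
noncomputable def fx (s : Fin m → N) (a : Fin m → ℕ) : List (Fin m) → Fin m → ℝ :=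
  (frac (isMet_dm s) a).choose

/-- The factor of the fractional algorithm. -/
noncomputable def cfac (m : ℕ) : ℝ :=
  4 * (1 + (harmonic m : ℝ)) * ((8 * (harmonic m : ℝ) + 1) * (harmonic m : ℝ))

theorem fx_nonneg (s : Fin m → N) (a : Fin m → ℕ) (l : List (Fin m)) (i : Fin m) :
    0 ≤ fx s a l i := (frac (isMet_dm s) a).choose_spec.1 l i

theorem fx_sum (s : Fin m → N) (a : Fin m → ℕ) (u : ℕ → Fin m) (n : ℕ) (hn : n ≤ ∑ i, a i) :
    ∀ t < n, ∑ i, fx s a (hist u t) i = 1 :=
  ((frac (isMet_dm s) a).choose_spec.2 u n hn).1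

theorem fx_load (s : Fin m → N) (a : Fin m → ℕ) (u : ℕ → Fin m) (n : ℕ) (hn : n ≤ ∑ i, a i)
    (i : Fin m) : ∑ t ∈ range n, fx s a (hist u t) i ≤ a i :=
  ((frac (isMet_dm s) a).choose_spec.2 u n hn).2.1 i

theorem fx_cost (s : Fin m → N) (a : Fin m → ℕ) (u : ℕ → Fin m) (n : ℕ) (hn : n ≤ ∑ i, a i)
    (σ : ℕ → Fin m) (hσ : ∀ i, ((range n).filter (fun t => σ t = i)).card ≤ a i) :
    ∑ t ∈ range n, ∑ i, fx s a (hist u t) i * dm s (u t) i ≤
      cfac m * ∑ t ∈ range n, dm s (u t) (σ t) := by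
  have h := ((frac (isMet_dm s) a).choose_spec.2 u n hn).2.2 σ hσ
  have h2 : cfac m = 4 * (1 + (harmonic (Fintype.card (Fin m)) : ℝ)) *
      ((8 * (harmonic (Fintype.card (Fin m)) : ℝ) + 1) *
        (harmonic (Fintype.card (Fin m)) : ℝ)) := by
    rw [cfac, Fintype.card_fin]
  rw [h2]
  exact h

/-- The site used for the request `j`. -/
noncomputable def asg (a : Fin m → ℕ) (R : ℕ) (hR : (m : ℝ) < (5 / 4 : ℝ) ^ R) (s : Fin m → N)
    (r : ℕ → N) (j : ℕ) : Fin m := site (net s R hR) (fx s a) (fun k => near s (r k)) j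

theorem asg_congr (a : Fin m → ℕ) (R : ℕ) (hR : (m : ℝ) < (5 / 4 : ℝ) ^ R) (s : Fin m → N)
    (r : ℕ → N) (j : ℕ) : asg a R hR s (fun k => r (min k j)) j = asg a R hR s r j := by
  unfold asg
  apply site_congr
  intro k hk
  simp only [min_eq_left hk]

omit [NeZero m] in
theorem ncard_eq (n : ℕ) (f : ℕ → Fin m) (i : Fin m) :
    {j | j < n ∧ f j = i}.ncard = ((range n).filter (fun j => f j = i)).card := by
  have : {j | j < n ∧ f j = i} = ↑((range n).filter fun j => f j = i) := by
    ext j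
    simp
  rw [this, Set.ncard_coe_finset]

theorem asg_load (a : Fin m → ℕ) (R : ℕ) (hR : (m : ℝ) < (5 / 4 : ℝ) ^ R) (s : Fin m → N)
    (r : ℕ → N) (n : ℕ) (hn : n ≤ ∑ i, a i) (i : Fin m) :
    {j | j < n ∧ asg a R hR s r j = i}.ncard ≤ a i + 1 := by
  rw [ncard_eq]
  exact run_load (net s R hR) (fx s a) (isMet_dm s) (fx_nonneg s a) (fun k => near s (r k)) n
    (fx_sum s a _ n hn) a (fun k hk i => fx_load s a _ k (hk.trans hn) i) n le_rfl i

theorem cfac_nonneg (m : ℕ) : 0 ≤ cfac m := by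
  have : (0 : ℝ) ≤ (harmonic m : ℝ) := by
    have : (0 : ℚ) ≤ harmonic m := by
      unfold harmonic
      exact Finset.sum_nonneg fun i _ => by positivity
    exact_mod_cast this
  unfold cfac
  positivity

theorem stretch_nonneg (m R : ℕ) : 0 ≤ stretch m R := by
  unfold stretch
  positivity

/-- The cost of the algorithm. -/
theorem asg_cost (a : Fin m → ℕ) (R : ℕ) (hR : (m : ℝ) < (5 / 4 : ℝ) ^ R) (s : Fin m → N)
    (hs : Function.Injective s) (r : ℕ → N) (n : ℕ) (hn : n ≤ ∑ i, a i) (o : ℕ → Fin m)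
    (ho : ∀ i, {j | j < n ∧ o j = i}.ncard ≤ a i) :
    ∑ j ∈ range n, dist (s (asg a R hR s r j)) (r j) ≤
      (1 + 2 * (8 * stretch m R * cfac m)) * ∑ j ∈ range n, dist (s (o j)) (r j) := by
  set u : ℕ → Fin m := fun k => near s (r k) with hu
  set O := ∑ j ∈ range n, dist (s (o j)) (r j) with hO
  have h1 := run_cost (net s R hR) (fx s a) (isMet_dm s) (fx_nonneg s a) u n (fx_sum s a u n hn)
  have h2 := fx_cost s a u n hn o fun i => by rw [← ncard_eq]; exact ho i
  have h3 : ∑ t ∈ range n, dm s (u t) (o t) ≤ 2 * O := by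
    rw [hO, Finset.mul_sum]
    apply Finset.sum_le_sum
    intro t _
    rw [dm_inj hs]
    have h4 := dist_triangle (s (u t)) (r t) (s (o t))
    have h5 := near_spec s (r t) (o t)
    rw [dist_comm (r t) (s (o t))] at h4
    simp only [hu] at h4 ⊢
    linarith
  have h4 : ∑ j ∈ range n, dist (s (asg a R hR s r j)) (r j) ≤
      ∑ j ∈ range n, dm s (u j) (asg a R hR s r j) + O := by
    rw [hO, ← Finset.sum_add_distrib]
    apply Finset.sum_le_sum
    intro t _
    rw [dm_inj hs]
    have h5 := dist_triangle (s (asg a R hR s r t)) (s (u t)) (r t)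
    have h6 := near_spec s (r t) (o t)
    rw [dist_comm (s (asg a R hR s r t)) (s (u t))] at h5
    simp only [hu] at h5 ⊢
    linarith
  have h5 : ∑ j ∈ range n, dm s (u j) (asg a R hR s r j) ≤
      8 * stretch m R * (cfac m * (2 * O)) := by
    calc ∑ j ∈ range n, dm s (u j) (asg a R hR s r j)
        = ∑ j ∈ range n, dm s (u j) (site (net s R hR) (fx s a) u j) := rfl
      _ ≤ stretch m R / (1 / 8) * ∑ j ∈ range n, ∑ k, fx s a (hist u j) k * dm s (u j) k := h1
      _ = 8 * stretch m R * ∑ j ∈ range n, ∑ k, fx s a (hist u j) k * dm s (u j) k := by ring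
      _ ≤ 8 * stretch m R * (cfac m * (2 * O)) := by
          apply mul_le_mul_of_nonneg_left _ (mul_nonneg (by norm_num) (stretch_nonneg m R))
          exact h2.trans (mul_le_mul_of_nonneg_left h3 (cfac_nonneg m))
  calc ∑ j ∈ range n, dist (s (asg a R hR s r j)) (r j)
      ≤ ∑ j ∈ range n, dm s (u j) (asg a R hR s r j) + O := h4
    _ ≤ 8 * stretch m R * (cfac m * (2 * O)) + O := by linarith
    _ = (1 + 2 * (8 * stretch m R * cfac m)) * O := by ring

/-- The online algorithm. -/
noncomputable def alg (m : ℕ) [NeZero m] (a c : Fin m → ℕ) (hac : ∀ i, a i < c i) (R : ℕ)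
    (hR : (m : ℝ) < (5 / 4 : ℝ) ^ R) : OnlineAlgorithm m a c where
  assign N _ s j r := asg a R hR s (fun k => r ⟨min k j, by omega⟩) j
  feasible N _ s r n hn i := by
    have h1 : ∀ j, asg a R hR s (fun k => r (min k j)) j = asg a R hR s r j := fun j =>
      asg_congr a R hR s r j
    simp only [h1]
    exact (asg_load a R hR s r n hn i).trans (hac i)

theorem alg_cost (a c : Fin m → ℕ) (hac : ∀ i, a i < c i) (R : ℕ)
    (hR : (m : ℝ) < (5 / 4 : ℝ) ^ R) (s : Fin m → N) (r : ℕ → N) (n : ℕ) :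
    (alg m a c hac R hR).cost s r n =
      ENNReal.ofReal (∑ j ∈ range n, dist (s (asg a R hR s r j)) (r j)) := by
  rw [OnlineAlgorithm.cost, ENNReal.ofReal_sum_of_nonneg fun _ _ => dist_nonneg]
  apply Finset.sum_congr rfl
  intro j _
  rw [edist_dist]
  have h1 : (alg m a c hac R hR).assign N s j (fun k => r k) =
    asg a R hR s (fun k => r (min k j)) j := rfl
  rw [h1, asg_congr]

end

theorem rstar_le_R (m : ℕ) (hm : 0 < m) (a c : Fin m → ℕ) (hac : ∀ i, a i < c i) (R : ℕ)
    (hR : (m : ℝ) < (5 / 4 : ℝ) ^ R) :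
    Rstar a c ≤ ENNReal.ofReal (1 + 2 * (8 * stretch m R * cfac m)) := by
  have : NeZero m := ⟨by omega⟩
  have hK0 : 0 ≤ 2 * (8 * stretch m R * cfac m) :=
    mul_nonneg (by norm_num) (mul_nonneg (mul_nonneg (by norm_num) (stretch_nonneg m R))
      (cfac_nonneg m))
  have hK : 0 < 1 + 2 * (8 * stretch m R * cfac m) := by linarith
  refine iInf_le_of_le (alg m a c hac R hR) ?_
  refine iSup_le fun N => iSup_le fun _ => iSup_le fun s => iSup_le fun hs => iSup_le fun r =>
    iSup_le fun n => iSup_le fun hn => ?_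
  apply ENNReal.div_le_of_le_mul
  have hKt' : ENNReal.ofReal (1 + 2 * (8 * stretch m R * cfac m)) ≠ 0 := by
    rw [Ne, ENNReal.ofReal_eq_zero, not_le]
    exact hK
  rw [opt, ENNReal.mul_iInf_of_ne hKt' ENNReal.ofReal_ne_top]
  refine le_iInf fun o => ?_
  rw [ENNReal.mul_iInf_of_ne hKt' ENNReal.ofReal_ne_top]
  refine le_iInf fun ho => ?_
  have h1 : ∑ j ∈ range n, edist (s (o j)) (r j) =
      ENNReal.ofReal (∑ j ∈ range n, dist (s (o j)) (r j)) := by
    rw [ENNReal.ofReal_sum_of_nonneg fun _ _ => dist_nonneg]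
    exact Finset.sum_congr rfl fun j _ => edist_dist _ _
  rw [alg_cost, h1, ← ENNReal.ofReal_mul hK.le]
  exact ENNReal.ofReal_le_ofReal (asg_cost a R hR s hs r n hn o ho)

/-- The elementary estimate of the constants. -/
theorem const_bound (m : ℕ) (hm : 0 < m) : ∃ R : ℕ, (m : ℝ) < (5 / 4 : ℝ) ^ R ∧
    1 + 2 * (8 * stretch m R * cfac m) ≤ 400000 * (1 + Real.log m) ^ 6 := by
  have hm1 : (1 : ℝ) ≤ m := by exact_mod_cast hm
  have hlog0 : 0 ≤ Real.log m := Real.log_nonneg hm1
  set L := 1 + Real.log m with hL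
  have hL1 : 1 ≤ L := by linarith
  refine ⟨⌊5 * Real.log m⌋₊ + 1, ?_, ?_⟩
  · have h1 : 5 * Real.log m < ((⌊5 * Real.log m⌋₊ + 1 : ℕ) : ℝ) := by
      have := Nat.lt_floor_add_one (5 * Real.log m)
      push_cast
      exact this
    have h2 : (1 : ℝ) / 5 ≤ Real.log (5 / 4) := by
      have h3 := Real.one_sub_inv_le_log_of_pos (show (0 : ℝ) < 5 / 4 by norm_num)
      norm_num at h3 ⊢
      linarith
    have h4 : Real.log m < ((⌊5 * Real.log m⌋₊ + 1 : ℕ) : ℝ) * Real.log (5 / 4) := by
      have h5 : (0 : ℝ) ≤ ((⌊5 * Real.log m⌋₊ + 1 : ℕ) : ℝ) := Nat.cast_nonneg _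
      nlinarith
    rw [← Real.log_pow] at h4
    exact (Real.log_lt_log_iff (by linarith) (by positivity)).1 h4
  · have hR : ((⌊5 * Real.log m⌋₊ + 1 : ℕ) : ℝ) ≤ 5 * L := by
      have := Nat.floor_le (show 0 ≤ 5 * Real.log m by positivity)
      push_cast
      linarith
    have hH : (harmonic m : ℝ) ≤ L := harmonic_le_one_add_log m
    have hH0 : (0 : ℝ) ≤ (harmonic m : ℝ) := by
      have : (0 : ℚ) ≤ harmonic m := by
        unfold harmonic
        exact Finset.sum_nonneg fun i _ => by positivity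
      exact_mod_cast this
    have hlog2 : (Nat.log 2 m : ℝ) ≤ 1.5 * Real.log m := by
      have h1 : (2 : ℝ) ^ Nat.log 2 m ≤ m := by
        exact_mod_cast Nat.pow_log_le_self 2 (by omega)
      have h2 : (Nat.log 2 m : ℝ) * Real.log 2 ≤ Real.log m := by
        rw [← Real.log_pow]
        exact Real.log_le_log (by positivity) h1
      have h3 := Real.log_two_gt_d9
      have h4 : (0 : ℝ) ≤ (Nat.log 2 m : ℝ) := Nat.cast_nonneg _
      nlinarith
    have hlog3 : (Nat.log 2 m : ℝ) + 1 ≤ 1.5 * L := by linarith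
    have hS : stretch m (⌊5 * Real.log m⌋₊ + 1) ≤ 300 * L ^ 3 := by
      unfold stretch
      have h1 : (((⌊5 * Real.log m⌋₊ + 1 : ℕ) : ℝ)) ^ 2 ≤ (5 * L) ^ 2 :=
        pow_le_pow_left₀ (Nat.cast_nonneg _) hR 2
      calc 8 * (((⌊5 * Real.log m⌋₊ + 1 : ℕ) : ℝ)) ^ 2 * ((Nat.log 2 m : ℝ) + 1)
          ≤ 8 * (5 * L) ^ 2 * (1.5 * L) := by
            apply mul_le_mul _ hlog3 (by positivity) (by positivity)
            linarith
        _ = 300 * L ^ 3 := by ring
    have hC : cfac m ≤ 72 * L ^ 3 := by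
      unfold cfac
      have h1 : 1 + (harmonic m : ℝ) ≤ 2 * L := by linarith
      have h2 : 8 * (harmonic m : ℝ) + 1 ≤ 9 * L := by linarith
      calc 4 * (1 + (harmonic m : ℝ)) * ((8 * (harmonic m : ℝ) + 1) * (harmonic m : ℝ))
          ≤ 4 * (2 * L) * ((9 * L) * L) := by
            apply mul_le_mul (by linarith) _ (by positivity) (by positivity)
            exact mul_le_mul h2 hH hH0 (by positivity)
        _ = 72 * L ^ 3 := by ring
    have h6 : 1 ≤ L ^ 6 := one_le_pow₀ hL1
    calc 1 + 2 * (8 * stretch m (⌊5 * Real.log m⌋₊ + 1) * cfac m)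
        ≤ 1 + 2 * (8 * (300 * L ^ 3) * (72 * L ^ 3)) := by
          have := mul_le_mul (mul_le_mul_of_nonneg_left hS (show (0 : ℝ) ≤ 8 by norm_num)) hC
            (cfac_nonneg m) (by positivity)
          linarith
      _ = 1 + 345600 * L ^ 6 := by ring
      _ ≤ 400000 * L ^ 6 := by linarith

theorem rstar_le_polylog (m : ℕ) (hm : 0 < m) (a c : Fin m → ℕ) (hac : ∀ i, a i < c i) :
    Rstar a c ≤ ENNReal.ofReal (400000 * (1 + Real.log m) ^ 6) := by
  obtain ⟨R, hR, h⟩ := const_bound m hm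
  exact (rstar_le_R m hm a c hac R hR).trans (ENNReal.ofReal_le_ofReal h)

end Pool.Agent.Helper8.OT
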