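import Pool.Agent.Helper8.OT.Defs

/-!
PROJECT OT, module OT-Flow (short, independent).  Unit flows and weighted walks.
PLAN.  `flow_refl`: `φ = 0`.  `flow_edge`: `φ a b = [a = i ∧ b = j] - [a = j ∧ b = i]` (note
`i ≠ j` by irreflexivity).  `flow_trans`: add the two functions, `max 0 (x+y) ≤ max 0 x + max 0 y`.
`flow_of_walk`: induction on the walk with the three lemmas before.
-/

namespace Pool.Agent.Helper8.OT

open Finset

variable {V : Type} [Fintype V] [DecidableEq V]

theorem flow_refl (adj : V → V → Prop) (w : V → V → ℝ) (u : V) : Flow adj w u u 0 := by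
  refine ⟨fun _ _ => 0, fun _ _ => by simp, fun _ _ _ => rfl, fun i => by simp, by simp⟩

theorem flow_mono {adj adj' : V → V → Prop} (h : ∀ i j, adj i j → adj' i j) {w : V → V → ℝ}
    {u k : V} {L L' : ℝ} (hL : L ≤ L') (hf : Flow adj w u k L) : Flow adj' w u k L' := by
  obtain ⟨φ, h1, h2, h3, h4⟩ := hf
  exact ⟨φ, h1, fun i j hij => h2 i j (fun hc => hij (h i j hc)), h3, h4.trans hL⟩

theorem flow_edge {adj : V → V → Prop} (hs : ∀ i j, adj i j → adj j i) (hirr : ∀ i, ¬ adj i i)
    (w : V → V → ℝ) {i j : V} (h : adj i j) : Flow adj w i j (w i j) := by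
  have hij : i ≠ j := by
    rintro rfl
    exact hirr i h
  refine ⟨fun a b => (if a = i ∧ b = j then 1 else 0) - (if a = j ∧ b = i then 1 else 0),
    ?_, ?_, ?_, ?_⟩
  · intro a b
    beta_reduce
    by_cases h1 : a = i ∧ b = j
    · by_cases h2 : a = j ∧ b = i
      · exact absurd (h1.1.symm.trans h2.1) hij
      · have h3 : (b = j ∧ a = i) := ⟨h1.2, h1.1⟩
        have h4 : ¬ (b = i ∧ a = j) := fun hc => h2 ⟨hc.2, hc.1⟩
        simp only [h1, h2, h3, h4, if_true, if_false]
        simp [hij, hij.symm]
    · by_cases h2 : a = j ∧ b = i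
      · have h3 : (b = i ∧ a = j) := ⟨h2.2, h2.1⟩
        have h4 : ¬ (b = j ∧ a = i) := fun hc => h1 ⟨hc.2, hc.1⟩
        rw [if_neg h1, if_pos h2, if_neg h4, if_pos h3]
        ring
      · have h3 : ¬ (b = i ∧ a = j) := fun hc => h2 ⟨hc.2, hc.1⟩
        have h4 : ¬ (b = j ∧ a = i) := fun hc => h1 ⟨hc.2, hc.1⟩
        rw [if_neg h1, if_neg h2, if_neg h4, if_neg h3]
        ring
  · intro a b hab
    have h1 : ¬ (a = i ∧ b = j) := by
      rintro ⟨rfl, rfl⟩
      exact hab h
    have h2 : ¬ (a = j ∧ b = i) := by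
      rintro ⟨rfl, rfl⟩
      exact hab (hs _ _ h)
    simp only [h1, h2, if_false, sub_zero]
  · intro a
    rw [Finset.sum_sub_distrib]
    congr 1
    · by_cases ha : a = i
      · simp [ha]
      · simp [ha]
    · by_cases ha : a = j
      · simp [ha]
      · simp [ha]
  · apply le_of_eq
    beta_reduce
    rw [Finset.sum_eq_single i]
    · rw [Finset.sum_eq_single j]
      · have h1 : (i = i ∧ j = j) := ⟨rfl, rfl⟩
        have h2 : ¬ (i = j ∧ j = i) := fun hc => hij hc.1
        rw [if_pos h1, if_neg h2]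
        simp
      · intro b _ hb
        have h1 : ¬ (i = i ∧ b = j) := fun hc => hb hc.2
        have h2 : ¬ (i = j ∧ b = i) := fun hc => hij hc.1
        rw [if_neg h1, if_neg h2]
        simp
      · intro hj
        exact absurd (Finset.mem_univ j) hj
    · intro a _ ha
      apply Finset.sum_eq_zero
      intro b _
      have h1 : ¬ (a = i ∧ b = j) := fun hc => ha hc.1
      rw [if_neg h1]
      by_cases h2 : a = j ∧ b = i
      · rw [if_pos h2]
        simp
      · rw [if_neg h2]
        simp
    · intro hi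
      exact absurd (Finset.mem_univ i) hi

theorem flow_trans {adj : V → V → Prop} {w : V → V → ℝ} (hw : ∀ i j, 0 ≤ w i j) {u v k : V}
    {L L' : ℝ} (h1 : Flow adj w u v L) (h2 : Flow adj w v k L') : Flow adj w u k (L + L') := by
  obtain ⟨φ, a1, a2, a3, a4⟩ := h1
  obtain ⟨ψ, b1, b2, b3, b4⟩ := h2
  refine ⟨fun i j => φ i j + ψ i j, ?_, ?_, ?_, ?_⟩
  · intro i j
    simp only
    rw [a1 i j, b1 i j]
    ring
  · intro i j hij
    simp only
    rw [a2 i j hij, b2 i j hij, add_zero]
  · intro i
    rw [Finset.sum_add_distrib, a3 i, b3 i]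
    ring
  · refine le_trans ?_ (add_le_add a4 b4)
    rw [← Finset.sum_add_distrib]
    apply Finset.sum_le_sum
    intro i _
    rw [← Finset.sum_add_distrib]
    apply Finset.sum_le_sum
    intro j _
    rw [← mul_add]
    apply mul_le_mul_of_nonneg_left _ (hw i j)
    apply max_le
    · exact add_nonneg (le_max_left _ _) (le_max_left _ _)
    · exact add_le_add (le_max_right _ _) (le_max_right _ _)

theorem flow_of_walk {w : V → V → ℝ} (hw : ∀ i j, 0 ≤ w i j) {G : SimpleGraph V} {u v : V}
    (p : G.Walk u v) : Flow G.Adj w u v (wlen w p) := by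
  induction p with
  | nil => exact flow_refl _ _ _
  | cons h p ih =>
    exact flow_trans hw (flow_edge (fun _ _ hij => hij.symm) (fun i hi => G.irrefl hi) w h) ih

omit [Fintype V] [DecidableEq V] in
theorem wlen_nonneg {w : V → V → ℝ} (hw : ∀ i j, 0 ≤ w i j) {G : SimpleGraph V} {u v : V}
    (p : G.Walk u v) : 0 ≤ wlen w p := by
  induction p with
  | nil => exact le_refl _
  | cons h p ih => exact add_nonneg (hw _ _) ih

omit [Fintype V] [DecidableEq V] in
theorem wlen_append (w : V → V → ℝ) {G : SimpleGraph V} {u v k : V}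
    (p : G.Walk u v) (q : G.Walk v k) : wlen w (p.append q) = wlen w p + wlen w q := by
  induction p with
  | nil =>
    simp only [SimpleGraph.Walk.nil_append]
    simp [wlen]
  | cons h p ih =>
    simp only [SimpleGraph.Walk.cons_append, wlen]
    rw [ih, add_assoc]

omit [Fintype V] [DecidableEq V] in
theorem wlen_reverse {w : V → V → ℝ} (hs : ∀ i j, w i j = w j i) {G : SimpleGraph V} {u v : V}
    (p : G.Walk u v) : wlen w p.reverse = wlen w p := by
  induction p with
  | nil => simp [wlen]
  | cons h p ih =>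
    rw [SimpleGraph.Walk.reverse_cons, wlen_append, ih]
    simp only [wlen]
    rw [hs]
    ring

omit [Fintype V] [DecidableEq V] in
theorem wlen_mapLe (w : V → V → ℝ) {G G' : SimpleGraph V} (h : G ≤ G') {u v : V}
    (p : G.Walk u v) : wlen w (p.mapLe h) = wlen w p := by
  induction p with
  | nil => rfl
  | cons h' p ih =>
    have h1 : (SimpleGraph.Walk.cons h' p).mapLe h = SimpleGraph.Walk.cons (h h') (p.mapLe h) := rfl
    rw [h1]
    simp only [wlen]
    rw [ih]

omit [Fintype V] [DecidableEq V] in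
/-- A walk with at most `n` edges, all of weight at most `M`. -/
theorem wlen_le {w : V → V → ℝ} {G : SimpleGraph V} {u v : V} (p : G.Walk u v) (M : ℝ)
    (h : ∀ i j, s(i, j) ∈ p.edges → w i j ≤ M) : wlen w p ≤ p.length * M := by
  induction p with
  | nil => simp [wlen]
  | cons h' p ih =>
    simp only [wlen, SimpleGraph.Walk.length_cons]
    have h1 := h _ _ (by
      rw [SimpleGraph.Walk.edges_cons]
      exact List.mem_cons_self)
    have h2 := ih (fun i j hij => h i j (by
      rw [SimpleGraph.Walk.edges_cons]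
      exact List.mem_cons_of_mem _ hij))
    push_cast
    linarith

end Pool.Agent.Helper8.OT
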