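import Pool.Agent.Helper8.OT.Flow

/-!
PROJECT OT, module OT-Greedy (uses the `wlen` lemmas of `Flow.lean`, statements there).
Greedy spanner: a subgraph `G` of `G0` such that each edge of `G0` is replaced by a walk of `G` of
weighted length at most `t` times its weight, and all cycles of `G` have more than `t + 1` edges.
PLAN.  Strong induction on the number of edges of `G0` (`G0.edgeSet.ncard` or `edgeFinset.card` with
classical decidability).  No edges: `G = G0` (a cycle has an edge).  Otherwise let `e = s(x, y)` be
an edge of `G0` of maximal weight, `G0' = G0.deleteEdges {e}`, and let `G'` be the graph obtained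
for `G0'`.  If there is a walk of `G'` from `x` to `y` with `wlen ≤ t * w x y`, take `G = G'`
(for the edge `(y, x)` reverse the walk, `wlen_reverse`).  Otherwise `G = G' ⊔ edge x y`
(`SimpleGraph.edge` / `fromEdgeSet`).  Old edges: `mapLe`.  The edge `e` itself: the walk of length
one, `w ≤ t * w` as `1 ≤ t`, `0 ≤ w`.  Cycles `c` of `G`: if `e ∉ c.edges`, transfer `c` to `G'`
(`Walk.transfer`, `IsCycle.transfer`).  If `e ∈ c.edges`, then there is a walk `p` from `x` to
`y` (or back) in `G` with `p.length + 1 = c.length`, not using `e` (Mathlib: `IsCycle` minus an edge;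
rotate the cycle to start at `x`, `Walk.rotate`, then it is `cons` of the edge `x y` or its reverse
is; alternatively use `Walk.toDeleteEdges`, `isBridge`-type lemmas or `Walk.takeUntil` /
`dropUntil`); transfer it to `G'`; all its edges have weight at most `w x y` by maximality, so
`wlen ≤ p.length * w x y`; hence `p.length ≤ t` would give a walk with `wlen ≤ t * w x y`, a
contradiction; so `t < p.length`, that is `t + 1 < c.length`.
-/

namespace Pool.Agent.Helper8.OT

open Finset

variable {V : Type} [Fintype V] [DecidableEq V]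

omit [Fintype V] [DecidableEq V] in
/-- An edge of a walk splits the walk. -/
private theorem split_edge {G : SimpleGraph V} {u v : V} (c : G.Walk u v) {e : Sym2 V}
    (he : e ∈ c.edges) :
    ∃ (x y : V) (h : G.Adj x y) (A : G.Walk u x) (B : G.Walk y v),
      s(x, y) = e ∧ c = A.append (SimpleGraph.Walk.cons h B) := by
  induction c with
  | nil => simp at he
  | @cons a b c' h p ih =>
    rw [SimpleGraph.Walk.edges_cons, List.mem_cons] at he
    rcases he with he | he
    · exact ⟨a, b, h, SimpleGraph.Walk.nil, p, he.symm, by simp⟩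
    · obtain ⟨x, y, h', A, B, h1, h2⟩ := ih he
      exact ⟨x, y, h', SimpleGraph.Walk.cons h A, B, h1, by
        rw [SimpleGraph.Walk.cons_append, ← h2]⟩

private theorem greedy_aux (w : V → V → ℝ) (hw0 : ∀ i j, 0 ≤ w i j)
    (hws : ∀ i j, w i j = w j i) (t : ℕ) (ht : 1 ≤ t) (n : ℕ) :
    ∀ G0 : SimpleGraph V, G0.edgeSet.ncard = n →
    ∃ G : SimpleGraph V, G ≤ G0 ∧
      (∀ i j, G0.Adj i j → ∃ p : G.Walk i j, wlen w p ≤ t * w i j) ∧
      ∀ (v : V) (c : G.Walk v v), c.IsCycle → t + 1 < c.length := by
  classical
  induction n using Nat.strong_induction_on with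
  | _ n ih =>
  intro G0 hn
  by_cases hE : ∃ i j, G0.Adj i j
  · obtain ⟨i0, j0, hij0⟩ := hE
    obtain ⟨⟨x, y⟩, hxy, hmax⟩ := Finset.exists_max_image
      (Finset.univ.filter fun p : V × V => G0.Adj p.1 p.2) (fun p => w p.1 p.2)
      ⟨(i0, j0), by simpa using hij0⟩
    replace hxy : G0.Adj x y := by simpa using hxy
    replace hmax : ∀ i j, G0.Adj i j → w i j ≤ w x y := fun i j hij => hmax (i, j) (by simpa using hij)
    have hlt : (G0.deleteEdges {s(x, y)}).edgeSet.ncard < n := by
      rw [← hn, SimpleGraph.edgeSet_deleteEdges]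
      exact Set.ncard_lt_ncard (by
        refine ⟨Set.diff_subset, fun hc => ?_⟩
        have h1 : s(x, y) ∈ G0.edgeSet := hxy
        exact (hc h1).2 rfl) (Set.toFinite _)
    obtain ⟨G', hG', hwalk, hcyc⟩ := ih _ hlt (G0.deleteEdges {s(x, y)}) rfl
    have hle : G' ≤ G0 := hG'.trans (SimpleGraph.deleteEdges_le _)
    have hdel : ∀ i j, G0.Adj i j → s(i, j) ≠ s(x, y) → (G0.deleteEdges {s(x, y)}).Adj i j := by
      intro i j hij hne
      rw [SimpleGraph.deleteEdges_adj]
      exact ⟨hij, hne⟩
    by_cases hq : ∃ p : G'.Walk x y, wlen w p ≤ t * w x y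
    · refine ⟨G', hle, fun i j hij => ?_, hcyc⟩
      by_cases hs : s(i, j) = s(x, y)
      · obtain ⟨p, hp⟩ := hq
        rcases Sym2.eq_iff.mp hs with ⟨rfl, rfl⟩ | ⟨rfl, rfl⟩
        · exact ⟨p, hp⟩
        · exact ⟨p.reverse, by rw [wlen_reverse hws, hws i j]; exact hp⟩
      · exact hwalk i j (hdel i j hij hs)
    · have hedge : SimpleGraph.edge x y ≤ G0 := by
        intro a b hab
        rw [SimpleGraph.edge_adj] at hab
        rcases hab.1 with ⟨rfl, rfl⟩ | ⟨rfl, rfl⟩
        · exact hxy
        · exact hxy.symm
      have hmem : ∀ e, e ∈ (G' ⊔ SimpleGraph.edge x y).edgeSet → e ≠ s(x, y) → e ∈ G'.edgeSet := by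
        intro e
        induction e using Sym2.ind with
        | _ a b =>
          intro he hne
          have he' : (G' ⊔ SimpleGraph.edge x y).Adj a b := he
          rw [SimpleGraph.sup_adj, SimpleGraph.edge_adj] at he'
          rcases he' with h1 | h1
          · exact h1
          · exfalso
            apply hne
            rcases h1.1 with ⟨rfl, rfl⟩ | ⟨rfl, rfl⟩
            · rfl
            · exact Sym2.eq_swap
      refine ⟨G' ⊔ SimpleGraph.edge x y, sup_le hle hedge, fun i j hij => ?_, ?_⟩
      · by_cases hs : s(i, j) = s(x, y)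
        · have hadj : (G' ⊔ SimpleGraph.edge x y).Adj i j := by
            rw [SimpleGraph.sup_adj, SimpleGraph.edge_adj]
            right
            refine ⟨?_, hij.ne⟩
            rcases Sym2.eq_iff.mp hs with ⟨rfl, rfl⟩ | ⟨rfl, rfl⟩
            · exact Or.inl ⟨rfl, rfl⟩
            · exact Or.inr ⟨rfl, rfl⟩
          refine ⟨SimpleGraph.Walk.cons hadj SimpleGraph.Walk.nil, ?_⟩
          have h1 : (1 : ℝ) ≤ t := by exact_mod_cast ht
          simp only [wlen]
          nlinarith [hw0 i j]
        · obtain ⟨p, hp⟩ := hwalk i j (hdel i j hij hs)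
          exact ⟨p.mapLe le_sup_left, by rw [wlen_mapLe]; exact hp⟩
      · intro v c hc
        by_cases he : s(x, y) ∈ c.edges
        · obtain ⟨x', y', h, A, B, hs, hcAB⟩ := split_edge c he
          have hnd : c.edges.Nodup := hc.isCircuit.isTrail.edges_nodup
          rw [hcAB, SimpleGraph.Walk.edges_append, SimpleGraph.Walk.edges_cons, hs] at hnd
          have hA : s(x, y) ∉ A.edges := by
            intro hA
            exact (List.disjoint_of_nodup_append hnd) hA List.mem_cons_self
          have hB : s(x, y) ∉ B.edges := by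
            have h2 := (List.nodup_append.mp hnd).2.1
            exact (List.nodup_cons.mp h2).1
          have hlen : c.length = A.length + (B.length + 1) := by
            rw [hcAB, SimpleGraph.Walk.length_append, SimpleGraph.Walk.length_cons]
          by_contra hcon
          have hBA : ∀ e ∈ (B.append A).edges, e ∈ G'.edgeSet := by
            intro e hemem
            refine hmem e (SimpleGraph.Walk.edges_subset_edgeSet _ hemem) ?_
            rintro rfl
            rw [SimpleGraph.Walk.edges_append, List.mem_append] at hemem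
            rcases hemem with h1 | h1
            · exact hB h1
            · exact hA h1
          have hwl : wlen w ((B.append A).transfer G' hBA) ≤ t * w x y := by
            refine (wlen_le _ (w x y) ?_).trans ?_
            · intro i j hij
              have h1 : s(i, j) ∈ G'.edgeSet := SimpleGraph.Walk.edges_subset_edgeSet _ hij
              exact hmax i j (hle h1)
            · refine mul_le_mul_of_nonneg_right ?_ (hw0 x y)
              rw [SimpleGraph.Walk.length_transfer, SimpleGraph.Walk.length_append]
              exact_mod_cast (by omega : B.length + A.length ≤ t)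
          apply hq
          rcases Sym2.eq_iff.mp hs with ⟨rfl, rfl⟩ | ⟨rfl, rfl⟩
          · exact ⟨((B.append A).transfer G' hBA).reverse, by rw [wlen_reverse hws]; exact hwl⟩
          · exact ⟨(B.append A).transfer G' hBA, hwl⟩
        · have htr : ∀ e ∈ c.edges, e ∈ G'.edgeSet := by
            intro e hemem
            refine hmem e (SimpleGraph.Walk.edges_subset_edgeSet _ hemem) ?_
            rintro rfl
            exact he hemem
          have h1 := hcyc v (c.transfer G' htr) (hc.transfer htr)
          rwa [SimpleGraph.Walk.length_transfer] at h1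
  · refine ⟨G0, le_refl _, fun i j hij => absurd ⟨i, j, hij⟩ hE, fun v c hc => ?_⟩
    exfalso
    have h3 := hc.three_le_length
    cases c with
    | nil => simp at h3
    | cons h p => exact hE ⟨_, _, h⟩

theorem greedy (w : V → V → ℝ) (hw0 : ∀ i j, 0 ≤ w i j) (hws : ∀ i j, w i j = w j i)
    (G0 : SimpleGraph V) (t : ℕ) (ht : 1 ≤ t) :
    ∃ G : SimpleGraph V, G ≤ G0 ∧
      (∀ i j, G0.Adj i j → ∃ p : G.Walk i j, wlen w p ≤ t * w i j) ∧
      ∀ (v : V) (c : G.Walk v v), c.IsCycle → t + 1 < c.length := by
  exact greedy_aux w hw0 hws t ht _ G0 rfl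

end Pool.Agent.Helper8.OT
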