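import Pool.Agent.Helper8.OT.Defs

/-!
PROJECT OT, module OT-Grid (short, independent, real numbers).
The points `ρ k n = (1 + (α-1) n / N) * Λ α^k`, `n < N`, form a grid of step
`h k = (α-1) Λ α^k / N` in the interval `[Λ α^k, Λ α^(k+1))`.
PLAN.  For fixed `k` the `n < N` with `a ≤ ρ k n < b`: if there is one, let `n1 ≤ n2` be the smallest
and the largest; their number is at most `n2 - n1 + 1` and
`(n2 - n1) * h k = ρ k n2 - ρ k n1 ≤ ov k`, where
`ov k = (min b Λ_{k+1} - min b Λ_k) - (min a Λ_{k+1} - min a Λ_k)`, `Λ_k = Λ α^k`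
(check: `ρ k n1 ≥ max a Λ_k`, `ρ k n2 ≤ min b Λ_{k+1}`, and
`min (max x Λ_k) Λ_{k+1} - Λ_k = min x Λ_{k+1} - min x Λ_k`).  So
`Λ_k * count ≤ N/(α-1) * (ov k + h k) = N/(α-1) * ov k + Λ_k` (also if there is none: `ov k ≥ 0`).
Telescoping: `∑_{k<K} ov k = (min b Λ_K - min a Λ_K) - (min b Λ_0 - min a Λ_0) ≤ b - a`.
-/

namespace Pool.Agent.Helper8.OT

open Finset

private lemma clamp_mono (L M a b : ℝ) (hLM : L ≤ M) (hab : a ≤ b) :
    min a M - min a L ≤ min b M - min b L := by
  rcases le_total a M with h1 | h1 <;> rcases le_total a L with h2 | h2 <;>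
  rcases le_total b M with h3 | h3 <;> rcases le_total b L with h4 | h4 <;>
  simp only [min_eq_left, min_eq_right, h1, h2, h3, h4] <;> linarith

private lemma clamp_sub (L M a b x y : ℝ) (hLx : L ≤ x) (hax : a ≤ x) (hyM : y ≤ M)
    (hyb : y ≤ b) (hxy : x ≤ y) :
    y - x ≤ (min b M - min b L) - (min a M - min a L) := by
  have h1 : min b L = L := min_eq_right (by linarith)
  have h2 : min a M = a := min_eq_left (by linarith)
  have h3 : y ≤ min b M := le_min hyb hyM
  rw [h1, h2]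
  rcases le_total a L with h | h
  · rw [min_eq_left h]; linarith
  · rw [min_eq_right h]; linarith

private lemma one_level (α L a b : ℝ) (hα : 1 < α) (hL : 0 < L) (hab : a ≤ b) (N : ℕ)
    (hN : 0 < N) :
    L * (((range N).filter (fun n : ℕ =>
        a ≤ (1 + (α - 1) * (n : ℝ) / N) * L ∧
          (1 + (α - 1) * (n : ℝ) / N) * L < b)).card : ℝ) ≤
      N / (α - 1) * ((min b (α * L) - min b L) - (min a (α * L) - min a L)) + L := by
  have hNR : (0 : ℝ) < N := by exact_mod_cast hN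
  have hα1 : 0 < α - 1 := by linarith
  have hLM : L ≤ α * L := by nlinarith
  set S := (range N).filter (fun n : ℕ =>
        a ≤ (1 + (α - 1) * (n : ℝ) / N) * L ∧
          (1 + (α - 1) * (n : ℝ) / N) * L < b) with hS
  have hc : 0 ≤ (N : ℝ) / (α - 1) := by positivity
  rcases S.eq_empty_or_nonempty with h0 | h0
  · rw [h0]
    have := clamp_mono L (α * L) a b hLM hab
    have h2 : 0 ≤ (N : ℝ) / (α - 1) * ((min b (α * L) - min b L) - (min a (α * L) - min a L)) :=
      mul_nonneg hc (by linarith)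
    simp only [card_empty, Nat.cast_zero, mul_zero]
    linarith
  · have m1 := S.min'_mem h0
    have m2 := S.max'_mem h0
    set n1 := S.min' h0 with hn1
    set n2 := S.max' h0 with hn2
    have h12 : n1 ≤ n2 := S.min'_le _ m2
    have hsub : S ⊆ Icc n1 n2 := by
      intro n hn
      rw [mem_Icc]
      exact ⟨S.min'_le _ hn, S.le_max' _ hn⟩
    have hcard : S.card ≤ n2 - n1 + 1 := by
      have := card_le_card hsub
      rw [Nat.card_Icc] at this
      omega
    have hcardR : (S.card : ℝ) ≤ ((n2 : ℝ) - n1) + 1 := by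
      have h : (S.card : ℝ) ≤ ((n2 - n1 + 1 : ℕ) : ℝ) := by exact_mod_cast hcard
      rw [Nat.cast_add, Nat.cast_sub h12, Nat.cast_one] at h
      exact h
    rw [hS, mem_filter, mem_range] at m1 m2
    obtain ⟨m1N, m1a, m1b⟩ := m1
    obtain ⟨m2N, m2a, m2b⟩ := m2
    have hn1R : (0 : ℝ) ≤ n1 := Nat.cast_nonneg _
    have h12R : (n1 : ℝ) ≤ n2 := by exact_mod_cast h12
    have hn2R : (n2 : ℝ) ≤ N := by exact_mod_cast m2N.le
    have e1 : (0 : ℝ) ≤ (α - 1) * (n1 : ℝ) / N := by positivity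
    have e2 : (α - 1) * (n2 : ℝ) / N ≤ α - 1 := by
      rw [div_le_iff₀ hNR]
      exact mul_le_mul_of_nonneg_left hn2R hα1.le
    have hLx : L ≤ (1 + (α - 1) * (n1 : ℝ) / N) * L := by nlinarith
    have hyM : (1 + (α - 1) * (n2 : ℝ) / N) * L ≤ α * L := by nlinarith
    have hdiff : (1 + (α - 1) * (n2 : ℝ) / N) * L - (1 + (α - 1) * (n1 : ℝ) / N) * L =
        ((n2 : ℝ) - n1) * ((α - 1) / N) * L := by
      field_simp
      ring
    have hxy : (1 + (α - 1) * (n1 : ℝ) / N) * L ≤ (1 + (α - 1) * (n2 : ℝ) / N) * L := by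
      have : 0 ≤ ((n2 : ℝ) - n1) * ((α - 1) / N) * L :=
        mul_nonneg (mul_nonneg (by linarith) (by positivity)) hL.le
      linarith
    have hov := clamp_sub L (α * L) a b _ _ hLx m1a hyM m2b.le hxy
    rw [hdiff] at hov
    have h3 := mul_le_mul_of_nonneg_left hov hc
    have h4 : (N : ℝ) / (α - 1) * (((n2 : ℝ) - n1) * ((α - 1) / N) * L) =
        ((n2 : ℝ) - n1) * L := by
      field_simp
    rw [h4] at h3
    have h5 : L * (S.card : ℝ) ≤ L * (((n2 : ℝ) - n1) + 1) :=
      mul_le_mul_of_nonneg_left hcardR hL.le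
    calc L * (S.card : ℝ) ≤ L * (((n2 : ℝ) - n1) + 1) := h5
      _ = ((n2 : ℝ) - n1) * L + L := by ring
      _ ≤ _ := by linarith

theorem grid (α Λ a b : ℝ) (hα : 1 < α) (hΛ : 0 < Λ) (hab : a ≤ b) (K N : ℕ) (hN : 0 < N) :
    ∑ k ∈ range K, Λ * α ^ k * (((range N).filter (fun n : ℕ =>
        a ≤ (1 + (α - 1) * (n : ℝ) / N) * (Λ * α ^ k) ∧
          (1 + (α - 1) * (n : ℝ) / N) * (Λ * α ^ k) < b)).card : ℝ) ≤
      N * (b - a) / (α - 1) + ∑ k ∈ range K, Λ * α ^ k := by
  have hα1 : 0 < α - 1 := by linarith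
  have hc : 0 ≤ (N : ℝ) / (α - 1) := by positivity
  let f : ℕ → ℝ := fun k => min b (Λ * α ^ k) - min a (Λ * α ^ k)
  have step : ∀ k ∈ range K, Λ * α ^ k * (((range N).filter (fun n : ℕ =>
        a ≤ (1 + (α - 1) * (n : ℝ) / N) * (Λ * α ^ k) ∧
          (1 + (α - 1) * (n : ℝ) / N) * (Λ * α ^ k) < b)).card : ℝ) ≤
      N / (α - 1) * (f (k + 1) - f k) + Λ * α ^ k := by
    intro k _
    have hL : 0 < Λ * α ^ k := by positivity
    have h := one_level α (Λ * α ^ k) a b hα hL hab N hN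
    have e : α * (Λ * α ^ k) = Λ * α ^ (k + 1) := by ring
    rw [e] at h
    have e2 : f (k + 1) - f k = (min b (Λ * α ^ (k + 1)) - min b (Λ * α ^ k)) -
        (min a (Λ * α ^ (k + 1)) - min a (Λ * α ^ k)) := by
      simp only [f]; ring
    rw [e2]
    exact h
  refine (sum_le_sum step).trans ?_
  rw [sum_add_distrib, ← mul_sum, Finset.sum_range_sub f K]
  have hK : f K ≤ b - a := by
    simp only [f]
    rcases le_total b (Λ * α ^ K) with h | h
    · rw [min_eq_left h, min_eq_left (hab.trans h)]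
    · rw [min_eq_right h]
      rcases le_total a (Λ * α ^ K) with h' | h'
      · rw [min_eq_left h']; linarith
      · rw [min_eq_right h']; linarith
  have h0 : 0 ≤ f 0 := by
    simp only [f]
    have := min_le_min_right (Λ * α ^ 0) hab
    linarith
  have h1 : (N : ℝ) / (α - 1) * (f K - f 0) ≤ N / (α - 1) * (b - a) :=
    mul_le_mul_of_nonneg_left (by linarith) hc
  have h2 : (N : ℝ) * (b - a) / (α - 1) = N / (α - 1) * (b - a) := by ring
  rw [h2]
  linarith

end Pool.Agent.Helper8.OT
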