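import Pool.Agent.Helper8.OT.Flow

/-!
PROJECT OT, module OT-HeapOne (uses the `wlen` lemmas of `Flow.lean`, statements there).
The star from `c` to the vertices of `I` is replaced by a binary heap, sorted by the distance from `c`.
PLAN.  Let `k = I.card` and let `L : ℕ → V` satisfy `L 0 = c`, `L` maps `{1, …, k}` bijectively onto
`I`, and `d c (L j)` is monotone for `1 ≤ j ≤ k` (sort the list of `I` by `d c ·`, e.g. `Finset.sort` of a
suitable order, `List.mergeSort`/`insertionSort`, or `Tuple.sort`, or induction on `I.card` by removing a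
farthest element: then `L k` = farthest element).
`Hc.Adj x y` iff `x ≠ y` and for some `j` with `1 ≤ j ≤ k`, `{x, y} = {L j, L (j / 2)}` (as an
unordered pair).  `c` occurs only as `L 0` (its only neighbour is `L 1`, as `j / 2 = 0`, `j ≥ 1` iff
`j = 1`); `x = L j ∈ I`, `j ≥ 1`, has the neighbours `L (j/2), L (2j), L (2j+1)` at most.
Walk from `L j` to `c`: for `1 ≤ j ≤ j0 ≤ k` there is a walk with
`wlen ≤ 2 * (Nat.log 2 j + 1) * d c (L j0)`: strong induction on `j`, step `j → j / 2`; every edge has
length at most `d c (L j) + d c (L (j/2)) ≤ 2 * d c (L j0)` (`d c (L 0) = 0`).  Then `j0 = j`,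
`j ≤ k ≤ card V`.
-/

namespace Pool.Agent.Helper8.OT

open Finset

variable {V : Type} [Fintype V] [DecidableEq V]

omit [Fintype V] [DecidableEq V] in
private theorem exists_sorted (d : V → V → ℝ) (c : V) (I : Finset V) (hc : c ∉ I) :
    ∃ L : ℕ → V, L 0 = c ∧ (∀ j, 1 ≤ j → j ≤ I.card → L j ∈ I) ∧
      (∀ i j, i ≤ I.card → j ≤ I.card → L i = L j → i = j) ∧
      (∀ v ∈ I, ∃ j, 1 ≤ j ∧ j ≤ I.card ∧ L j = v) ∧
      (∀ i j, 1 ≤ i → i ≤ j → j ≤ I.card → d c (L i) ≤ d c (L j)) := by
  classical
  obtain ⟨l, hl, hs⟩ : ∃ l : List V, l.Perm I.toList ∧ l.Pairwise (fun a b => d c a ≤ d c b) := by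
    refine ⟨I.toList.mergeSort (fun a b => decide (d c a ≤ d c b)), List.mergeSort_perm _ _, ?_⟩
    have := List.pairwise_mergeSort (le := fun a b => decide (d c a ≤ d c b))
      (fun a b e h1 h2 => by
        simp only [decide_eq_true_eq] at h1 h2 ⊢
        exact h1.trans h2)
      (fun a b => by
        simp only [Bool.or_eq_true, decide_eq_true_eq]
        exact le_total _ _) I.toList
    exact this.imp (fun h => by simpa using h)
  have hlen : l.length = I.card := by rw [hl.length_eq, Finset.length_toList]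
  have hnd : l.Nodup := hl.nodup_iff.2 (Finset.nodup_toList I)
  have hmem : ∀ v, v ∈ l ↔ v ∈ I := fun v => by rw [hl.mem_iff, Finset.mem_toList]
  have hg : ∀ j (h1 : 1 ≤ j) (h2 : j ≤ I.card),
      (if j = 0 then c else l.getD (j - 1) c) = l[j - 1]'(by omega) := by
    intro j h1 h2
    rw [if_neg (by omega)]
    exact List.getD_eq_getElem _ _ _
  have hin : ∀ j, 1 ≤ j → j ≤ I.card → (if j = 0 then c else l.getD (j - 1) c) ∈ I := by
    intro j h1 h2
    rw [hg j h1 h2]
    exact (hmem _).1 (List.getElem_mem _)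
  refine ⟨fun j => if j = 0 then c else l.getD (j - 1) c, by simp, hin, ?_, ?_, ?_⟩
  · intro i j hi hj he
    simp only at he
    rcases Nat.eq_zero_or_pos i with h0 | h0
    · rcases Nat.eq_zero_or_pos j with h1 | h1
      · omega
      · exfalso
        apply hc
        have := hin j h1 hj
        rw [← he, if_pos h0] at this
        exact this
    · rcases Nat.eq_zero_or_pos j with h1 | h1
      · exfalso
        apply hc
        have := hin i h0 hi
        rw [he, if_pos h1] at this
        exact this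
      · rw [hg i h0 hi, hg j h1 hj] at he
        have := (List.Nodup.getElem_inj_iff hnd).1 he
        omega
  · intro v hv
    obtain ⟨n, hn, rfl⟩ := List.getElem_of_mem ((hmem v).2 hv)
    refine ⟨n + 1, by omega, by omega, ?_⟩
    simp only
    rw [hg (n + 1) (by omega) (by omega)]
    rfl
  · intro i j h1 hij hj
    simp only
    rw [hg i h1 (by omega), hg j (by omega) hj]
    rcases Nat.eq_or_lt_of_le hij with h | h
    · subst h
      exact le_refl _
    · exact List.pairwise_iff_getElem.1 hs _ _ _ _ (by omega)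

theorem heap_one {d : V → V → ℝ} (hd : IsMet d) (c : V) (I : Finset V) (hc : c ∉ I) :
    ∃ Hc : SimpleGraph V, (∀ x y, Hc.Adj x y → x ≠ c → x ∈ I) ∧
      (Hc.neighborSet c).ncard ≤ 1 ∧ (∀ x, (Hc.neighborSet x).ncard ≤ 3) ∧
      ∀ v ∈ I, ∃ p : Hc.Walk v c,
        wlen d p ≤ 2 * ((Nat.log 2 (Fintype.card V) : ℝ) + 1) * d c v := by
  classical
  obtain ⟨L, h0, hI, hinj, hsurj, hmono⟩ := exists_sorted d c I hc
  let Hc : SimpleGraph V :=
    { Adj := fun x y => x ≠ y ∧ ∃ j, 1 ≤ j ∧ j ≤ I.card ∧
        ((x = L j ∧ y = L (j / 2)) ∨ (y = L j ∧ x = L (j / 2)))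
      symm := ⟨fun x y hxy => by
        obtain ⟨hne, j, h1, h2, h⟩ := hxy
        exact ⟨hne.symm, j, h1, h2, h.symm⟩⟩
      loopless := ⟨fun x hx => hx.1 rfl⟩ }
  have hadj : ∀ x y, Hc.Adj x y ↔ (x ≠ y ∧ ∃ j, 1 ≤ j ∧ j ≤ I.card ∧
        ((x = L j ∧ y = L (j / 2)) ∨ (y = L j ∧ x = L (j / 2)))) := fun x y => Iff.rfl
  have hnb : ∀ i, i ≤ I.card → ∀ y, Hc.Adj (L i) y →
      (1 ≤ i ∧ y = L (i / 2)) ∨ (∃ j, 1 ≤ j ∧ j ≤ I.card ∧ j / 2 = i ∧ y = L j) := by
    intro i hi y hy
    obtain ⟨-, j, h1, h2, h | h⟩ := (hadj _ _).1 hy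
    · left
      have := hinj i j hi h2 h.1
      subst this
      exact ⟨h1, h.2⟩
    · right
      have := hinj i (j / 2) hi (by omega) h.2
      exact ⟨j, h1, h2, this.symm, h.1⟩
  have hdeg : ∀ i, i ≤ I.card → Hc.neighborSet (L i) ⊆ {L (i / 2), L (2 * i), L (2 * i + 1)} := by
    intro i hi y hy
    rcases hnb i hi y hy with h | ⟨j, h1, h2, h3, h4⟩
    · simp [h.2]
    · have : j = 2 * i ∨ j = 2 * i + 1 := by omega
      rcases this with h | h
      · subst h; simp [h4]
      · subst h; simp [h4]
  refine ⟨Hc, ?_, ?_, ?_, ?_⟩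
  · intro x y hxy hx
    obtain ⟨-, j, h1, h2, h | h⟩ := (hadj _ _).1 hxy
    · rw [h.1]
      exact hI j h1 h2
    · rw [h.2]
      rcases Nat.eq_zero_or_pos (j / 2) with h3 | h3
      · exfalso
        apply hx
        rw [h.2, h3, h0]
      · exact hI _ h3 (by omega)
  · have hsub : Hc.neighborSet c ⊆ {L 1} := by
      intro y hy
      have hy' : Hc.Adj (L 0) y := by rw [h0]; exact hy
      rcases hnb 0 (Nat.zero_le _) y hy' with h | ⟨j, h1, h2, h3, h4⟩
      · omega
      · have : j = 1 := by omega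
        subst this
        simp [h4]
    calc (Hc.neighborSet c).ncard ≤ ({L 1} : Set V).ncard :=
          Set.ncard_le_ncard hsub (Set.finite_singleton _)
      _ = 1 := Set.ncard_singleton _
  · intro x
    by_cases hx : ∃ i, i ≤ I.card ∧ L i = x
    · obtain ⟨i, hi, rfl⟩ := hx
      calc (Hc.neighborSet (L i)).ncard
          ≤ ({L (i / 2), L (2 * i), L (2 * i + 1)} : Set V).ncard :=
            Set.ncard_le_ncard (hdeg i hi) (Set.toFinite _)
        _ ≤ ({L (2 * i), L (2 * i + 1)} : Set V).ncard + 1 := Set.ncard_insert_le _ _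
        _ ≤ (({L (2 * i + 1)} : Set V).ncard + 1) + 1 := by
            have := Set.ncard_insert_le (L (2 * i)) ({L (2 * i + 1)} : Set V)
            omega
        _ = 3 := by rw [Set.ncard_singleton]
    · have : Hc.neighborSet x = ∅ := by
        rw [Set.eq_empty_iff_forall_notMem]
        intro y hy
        obtain ⟨-, j, h1, h2, h | h⟩ := (hadj _ _).1 hy
        · exact hx ⟨j, h2, h.1.symm⟩
        · exact hx ⟨j / 2, by omega, h.2.symm⟩
      rw [this, Set.ncard_empty]
      omega
  · have key : ∀ j, 1 ≤ j → j ≤ I.card → ∀ M : ℝ, d c (L j) ≤ M →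
        ∃ p : Hc.Walk (L j) c, wlen d p ≤ 2 * ((Nat.log 2 j : ℝ) + 1) * M := by
      intro j
      induction j using Nat.strong_induction_on with
      | _ j ih =>
        intro h1 h2 M hM
        have hM0 : 0 ≤ M := (hd.nonneg c (L j)).trans hM
        rcases Nat.lt_or_ge j 2 with h | h
        · have hj : j = 1 := by omega
          subst hj
          have hedge : Hc.Adj (L 1) c := by
            rw [hadj]
            refine ⟨fun he => hc ?_, 1, le_refl _, h2, Or.inl ⟨rfl, ?_⟩⟩
            · rw [← he]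
              exact hI 1 (le_refl _) h2
            · rw [show 1 / 2 = 0 from rfl, h0]
          refine ⟨SimpleGraph.Walk.cons hedge SimpleGraph.Walk.nil, ?_⟩
          have e : wlen d (SimpleGraph.Walk.cons hedge SimpleGraph.Walk.nil) = d (L 1) c + 0 := rfl
          rw [e, hd.symm (L 1) c]
          have : (Nat.log 2 1 : ℝ) = 0 := by simp
          rw [this]
          linarith
        · have hlt : j / 2 < j := by omega
          have hhalf : d c (L (j / 2)) ≤ d c (L j) :=
            hmono (j / 2) j (by omega) (by omega) h2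
          obtain ⟨p, hp⟩ := ih (j / 2) hlt (by omega) (by omega) M (hhalf.trans hM)
          have hedge : Hc.Adj (L j) (L (j / 2)) := by
            rw [hadj]
            refine ⟨fun he => ?_, j, h1, h2, Or.inl ⟨rfl, rfl⟩⟩
            have := hinj _ _ h2 (by omega) he
            omega
          refine ⟨SimpleGraph.Walk.cons hedge p, ?_⟩
          have e : wlen d (SimpleGraph.Walk.cons hedge p) = d (L j) (L (j / 2)) + wlen d p := rfl
          rw [e]
          have htri := hd.tri (L j) c (L (j / 2))
          have hsym := hd.symm (L j) c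
          have hlog : Nat.log 2 j = Nat.log 2 (j / 2) + 1 := by
            have := Nat.log_div_base 2 j
            have hpos : 1 ≤ Nat.log 2 j := Nat.log_pos (by norm_num) h
            omega
          rw [hlog]
          push_cast
          have e2 : 2 * ((Nat.log 2 (j / 2) : ℝ) + 1 + 1) * M =
              2 * ((Nat.log 2 (j / 2) : ℝ) + 1) * M + 2 * M := by ring
          rw [e2]
          linarith
    intro v hv
    obtain ⟨j, h1, h2, rfl⟩ := hsurj v hv
    obtain ⟨p, hp⟩ := key j h1 h2 _ (le_refl _)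
    refine ⟨p, hp.trans ?_⟩
    have hle : Nat.log 2 j ≤ Nat.log 2 (Fintype.card V) :=
      Nat.log_mono_right (h2.trans (Finset.card_le_univ I))
    have hle' : (Nat.log 2 j : ℝ) ≤ (Nat.log 2 (Fintype.card V) : ℝ) := by exact_mod_cast hle
    have := hd.nonneg c (L j)
    gcongr

end Pool.Agent.Helper8.OT
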