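import Pool.Agent.Helper8.OT.Ult

/-!
PROJECT OT, module OT-InvStep (uses the statements of `Ult.lean`).
The invariant of the water filling algorithm is preserved.

Notation for a cluster `v`: `F(v) = ∑_{i∈v} F i` etc., `out v = R(v) - F(v) + f v` (mass of requests of
`v` that is served outside `v`); new values with a prime.
For `u ∉ v`: `R'(v) = R(v)`, `F'(v) = F(v) + x(v)`, `f' v = f v + x(v)`, so `out' v = out v`.
For `u ∈ v`: `R'(v) = R(v) + 1`, `f' v = f v`, `out' v = out v + 1 - x(v)` and `x(v) ≤ 1`.
PLAN.
`F0, Fa, f0, top`: clear.  `out0`: clear.  `full`: if `out v > 0` before, then `F(v) = a(v)`, so `x = 0` on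
`v` (`0 ≤ x i ≤ a i - F i`) and it stays full; if `out v = 0` and `out' v > 0` then `u ∈ v`, so
`v = cl lev k u`, and `x(v) < 1`, so `Step.own` gives fullness.
`level` for `P`: let `L` be the old level and `lam` that of `Step.water`; new level `L + lam`.  For `v ∌ u`:
`f' v = f v + min lam (a(v) - F(v)) ≤ L + lam`; if `v` is not full after the step then
`x(v) < a(v) - F(v)`, so `x(v) = lam`, and `v` was not full before, so `f v = L`.  For `v ∋ u`: `f' v = f v ≤ L`,
and if it is not full after the step then `lam = 0` and it was not full before.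
`star` for `P`, `l > 0`: old level `L`, and `S' = ∑_{v child} max 0 (R'(v) - a(v)) + f' P ≥ S`.
If `l ≤ L`: the set `{v | l ≤ f' v}` is contained in (equal to) `{v | l ≤ f v}`: if `v` was not full
then `f v = L ≥ l`; if `v` was full then `x(v) = 0`, `f' v = f v`.  So the old inequality suffices.
If `L < l`: let `B = {v child | l ≤ f' v}`.  For `v ∈ B`: `f' v > L ≥ f v`, so `u ∉ v`, `x(v) > 0`, `v` was
not full, `out' v = out v = 0` (by `full`, `out0`).  So
`l * |B| ≤ ∑_{v∈B} f' v = ∑_{v∈B} (f' v - out' v)`
`= ∑_{v child} (f' v - out' v) + ∑_{v∉B} (out' v - f' v)`, and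
`∑_{v child} (f' v - out' v) = F'(P) - R'(P) = f' P - out' P ≤ f' P` (`sum_children`, new `out0` for
`P`), and for every child `out' v - f' v = R'(v) - F'(v) ≤ max 0 (R'(v) - a(v))`, because either
`out' v = 0`, so that `out' v - f' v ≤ 0`, or `v` is full after the step (new `full`) and
`F'(v) = a(v)`.
It is convenient to prove the new `out0` and `full` first and to use them in `star`.
-/

namespace Pool.Agent.Helper8.OT

open Finset

variable {V : Type} [Fintype V] [DecidableEq V]

theorem inv_zero (lev : V → V → ℕ) (a : V → ℝ) (ha : ∀ i, 0 ≤ a i) :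
    Inv lev a (fun _ => 0) (fun _ => 0) (fun _ => 0) := by
  refine ⟨fun i => le_refl _, ha, fun v => le_refl _, ?_, ?_, ?_, ?_, rfl⟩
  · intro k v _
    simp
  · intro k v _ h
    simp at h
  · intro k P _
    exact ⟨0, fun v _ => ⟨le_refl _, fun _ => rfl⟩⟩
  · intro k P _ l hl
    have h1 : (children lev k P).filter (fun _ => l ≤ (0 : ℝ)) = ∅ := by
      rw [Finset.filter_false_of_mem]
      intro v _
      exact not_le.2 hl
    rw [h1, Finset.card_empty, Nat.cast_zero, mul_zero, add_zero]
    exact Finset.sum_nonneg fun v _ => le_max_left _ _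

theorem inv_step {lev : V → V → ℕ} (hlev : IsUlt lev) {a F R : V → ℝ} {f : Finset V → ℝ}
    {u : V} {x : V → ℝ} (hI : Inv lev a F R f) (hS : Step lev a F u x) :
    Inv lev a (fun i => F i + x i) (fun i => R i + if i = u then 1 else 0)
      (fun v => if u ∈ v then f v else f v + ∑ i ∈ v, x i) := by
  have hx0 : ∀ v : Finset V, 0 ≤ ∑ i ∈ v, x i := fun v => Finset.sum_nonneg fun i _ => hS.x0 i
  have hx1 : ∀ v : Finset V, ∑ i ∈ v, x i ≤ 1 := by
    intro v
    rw [← hS.sum]
    exact Finset.sum_le_sum_of_subset_of_nonneg (Finset.subset_univ v) fun i _ _ => hS.x0 i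
  have hxa : ∀ v : Finset V, ∑ i ∈ v, F i + ∑ i ∈ v, x i ≤ ∑ i ∈ v, a i := by
    intro v
    rw [← Finset.sum_add_distrib]
    exact Finset.sum_le_sum fun i _ => hS.xa i
  have hR : ∀ v : Finset V, ∑ i ∈ v, (R i + if i = u then 1 else 0) =
      ∑ i ∈ v, R i + if u ∈ v then 1 else 0 := by
    intro v
    rw [Finset.sum_add_distrib, Finset.sum_ite_eq']
  have hF : ∀ v : Finset V, ∑ i ∈ v, (F i + x i) = ∑ i ∈ v, F i + ∑ i ∈ v, x i :=
    fun v => Finset.sum_add_distrib
  have hf0 : ∀ v : Finset V, 0 ≤ if u ∈ v then f v else f v + ∑ i ∈ v, x i := by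
    intro v
    split_ifs
    · exact hI.f0 v
    · exact add_nonneg (hI.f0 v) (hx0 v)
  have hout0 : ∀ k, ∀ v ∈ clusters lev k, 0 ≤ ∑ i ∈ v, (R i + if i = u then 1 else 0) -
      ∑ i ∈ v, (F i + x i) + if u ∈ v then f v else f v + ∑ i ∈ v, x i := by
    intro k v hv
    rw [hR, hF]
    have h1 := hI.out0 k v hv
    have h2 := hx1 v
    split_ifs <;> linarith
  have hfull : ∀ k, ∀ v ∈ clusters lev k, (0 < ∑ i ∈ v, (R i + if i = u then 1 else 0) -
      ∑ i ∈ v, (F i + x i) + if u ∈ v then f v else f v + ∑ i ∈ v, x i) →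
      ∑ i ∈ v, (F i + x i) = ∑ i ∈ v, a i := by
    intro k v hv h
    rw [hR] at h
    by_cases hu : u ∈ v
    · rw [if_pos hu, if_pos hu, hF] at h
      have hvu : v = cl lev k u := mem_clusters hlev hv hu
      by_cases hx : ∑ i ∈ v, x i < 1
      · rw [hvu] at hx ⊢
        exact hS.own k hx
      · have h1 := hI.full k v hv (by linarith)
        have h2 := hxa v
        have h3 := hx0 v
        rw [hF]
        linarith
    · rw [if_neg hu, if_neg hu, hF] at h
      have h1 := hI.full k v hv (by linarith)
      have h2 := hxa v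
      have h3 := hx0 v
      rw [hF]
      linarith
  refine ⟨fun i => add_nonneg (hI.F0 i) (hS.x0 i), hS.xa, hf0, hout0, hfull, ?_, ?_, ?_⟩
  · intro k P hP
    obtain ⟨L, hL⟩ := hI.level k P hP
    obtain ⟨lam, hlam, hw1, hw2⟩ := hS.water k P hP
    refine ⟨L + lam, fun v hv => ?_⟩
    obtain ⟨h1, h2⟩ := hL v hv
    have h3 := hx0 v
    by_cases hu : u ∈ v
    · simp only [if_pos hu]
      refine ⟨by linarith, fun h => ?_⟩
      rw [hw2 v hv hu h, add_zero]
      rw [hF] at h
      exact h2 (by linarith)
    · simp only [if_neg hu]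
      have h4 := hw1 v hv hu
      refine ⟨by rw [h4]; linarith [min_le_left lam (∑ i ∈ v, (a i - F i))], fun h => ?_⟩
      rw [hF] at h
      rw [Finset.sum_sub_distrib] at h4
      have h5 : ∑ i ∈ v, x i = lam := by
        rcases min_choice lam (∑ i ∈ v, a i - ∑ i ∈ v, F i) with h6 | h6
        · rw [h4, h6]
        · rw [h6] at h4
          linarith
      rw [h5, h2 (by linarith)]
  · intro k P hP l hl
    obtain ⟨L, hL⟩ := hI.level k P hP
    have hold := hI.star k P hP l hl
    by_cases hlL : l ≤ L
    · have hsub : (children lev k P).filter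
          (fun v => l ≤ if u ∈ v then f v else f v + ∑ i ∈ v, x i) ⊆
          (children lev k P).filter (fun v => l ≤ f v) := by
        intro v hv
        rw [Finset.mem_filter] at hv ⊢
        refine ⟨hv.1, ?_⟩
        have h1 := hv.2
        by_cases hu : u ∈ v
        · rwa [if_pos hu] at h1
        · rw [if_neg hu] at h1
          by_cases hfl : ∑ i ∈ v, F i < ∑ i ∈ v, a i
          · rw [(hL v hv.1).2 hfl]
            exact hlL
          · have h2 := hxa v
            have h3 := hx0 v
            linarith
      have hcard : (((children lev k P).filter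
          (fun v => l ≤ if u ∈ v then f v else f v + ∑ i ∈ v, x i)).card : ℝ) ≤
          ((children lev k P).filter (fun v => l ≤ f v)).card := by
        exact_mod_cast Finset.card_le_card hsub
      have h1 := mul_le_mul_of_nonneg_left hcard hl.le
      have h2 : ∑ v ∈ children lev k P, max 0 (∑ i ∈ v, R i - ∑ i ∈ v, a i) ≤
          ∑ v ∈ children lev k P,
            max 0 (∑ i ∈ v, (R i + if i = u then 1 else 0) - ∑ i ∈ v, a i) := by
        refine Finset.sum_le_sum fun v _ => max_le_max (le_refl _) ?_
        rw [hR]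
        split_ifs <;> linarith
      have h3 : f P ≤ if u ∈ P then f P else f P + ∑ i ∈ P, x i := by
        have := hx0 P
        split_ifs <;> linarith
      linarith
    · have hlL' : L < l := not_le.1 hlL
      obtain ⟨T, hT⟩ : ∃ T : Finset V → ℝ, T = fun v =>
          ∑ i ∈ v, (R i + if i = u then 1 else 0) - ∑ i ∈ v, (F i + x i) := ⟨_, rfl⟩
      obtain ⟨B, hB⟩ : ∃ B, B = (children lev k P).filter
          (fun v => l ≤ if u ∈ v then f v else f v + ∑ i ∈ v, x i) := ⟨_, rfl⟩
      have hBT : ∀ v ∈ B, l ≤ -T v := by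
        intro v hv
        rw [hB, Finset.mem_filter] at hv
        obtain ⟨hvc, hlv⟩ := hv
        have h1 := (hL v hvc).1
        by_cases hu : u ∈ v
        · rw [if_pos hu] at hlv
          linarith
        · rw [if_neg hu] at hlv
          have h2 : 0 < ∑ i ∈ v, x i := by linarith
          have h3 := hxa v
          have h4 : ¬ 0 < ∑ i ∈ v, R i - ∑ i ∈ v, F i + f v := by
            intro h
            have := hI.full k v (children_subset hvc) h
            linarith
          rw [hT]
          simp only
          rw [hR, hF, if_neg hu]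
          linarith
      have hsumB : l * (B.card : ℝ) ≤ ∑ v ∈ B, -T v := by
        have := Finset.card_nsmul_le_sum B (fun v => -T v) l hBT
        rw [nsmul_eq_mul] at this
        linarith
      have hsplit : ∑ v ∈ B, T v + ∑ v ∈ (children lev k P) \ B, T v =
          ∑ v ∈ children lev k P, T v := by
        rw [add_comm]
        exact Finset.sum_sdiff (hB ▸ Finset.filter_subset _ _)
      have hTP : ∑ v ∈ children lev k P, T v = ∑ i ∈ P, (R i + if i = u then 1 else 0) -
          ∑ i ∈ P, (F i + x i) := by
        rw [hT]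
        simp only
        rw [Finset.sum_sub_distrib, sum_children hlev hP, sum_children hlev hP]
      have hP0 := hout0 (k + 1) P hP
      have hrest : ∑ v ∈ (children lev k P) \ B, T v ≤ ∑ v ∈ children lev k P,
          max 0 (∑ i ∈ v, (R i + if i = u then 1 else 0) - ∑ i ∈ v, a i) := by
        refine le_trans (Finset.sum_le_sum (g := fun v =>
          max 0 (∑ i ∈ v, (R i + if i = u then 1 else 0) - ∑ i ∈ v, a i)) fun v hv => ?_)
          (Finset.sum_le_sum_of_subset_of_nonneg Finset.sdiff_subset
            fun v _ _ => le_max_left _ _)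
        have hvc := children_subset (Finset.mem_sdiff.1 hv).1
        by_cases h : 0 < ∑ i ∈ v, (R i + if i = u then 1 else 0) -
            ∑ i ∈ v, (F i + x i) + if u ∈ v then f v else f v + ∑ i ∈ v, x i
        · have h1 := hfull k v hvc h
          rw [hT]
          simp only
          rw [h1]
          exact le_max_right _ _
        · have h1 := hf0 v
          rw [hT]
          refine le_trans ?_ (le_max_left _ _)
          simp only
          linarith
      rw [← hB]
      rw [Finset.sum_neg_distrib] at hsumB
      linarith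
  · simp only [Finset.mem_univ, if_true]
    exact hI.top

end Pool.Agent.Helper8.OT
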