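import Pool.Agent.Helper8.OT.Defs

/-!
PROJECT OT, module OT-Round (the rounding lemma, independent of the other modules).

`pot_zero`: every summand is 0, because `θ i j ≥ g` on edges (`max 0 (0 - θ + g) = 0`).
`pot_add`: for antisymmetric `ψ` supported on the edges,
`pot (E + ψ) ≤ pot E + (1/g) * ∑ i j, d i j * max 0 (ψ i j)`: termwise
`max 0 (E + ψ - θ + g) ≤ max 0 (E - θ + g) + max 0 ψ`, `d i j ≥ 0`.

`walk_exists`.  Let `pot1 E` be the same sum without the factor `d i j` (nonnegative).  Induction
on `n : ℕ` for the statement for all `E, i` with `pot1 E < n`.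
If `E i j ≤ θ i j` for all neighbours `j` of `i`: take `E' = E`, `j = i` (`d i i = 0`).
Otherwise pick a neighbour `k` with `E i k > θ i k` and put
`E1 = E - [at (i,k)] 1 + [at (k,i)] 1`.  All terms except `(i,k)` and `(k,i)` are unchanged;
the term `(i,k)` falls by at least `1` (times `d i k`): before it is `(E - θ_ik + g)/g ≥ 1`
(`E > θ_ik`), after it is `max 0 (E - 1 - θ_ik + g) / g`, and the difference is
`min ((E - θ_ik + g)/g, 1/g) ≥ 1` because `g ≤ 1`;
the term `(k,i)`: before, `- E - θ_ki + g < - θ_ik - θ_ki + g = -1 < 0`, so 0; after,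
`1 - E - θ_ki + g < 1 - θ_ik - θ_ki + g = 0`, so 0.  Hence `pot1 E1 ≤ pot1 E - 1` and
`pot E1 ≤ pot E - d i k`.  Apply the induction hypothesis to `E1` and `k` and the triangle
inequality `d i j ≤ d i k + d k j`.

`round_step`: choose the flows `φ k` of `N.flow u k` and put `ψ = ∑ k, x k • φ k`; then
`∑ i j, d i j * max 0 (ψ i j) ≤ ∑ k, x k * (t * d u k)`, the row sums of `ψ` are
`[i = u] - x i` (uses `∑ x = 1`); apply `pot_add` and `walk_exists` to `E + ψ` and `u`; at the final
vertex `∑ l, E' j l ≤ ∑ l, θ j l < 2` (off the edges both are 0).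
-/

namespace Pool.Agent.Helper8.OT

open Finset

variable {V : Type} [Fintype V] [DecidableEq V]

/-- The potential with general weights. -/
private noncomputable def potw {d : V → V → ℝ} {t g : ℝ} (N : Net d t g) (w : V → V → ℝ)
    (E : V → V → ℝ) : ℝ :=
  open Classical in
  ∑ i, ∑ j, if N.adj i j then w i j * (max 0 (E i j - N.θ i j + g) / g) else 0

private theorem potw_eq {d : V → V → ℝ} {t g : ℝ} (N : Net d t g) (E : V → V → ℝ) :
    pot N E = potw N d E := rfl

private theorem potw_nonneg {d : V → V → ℝ} {t g : ℝ} (N : Net d t g) (w : V → V → ℝ)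
    (hw : ∀ i j, 0 ≤ w i j) (E : V → V → ℝ) : 0 ≤ potw N w E := by
  unfold potw
  refine Finset.sum_nonneg fun i _ => Finset.sum_nonneg fun j _ => ?_
  split_ifs
  · exact mul_nonneg (hw i j) (div_nonneg (le_max_left _ _) N.g_pos.le)
  · exact le_refl _

theorem pot_nonneg {d : V → V → ℝ} (hd : IsMet d) {t g : ℝ} (N : Net d t g) (E : V → V → ℝ) :
    0 ≤ pot N E := by
  rw [potw_eq]
  exact potw_nonneg N d (fun i j => hd.nonneg i j) E

theorem pot_zero {d : V → V → ℝ} {t g : ℝ} (N : Net d t g) : pot N (fun _ _ => 0) = 0 := by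
  unfold pot
  refine Finset.sum_eq_zero fun i _ => Finset.sum_eq_zero fun j _ => ?_
  split_ifs with h
  · have h1 := N.θ_ge i j h
    have h2 : max 0 ((0 : ℝ) - N.θ i j + g) = 0 := max_eq_left (by linarith)
    rw [h2]; simp
  · rfl

theorem pot_add {d : V → V → ℝ} (hd : IsMet d) {t g : ℝ} (N : Net d t g) (E ψ : V → V → ℝ) :
    pot N (fun i j => E i j + ψ i j) ≤ pot N E + (∑ i, ∑ j, d i j * max 0 (ψ i j)) / g := by
  unfold pot
  rw [Finset.sum_div, ← Finset.sum_add_distrib]
  refine Finset.sum_le_sum fun i _ => ?_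
  rw [Finset.sum_div, ← Finset.sum_add_distrib]
  refine Finset.sum_le_sum fun j _ => ?_
  have hg := N.g_pos
  have hdn := hd.nonneg i j
  split_ifs with h
  · have h1 : max 0 (E i j + ψ i j - N.θ i j + g) ≤
        max 0 (E i j - N.θ i j + g) + max 0 (ψ i j) := by
      refine max_le (add_nonneg (le_max_left _ _) (le_max_left _ _)) ?_
      have a1 := le_max_right 0 (E i j - N.θ i j + g)
      have a2 := le_max_right 0 (ψ i j)
      linarith
    have h2 : d i j * (max 0 (E i j - N.θ i j + g) / g) + d i j * max 0 (ψ i j) / g =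
        d i j * ((max 0 (E i j - N.θ i j + g) + max 0 (ψ i j)) / g) := by ring
    rw [h2]
    exact mul_le_mul_of_nonneg_left (div_le_div_of_nonneg_right h1 hg.le) hdn
  · have : 0 ≤ d i j * max 0 (ψ i j) / g :=
      div_nonneg (mul_nonneg hdn (le_max_left _ _)) hg.le
    linarith

/-- One step of the walk. -/
private def mv (E : V → V → ℝ) (i k : V) : V → V → ℝ := fun a b =>
  E a b - (if a = i ∧ b = k then 1 else 0) + (if a = k ∧ b = i then 1 else 0)

private theorem mv_good {d : V → V → ℝ} {t g : ℝ} (N : Net d t g) (E : V → V → ℝ)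
    (hE : Good N.adj E) (i k : V) (hik : N.adj i k) : Good N.adj (mv E i k) := by
  refine ⟨fun a b => ?_, fun a b h => ?_⟩
  · unfold mv
    have h1 := hE.1 a b
    rw [h1]
    have e1 : (a = i ∧ b = k) ↔ (b = k ∧ a = i) := and_comm
    have e2 : (a = k ∧ b = i) ↔ (b = i ∧ a = k) := and_comm
    simp only [e1, e2]
    ring
  · unfold mv
    have h1 := hE.2 a b h
    have h2 : ¬ (a = i ∧ b = k) := by
      rintro ⟨rfl, rfl⟩; exact h hik
    have h3 : ¬ (a = k ∧ b = i) := by
      rintro ⟨rfl, rfl⟩; exact h (N.symm _ _ hik)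
    rw [if_neg h2, if_neg h3, h1]; ring

private theorem mv_sum (E : V → V → ℝ) (i k a : V) :
    ∑ l, mv E i k a l = ∑ l, E a l - (if a = i then 1 else 0) + (if a = k then 1 else 0) := by
  unfold mv
  rw [Finset.sum_add_distrib, Finset.sum_sub_distrib]
  congr 1
  · congr 1
    by_cases h : a = i
    · simp [h]
    · simp [h]
  · by_cases h : a = k
    · simp [h]
    · simp [h]

private theorem mv_pot {d : V → V → ℝ} {t g : ℝ} (N : Net d t g) (w : V → V → ℝ)
    (hw : ∀ i j, 0 ≤ w i j) (E : V → V → ℝ) (hE : Good N.adj E) (i k : V) (hik : N.adj i k)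
    (hgt : N.θ i k < E i k) : w i k + potw N w (mv E i k) ≤ potw N w E := by
  classical
  have hg := N.g_pos
  have hg1 := N.g_le
  have hne : i ≠ k := by
    rintro rfl; exact N.irr i hik
  have key : ∀ a b, (if a = i ∧ b = k then w i k else 0) +
      (if N.adj a b then w a b * (max 0 (mv E i k a b - N.θ a b + g) / g) else 0) ≤
      (if N.adj a b then w a b * (max 0 (E a b - N.θ a b + g) / g) else 0) := by
    intro a b
    by_cases h1 : a = i ∧ b = k
    · obtain ⟨rfl, rfl⟩ := h1
      have h2 : ¬ (a = b ∧ b = a) := fun h => hne h.1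
      rw [if_pos ⟨rfl, rfl⟩, if_pos hik, if_pos hik]
      have e1 : mv E a b a b = E a b - 1 := by
        unfold mv; rw [if_pos ⟨rfl, rfl⟩, if_neg h2]; ring
      rw [e1]
      have e2 : max 0 (E a b - N.θ a b + g) = E a b - N.θ a b + g :=
        max_eq_right (by linarith)
      rw [e2]
      have e3 : max 0 (E a b - 1 - N.θ a b + g) ≤ E a b - N.θ a b + g - g := by
        refine max_le (by linarith) (by linarith)
      have e4 : 1 + max 0 (E a b - 1 - N.θ a b + g) / g ≤ (E a b - N.θ a b + g) / g := by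
        rw [show (1 : ℝ) + max 0 (E a b - 1 - N.θ a b + g) / g =
          (g + max 0 (E a b - 1 - N.θ a b + g)) / g by field_simp]
        exact div_le_div_of_nonneg_right (by linarith) hg.le
      have e5 := mul_le_mul_of_nonneg_left e4 (hw a b)
      linarith
    · rw [if_neg h1, zero_add]
      by_cases h2 : a = k ∧ b = i
      · obtain ⟨rfl, rfl⟩ := h2
        have hki := N.symm _ _ hik
        rw [if_pos hki, if_pos hki]
        have e1 : mv E b a a b = E a b + 1 := by
          unfold mv
          rw [if_neg h1, if_pos ⟨rfl, rfl⟩]; ring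
        have e2 := hE.1 a b
        have e3 := N.θ_add b a hik
        have e4 : max 0 (mv E b a a b - N.θ a b + g) = 0 := by
          apply max_eq_left
          rw [e1, e2]; linarith
        rw [e4]
        have : 0 ≤ w a b * (max 0 (E a b - N.θ a b + g) / g) :=
          mul_nonneg (hw a b) (div_nonneg (le_max_left _ _) hg.le)
        simpa using this
      · have e1 : mv E i k a b = E a b := by
          unfold mv; rw [if_neg h1, if_neg h2]; ring
        rw [e1]
  have hsum : ∑ a, ∑ b, (if a = i ∧ b = k then w i k else 0) = w i k := by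
    rw [Finset.sum_eq_single i]
    · rw [Finset.sum_eq_single k]
      · simp
      · intro b _ hb; simp [hb]
      · intro h; exact absurd (Finset.mem_univ _) h
    · intro a _ ha
      refine Finset.sum_eq_zero fun b _ => ?_
      simp [ha]
    · intro h; exact absurd (Finset.mem_univ _) h
  have h3 : ∑ a, ∑ b, ((if a = i ∧ b = k then w i k else 0) +
      (if N.adj a b then w a b * (max 0 (mv E i k a b - N.θ a b + g) / g) else 0)) ≤
      ∑ a, ∑ b, (if N.adj a b then w a b * (max 0 (E a b - N.θ a b + g) / g) else 0) :=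
    Finset.sum_le_sum fun a _ => Finset.sum_le_sum fun b _ => key a b
  simp only [Finset.sum_add_distrib] at h3
  rw [hsum] at h3
  unfold potw
  exact h3

private theorem walk_aux {d : V → V → ℝ} (hd : IsMet d) {t g : ℝ} (N : Net d t g) (n : ℕ) :
    ∀ (E : V → V → ℝ) (_ : Good N.adj E) (i : V), potw N (fun _ _ => 1) E < n →
    ∃ (E' : V → V → ℝ) (j : V), Good N.adj E' ∧
      (∀ k, ∑ l, E' k l = ∑ l, E k l - (if k = i then 1 else 0) + (if k = j then 1 else 0)) ∧
      (∀ l, N.adj j l → E' j l ≤ N.θ j l) ∧ d i j + pot N E' ≤ pot N E := by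
  induction n with
  | zero =>
    intro E hE i h
    have h0 : 0 ≤ potw N (fun _ _ => (1 : ℝ)) E :=
      potw_nonneg N (fun _ _ => 1) (fun _ _ => zero_le_one) E
    have h' : potw N (fun _ _ => (1 : ℝ)) E < 0 := by simpa using h
    linarith
  | succ n ih =>
    intro E hE i h
    by_cases hall : ∀ l, N.adj i l → E i l ≤ N.θ i l
    · refine ⟨E, i, hE, fun k => by ring, hall, ?_⟩
      rw [hd.self]; linarith
    · push Not at hall
      obtain ⟨k, hik, hgt⟩ := hall
      have h1 := mv_pot N (fun _ _ => 1) (fun _ _ => zero_le_one) E hE i k hik hgt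
      have h2 := mv_pot N d (fun i j => hd.nonneg i j) E hE i k hik hgt
      have h3 : potw N (fun _ _ => 1) (mv E i k) < n := by
        push_cast at h
        linarith
      obtain ⟨E', j, hg', hs, ht, hc⟩ := ih (mv E i k) (mv_good N E hE i k hik) k h3
      refine ⟨E', j, hg', fun a => ?_, ht, ?_⟩
      · rw [hs a, mv_sum]; ring
      · have h4 := hd.tri i k j
        rw [potw_eq N E]
        rw [potw_eq N (mv E i k)] at hc
        linarith

theorem walk_exists {d : V → V → ℝ} (hd : IsMet d) {t g : ℝ} (N : Net d t g) (E : V → V → ℝ)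
    (hE : Good N.adj E) (i : V) :
    ∃ (E' : V → V → ℝ) (j : V), Good N.adj E' ∧
      (∀ k, ∑ l, E' k l = ∑ l, E k l - (if k = i then 1 else 0) + (if k = j then 1 else 0)) ∧
      (∀ l, N.adj j l → E' j l ≤ N.θ j l) ∧ d i j + pot N E' ≤ pot N E := by
  obtain ⟨n, hn⟩ := exists_nat_gt (potw N (fun _ _ => 1) E)
  exact walk_aux hd N n E hE i hn

theorem round_step {d : V → V → ℝ} (hd : IsMet d) {t g : ℝ} (N : Net d t g) (E : V → V → ℝ)
    (hE : Good N.adj E) (u : V) (x : V → ℝ) (hx0 : ∀ k, 0 ≤ x k) (hx1 : ∑ k, x k = 1) :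
    ∃ (E' : V → V → ℝ) (j : V), Good N.adj E' ∧
      (∀ i, ∑ l, E' i l = ∑ l, E i l - x i + (if i = j then 1 else 0)) ∧ ∑ l, E' j l < 2 ∧
      d u j + pot N E' ≤ pot N E + t / g * ∑ k, x k * d u k := by
  have hg := N.g_pos
  choose φ hφ1 hφ2 hφ3 hφ4 using fun k => N.flow u k
  set ψ : V → V → ℝ := fun i j => ∑ k, x k * φ k i j with hψ
  have hgood : Good N.adj (fun i j => E i j + ψ i j) := by
    refine ⟨fun i j => ?_, fun i j h => ?_⟩
    · have h1 := hE.1 i j
      have h2 : ψ i j = - ψ j i := by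
        rw [hψ]
        simp only
        rw [← Finset.sum_neg_distrib]
        refine Finset.sum_congr rfl fun k _ => ?_
        rw [hφ1 k i j]; ring
      show E i j + ψ i j = -(E j i + ψ j i)
      rw [h2, h1]; ring
    · have h1 := hE.2 i j h
      have h2 : ψ i j = 0 := by
        rw [hψ]
        simp only
        refine Finset.sum_eq_zero fun k _ => ?_
        rw [hφ2 k i j h]; ring
      show E i j + ψ i j = 0
      rw [h1, h2]; ring
  have hrow : ∀ i, ∑ j, ψ i j = (if i = u then 1 else 0) - x i := by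
    intro i
    rw [hψ]
    simp only
    rw [Finset.sum_comm]
    have h1 : ∀ k, ∑ j, x k * φ k i j =
        x k * (if i = u then 1 else 0) - (if i = k then x k else 0) := by
      intro k
      rw [← Finset.mul_sum, hφ3 k i]
      by_cases h : i = k
      · simp only [h, if_true]; ring
      · simp only [h, if_false]; ring
    rw [Finset.sum_congr rfl fun k _ => h1 k, Finset.sum_sub_distrib, ← Finset.sum_mul, hx1]
    simp
  have hcost : ∑ i, ∑ j, d i j * max 0 (ψ i j) ≤ t * ∑ k, x k * d u k := by
    have h1 : ∀ i j, d i j * max 0 (ψ i j) ≤ ∑ k, x k * (d i j * max 0 (φ k i j)) := by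
      intro i j
      have h2 : max 0 (ψ i j) ≤ ∑ k, x k * max 0 (φ k i j) := by
        refine max_le (Finset.sum_nonneg fun k _ => mul_nonneg (hx0 k) (le_max_left _ _)) ?_
        rw [hψ]
        exact Finset.sum_le_sum fun k _ => mul_le_mul_of_nonneg_left (le_max_right _ _) (hx0 k)
      calc d i j * max 0 (ψ i j) ≤ d i j * ∑ k, x k * max 0 (φ k i j) :=
            mul_le_mul_of_nonneg_left h2 (hd.nonneg i j)
        _ = ∑ k, x k * (d i j * max 0 (φ k i j)) := by
            rw [Finset.mul_sum]
            exact Finset.sum_congr rfl fun k _ => by ring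
    calc ∑ i, ∑ j, d i j * max 0 (ψ i j)
        ≤ ∑ i, ∑ j, ∑ k, x k * (d i j * max 0 (φ k i j)) :=
          Finset.sum_le_sum fun i _ => Finset.sum_le_sum fun j _ => h1 i j
      _ = ∑ k, x k * ∑ i, ∑ j, d i j * max 0 (φ k i j) := by
          have e1 : ∀ i, ∑ j, ∑ k, x k * (d i j * max 0 (φ k i j)) =
              ∑ k, ∑ j, x k * (d i j * max 0 (φ k i j)) := fun i => Finset.sum_comm
          rw [Finset.sum_congr rfl fun i _ => e1 i, Finset.sum_comm]
          refine Finset.sum_congr rfl fun k _ => ?_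
          rw [Finset.mul_sum]
          refine Finset.sum_congr rfl fun i _ => ?_
          rw [Finset.mul_sum]
      _ ≤ ∑ k, x k * (t * d u k) :=
          Finset.sum_le_sum fun k _ => mul_le_mul_of_nonneg_left (hφ4 k) (hx0 k)
      _ = t * ∑ k, x k * d u k := by
          rw [Finset.mul_sum]
          exact Finset.sum_congr rfl fun k _ => by ring
  obtain ⟨E', j, hg', hs, ht, hc⟩ := walk_exists hd N _ hgood u
  refine ⟨E', j, hg', fun i => ?_, ?_, ?_⟩
  · rw [hs i, Finset.sum_add_distrib, hrow i]; ring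
  · refine lt_of_le_of_lt (Finset.sum_le_sum fun l _ => ?_) (N.θ_sum j)
    by_cases h : N.adj j l
    · exact ht l h
    · rw [hg'.2 j l h, N.θ_off j l h]
  · have h1 := pot_add hd N E ψ
    have h2 : (∑ i, ∑ j, d i j * max 0 (ψ i j)) / g ≤ t / g * ∑ k, x k * d u k := by
      calc (∑ i, ∑ j, d i j * max 0 (ψ i j)) / g ≤ (t * ∑ k, x k * d u k) / g :=
            div_le_div_of_nonneg_right hcost hg.le
        _ = t / g * ∑ k, x k * d u k := by ring
    linarith

end Pool.Agent.Helper8.OT
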