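import Pool.Agent.Helper8.OT.Round

/-!
The rounding algorithm as a function of the requests (project OT, problem MP_ed2ca9_lc).
-/

namespace Pool.Agent.Helper8.OT

open Finset

variable {V : Type} [Fintype V] [DecidableEq V]

/-- One step of the rounding algorithm. -/
noncomputable def rstep {d : V → V → ℝ} {t g : ℝ} (N : Net d t g) (E : V → V → ℝ) (u : V)
    (x : V → ℝ) : (V → V → ℝ) × V :=
  open Classical in
  if h : ∃ q : (V → V → ℝ) × V, Good N.adj q.1 ∧
      (∀ i, ∑ l, q.1 i l = ∑ l, E i l - x i + (if i = q.2 then 1 else 0)) ∧ ∑ l, q.1 q.2 l < 2 ∧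
      d u q.2 + pot N q.1 ≤ pot N E + t / g * ∑ k, x k * d u k then h.choose else (E, u)

theorem rstep_spec {d : V → V → ℝ} (hd : IsMet d) {t g : ℝ} (N : Net d t g) (E : V → V → ℝ)
    (hE : Good N.adj E) (u : V) (x : V → ℝ) (hx0 : ∀ k, 0 ≤ x k) (hx1 : ∑ k, x k = 1) :
    Good N.adj (rstep N E u x).1 ∧
      (∀ i, ∑ l, (rstep N E u x).1 i l =
        ∑ l, E i l - x i + (if i = (rstep N E u x).2 then 1 else 0)) ∧
      ∑ l, (rstep N E u x).1 (rstep N E u x).2 l < 2 ∧
      d u (rstep N E u x).2 + pot N (rstep N E u x).1 ≤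
        pot N E + t / g * ∑ k, x k * d u k := by
  have h : ∃ q : (V → V → ℝ) × V, Good N.adj q.1 ∧
      (∀ i, ∑ l, q.1 i l = ∑ l, E i l - x i + (if i = q.2 then 1 else 0)) ∧ ∑ l, q.1 q.2 l < 2 ∧
      d u q.2 + pot N q.1 ≤ pot N E + t / g * ∑ k, x k * d u k := by
    obtain ⟨E', j, h⟩ := round_step hd N E hE u x hx0 hx1
    exact ⟨(E', j), h⟩
  unfold rstep
  rw [dif_pos h]
  exact h.choose_spec

/-- The state before the request `n`. -/
noncomputable def run {d : V → V → ℝ} {t g : ℝ} (N : Net d t g) (X : List V → V → ℝ)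
    (u : ℕ → V) : ℕ → V → V → ℝ
  | 0 => fun _ _ => 0
  | n + 1 => (rstep N (run N X u n) (u n) (X (hist u n))).1

/-- The site used for the request `n`. -/
noncomputable def site {d : V → V → ℝ} {t g : ℝ} (N : Net d t g) (X : List V → V → ℝ)
    (u : ℕ → V) (n : ℕ) : V := (rstep N (run N X u n) (u n) (X (hist u n))).2

omit [Fintype V] [DecidableEq V] in
theorem hist_congr {u u' : ℕ → V} {n : ℕ} (h : ∀ k ≤ n, u k = u' k) : hist u n = hist u' n := by
  unfold hist
  apply List.map_congr_left
  intro k hk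
  exact h k (by have := List.mem_range.1 hk; omega)

theorem run_congr {d : V → V → ℝ} {t g : ℝ} (N : Net d t g) (X : List V → V → ℝ)
    {u u' : ℕ → V} {n : ℕ} (h : ∀ k < n, u k = u' k) : run N X u n = run N X u' n := by
  induction n with
  | zero => rfl
  | succ n ih =>
    simp only [run, ih fun k hk => h k (by omega), h n (by omega),
      hist_congr (n := n) (u := u) (u' := u') fun k hk => h k (by omega)]

theorem site_congr {d : V → V → ℝ} {t g : ℝ} (N : Net d t g) (X : List V → V → ℝ)
    {u u' : ℕ → V} {n : ℕ} (h : ∀ k ≤ n, u k = u' k) : site N X u n = site N X u' n := by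
  simp only [site, run_congr N X (n := n) (u := u) (u' := u') fun k hk => h k hk.le, h n le_rfl,
      hist_congr (n := n) (u := u) (u' := u') h]

variable {d : V → V → ℝ} {t g : ℝ} (N : Net d t g) (X : List V → V → ℝ)

theorem run_good (hd : IsMet d) (hX0 : ∀ l i, 0 ≤ X l i) (u : ℕ → V) (n : ℕ)
    (hX1 : ∀ t < n, ∑ i, X (hist u t) i = 1) (k : ℕ) (hk : k ≤ n) :
    Good N.adj (run N X u k) := by
  induction k with
  | zero => exact ⟨fun i j => by simp [run], fun i j _ => by simp [run]⟩
  | succ k ih => exact (rstep_spec hd N _ (ih (by omega)) _ _ (hX0 _) (hX1 k (by omega))).1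

theorem run_sum (hd : IsMet d) (hX0 : ∀ l i, 0 ≤ X l i) (u : ℕ → V) (n : ℕ)
    (hX1 : ∀ t < n, ∑ i, X (hist u t) i = 1) (k : ℕ) (hk : k ≤ n) (i : V) :
    ∑ l, run N X u k i l = (((range k).filter (fun j => site N X u j = i)).card : ℝ) -
      ∑ r ∈ range k, X (hist u r) i := by
  induction k with
  | zero => simp [run]
  | succ k ih =>
    have h := (rstep_spec hd N _ (run_good N X hd hX0 u n hX1 k (by omega)) (u k) (X (hist u k))
      (hX0 _) (hX1 k (by omega))).2.1 i
    have h1 : (run N X u (k + 1)) = (rstep N (run N X u k) (u k) (X (hist u k))).1 := rfl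
    have h2 : site N X u k = (rstep N (run N X u k) (u k) (X (hist u k))).2 := rfl
    rw [h1, h, ← h2, ih (by omega), Finset.sum_range_succ, Finset.range_add_one,
      Finset.filter_insert]
    by_cases hi : site N X u k = i
    · rw [if_pos hi, if_pos hi.symm, Finset.card_insert_of_notMem (by simp)]
      push_cast
      ring
    · rw [if_neg hi, if_neg (fun h => hi h.symm)]
      ring

theorem run_load (hd : IsMet d) (hX0 : ∀ l i, 0 ≤ X l i) (u : ℕ → V) (n : ℕ)
    (hX1 : ∀ t < n, ∑ i, X (hist u t) i = 1) (a : V → ℕ)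
    (ha : ∀ k ≤ n, ∀ i, ∑ t ∈ range k, X (hist u t) i ≤ a i) (k : ℕ) (hk : k ≤ n) (i : V) :
    ((range k).filter (fun j => site N X u j = i)).card ≤ a i + 1 := by
  induction k with
  | zero => simp
  | succ k ih =>
    by_cases hi : site N X u k = i
    · have h := (rstep_spec hd N _ (run_good N X hd hX0 u n hX1 k (by omega)) (u k)
        (X (hist u k)) (hX0 _) (hX1 k (by omega))).2.2.1
      have h1 : (run N X u (k + 1)) = (rstep N (run N X u k) (u k) (X (hist u k))).1 := rfl
      have h2 : site N X u k = (rstep N (run N X u k) (u k) (X (hist u k))).2 := rfl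
      rw [← h1, ← h2, hi] at h
      rw [run_sum N X hd hX0 u n hX1 (k + 1) hk] at h
      have h3 := ha (k + 1) hk i
      have h4 : ((((range (k + 1)).filter (fun j => site N X u j = i)).card : ℕ) : ℝ) <
        ((a i + 2 : ℕ) : ℝ) := by
        push_cast
        linarith
      have h5 := Nat.cast_lt.1 h4
      omega
    · rw [Finset.range_add_one, Finset.filter_insert, if_neg hi]
      exact ih (by omega)

theorem run_cost (hd : IsMet d) (hX0 : ∀ l i, 0 ≤ X l i) (u : ℕ → V) (n : ℕ)
    (hX1 : ∀ t < n, ∑ i, X (hist u t) i = 1) :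
    ∑ j ∈ range n, d (u j) (site N X u j) ≤
      t / g * ∑ j ∈ range n, ∑ k, X (hist u j) k * d (u j) k := by
  have key : ∀ k ≤ n, ∑ j ∈ range k, d (u j) (site N X u j) + pot N (run N X u k) ≤
      t / g * ∑ j ∈ range k, ∑ i, X (hist u j) i * d (u j) i := by
    intro k
    induction k with
    | zero =>
      intro _
      have h0 : run N X u 0 = fun _ _ => 0 := rfl
      rw [h0, pot_zero]
      simp
    | succ k ih =>
      intro hk
      have h := (rstep_spec hd N _ (run_good N X hd hX0 u n hX1 k (by omega)) (u k)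
        (X (hist u k)) (hX0 _) (hX1 k (by omega))).2.2.2
      have h1 : (run N X u (k + 1)) = (rstep N (run N X u k) (u k) (X (hist u k))).1 := rfl
      have h2 : site N X u k = (rstep N (run N X u k) (u k) (X (hist u k))).2 := rfl
      rw [← h1, ← h2] at h
      have h3 := ih (by omega)
      rw [Finset.sum_range_succ, Finset.sum_range_succ, mul_add]
      linarith
  have h := key n le_rfl
  have h1 := pot_nonneg hd N (run N X u n)
  linarith

end Pool.Agent.Helper8.OT
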