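import Pool.Agent.Helper8.OT.InvStep
import Pool.Agent.Helper8.OT.Cost

/-!
PROJECT OT, module OT-TreeCost (assembly; uses the statements of Ult, InvStep, Cost).
The cost of the water filling algorithm on an ultrametric.

PLAN.  For `t ≤ n` put `F t i = ∑_{r<t} x r i`, `R t i = #{r < t | u r = i}` (real),
`f t v = ∑_{r<t, u r ∉ v} ∑_{i∈v} x r i`.
Induction on `t`: `Inv lev a (F t) (R t) (f t)` (`inv_zero`, `inv_step`).
Cost, induction on `t`: `∑_{r<t} ∑ i, x r i * δ (lev (u r) i) ≤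
∑_{k<K} δ (k+1) * ∑_{v∈clusters k} (R t (v) - F t (v) + f t v)`: in a step the sum over
`v∈clusters k` grows by `1 - x(cl lev k u) = ∑_{i : k < lev u i} x i` (via `sum_clusters_sum`:
`∑_v out v = ∑ R - ∑ F + ∑_v f v`; `∑ R` and `∑ F` both grow by one; and the increment of
`∑_{v∈clusters k} f v` is `∑_{v∌u} x(v) = ∑_v x(v) - x(cl lev k u) = 1 - x(cl lev k u)`: the only cluster of
level `k` containing `u` is `cl lev k u`, `mem_clusters`), and
`δ (lev u i) ≤ ∑_{k < lev u i} δ (k+1)` (`δ 0 = 0`, otherwise it is one of the terms), `lev u i ≤ K`.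
Then `cost_bound` at time `n`, and for `v ∈ clusters k`:
`max 0 (R n (v) - a(v)) ≤ #{t<n | u t ∈ v, σ t ∉ v}` (`#{t<n | σ t ∈ v} ≤ a(v)`), the sum over `v` is
`#{t<n | k < lev (u t) (σ t)}`, and `∑_{k<K, k < lev} δ (k+1) ≤ ∑_{k<lev} δ (k+1) ≤ 2 * δ lev` because
`2 * δ k ≤ 2 * H * δ k ≤ δ (k+1)` for `k ≥ 1` (`H ≥ harmonic (card V) ≥ 1`).  Total factor
`2 * (1+H) * 2`.
-/

namespace Pool.Agent.Helper8.OT

open Finset

variable {V : Type} [Fintype V] [DecidableEq V]

private theorem sum_out {lev : V → V → ℕ} (hlev : IsUlt lev) (k : ℕ) (u : V) (g : V → ℝ) :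
    ∑ v ∈ clusters lev k, (if u ∈ v then 0 else ∑ i ∈ v, g i) =
      ∑ i, if k < lev u i then g i else 0 := by
  rw [← sum_clusters_sum hlev k (fun i => if k < lev u i then g i else 0)]
  refine sum_congr rfl ?_
  intro v hv
  by_cases hu : u ∈ v
  · rw [if_pos hu]
    refine (sum_eq_zero ?_).symm
    intro i hi
    have h1 := mem_clusters hlev hv hu
    rw [h1, mem_cl] at hi
    exact if_neg (by omega)
  · rw [if_neg hu]
    refine sum_congr rfl ?_
    intro i hi
    rw [if_pos]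
    by_contra h
    have h1 : lev u i ≤ k := by omega
    have h2 : i ∈ cl lev k u := mem_cl.mpr h1
    have h3 := clusters_eq hlev hv (cl_mem_clusters lev k u) hi h2
    apply hu
    rw [h3]
    exact self_mem_cl hlev k u

private theorem one_le_harmonic [Nonempty V] : (1 : ℝ) ≤ (harmonic (Fintype.card V) : ℝ) := by
  have h0 : 0 < Fintype.card V := Fintype.card_pos
  have h : (1 : ℚ) ≤ harmonic (Fintype.card V) := by
    unfold harmonic
    have h1 := single_le_sum (s := range (Fintype.card V))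
      (f := fun i : ℕ => (((i + 1 : ℕ) : ℚ))⁻¹) (fun i _ => by positivity)
      (mem_range.mpr h0)
    simpa using h1
  exact_mod_cast h

private theorem delta_le (δ : ℕ → ℝ) (hδz : δ 0 = 0) (hδ0 : ∀ k, 0 ≤ δ k) (K l : ℕ) (hl : l ≤ K) :
    δ l ≤ ∑ k ∈ range K, if k < l then δ (k + 1) else 0 := by
  have h0 : ∀ k ∈ range K, 0 ≤ (if k < l then δ (k + 1) else 0) := by
    intro k _
    split_ifs
    · exact hδ0 _
    · exact le_rfl
  rcases Nat.eq_zero_or_pos l with h | h
  · rw [h, hδz]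
    rw [h] at h0
    exact sum_nonneg h0
  · obtain ⟨m, rfl⟩ := Nat.exists_eq_succ_of_ne_zero h.ne'
    have h1 := single_le_sum h0 (mem_range.mpr (show m < K by omega))
    rw [if_pos (Nat.lt_succ_self m)] at h1
    exact h1

private theorem sum_delta_le (δ : ℕ → ℝ) (hδz : δ 0 = 0) (hδ0 : ∀ k, 0 ≤ δ k)
    (hδ : ∀ k, 1 ≤ k → 2 * δ k ≤ δ (k + 1)) (l : ℕ) :
    ∑ k ∈ range l, δ (k + 1) ≤ 2 * δ l := by
  induction l with
  | zero =>
    rw [sum_range_zero, hδz, mul_zero]
  | succ l ih =>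
    rw [sum_range_succ]
    have h : 2 * δ l ≤ δ (l + 1) := by
      rcases Nat.eq_zero_or_pos l with h | h
      · rw [h, hδz, mul_zero]
        exact hδ0 _
      · exact hδ l h
    linarith

private theorem sum_if_le (δ : ℕ → ℝ) (hδz : δ 0 = 0) (hδ0 : ∀ k, 0 ≤ δ k)
    (hδ : ∀ k, 1 ≤ k → 2 * δ k ≤ δ (k + 1)) (K l : ℕ) (hl : l ≤ K) :
    ∑ k ∈ range K, (if k < l then δ (k + 1) else 0) ≤ 2 * δ l := by
  have h : ∑ k ∈ range K, (if k < l then δ (k + 1) else 0) = ∑ k ∈ range l, δ (k + 1) := by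
    rw [← sum_filter]
    refine sum_congr ?_ (fun _ _ => rfl)
    ext k
    rw [mem_filter, mem_range, mem_range]
    omega
  rw [h]
  exact sum_delta_le δ hδz hδ0 hδ l

/-- The invariant holds at all times. -/
private theorem tree_inv {lev : V → V → ℕ} (hlev : IsUlt lev)
    (a : V → ℕ) (u : ℕ → V) (x : ℕ → V → ℝ) (n : ℕ)
    (hx : ∀ t < n, Step lev (fun i => (a i : ℝ)) (fun i => ∑ r ∈ range t, x r i) (u t) (x t))
    (t : ℕ) (ht : t ≤ n) :
    Inv lev (fun i => (a i : ℝ)) (fun i => ∑ r ∈ range t, x r i)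
      (fun i => ∑ r ∈ range t, if i = u r then (1 : ℝ) else 0)
      (fun v => ∑ r ∈ range t, if u r ∈ v then 0 else ∑ i ∈ v, x r i) := by
  induction t with
  | zero =>
    have h := inv_zero lev (fun i => (a i : ℝ)) (fun i => Nat.cast_nonneg (a i))
    simp only [range_zero, sum_empty]
    exact h
  | succ t ih =>
    have h := inv_step hlev (ih (by omega)) (hx t (by omega))
    have h1 : (fun i => ∑ r ∈ range (t + 1), x r i) =
        fun i => ∑ r ∈ range t, x r i + x t i := by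
      funext i
      rw [sum_range_succ]
    have h2 : (fun i => ∑ r ∈ range (t + 1), if i = u r then (1 : ℝ) else 0) =
        fun i => ∑ r ∈ range t, (if i = u r then (1 : ℝ) else 0) + if i = u t then 1 else 0 := by
      funext i
      rw [sum_range_succ]
    have h3 : (fun v : Finset V => ∑ r ∈ range (t + 1), if u r ∈ v then 0 else ∑ i ∈ v, x r i) =
        fun v => if u t ∈ v then ∑ r ∈ range t, (if u r ∈ v then 0 else ∑ i ∈ v, x r i)
          else ∑ r ∈ range t, (if u r ∈ v then 0 else ∑ i ∈ v, x r i) + ∑ i ∈ v, x t i := by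
      funext v
      rw [sum_range_succ]
      by_cases hv : u t ∈ v
      · rw [if_pos hv, if_pos hv, add_zero]
      · rw [if_neg hv, if_neg hv]
    rw [h1, h2, h3]
    exact h

private theorem sum_ind (s : Finset V) (w : V) :
    ∑ i ∈ s, (if i = w then (1 : ℝ) else 0) = if w ∈ s then 1 else 0 := by
  rw [sum_ite_eq' s w (fun _ => (1 : ℝ))]

/-- The potential at time `n`. -/
private theorem pot_eq {lev : V → V → ℕ} (hlev : IsUlt lev) (u : ℕ → V) (x : ℕ → V → ℝ) (n : ℕ)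
    (hx : ∀ t < n, ∑ i, x t i = 1) (k : ℕ) :
    ∑ v ∈ clusters lev k, (∑ i ∈ v, ∑ r ∈ range n, (if i = u r then (1 : ℝ) else 0) -
      ∑ i ∈ v, ∑ r ∈ range n, x r i +
      ∑ r ∈ range n, if u r ∈ v then 0 else ∑ i ∈ v, x r i) =
      ∑ t ∈ range n, ∑ i, if k < lev (u t) i then x t i else 0 := by
  rw [sum_add_distrib, sum_sub_distrib, sum_clusters_sum hlev k, sum_clusters_sum hlev k]
  have h1 : ∑ i, ∑ r ∈ range n, (if i = u r then (1 : ℝ) else 0) = ∑ r ∈ range n, 1 := by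
    rw [sum_comm]
    refine sum_congr rfl ?_
    intro r _
    rw [sum_ind, if_pos (mem_univ _)]
  have h2 : ∑ i, ∑ r ∈ range n, x r i = ∑ r ∈ range n, 1 := by
    rw [sum_comm]
    refine sum_congr rfl ?_
    intro r hr
    exact hx r (mem_range.mp hr)
  rw [h1, h2, sub_self, zero_add, sum_comm]
  refine sum_congr rfl ?_
  intro r _
  exact sum_out hlev k (u r) (x r)

/-- The excess of a cluster is paid by the offline assignment. -/
private theorem excess_le {lev : V → V → ℕ} (hlev : IsUlt lev) (a : V → ℕ) (u : ℕ → V) (n : ℕ)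
    (σ : ℕ → V) (hσ : ∀ i, ((range n).filter (fun t => σ t = i)).card ≤ a i) (k : ℕ) :
    ∑ v ∈ clusters lev k, max 0 (∑ i ∈ v, ∑ r ∈ range n, (if i = u r then (1 : ℝ) else 0) -
      ∑ i ∈ v, (a i : ℝ)) ≤ ∑ t ∈ range n, if k < lev (u t) (σ t) then 1 else 0 := by
  have h1 : ∀ v ∈ clusters lev k,
      max 0 (∑ i ∈ v, ∑ r ∈ range n, (if i = u r then (1 : ℝ) else 0) - ∑ i ∈ v, (a i : ℝ)) ≤
        ∑ r ∈ range n, if σ r ∈ v then 0 else ∑ i ∈ v, (if i = u r then (1 : ℝ) else 0) := by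
    intro v _
    have h0 : 0 ≤ ∑ r ∈ range n,
        if σ r ∈ v then 0 else ∑ i ∈ v, (if i = u r then (1 : ℝ) else 0) := by
      refine sum_nonneg ?_
      intro r _
      rw [sum_ind]
      split_ifs <;> norm_num
    refine max_le h0 ?_
    have h2 : ∑ r ∈ range n, (if σ r ∈ v then (1 : ℝ) else 0) ≤ ∑ i ∈ v, (a i : ℝ) := by
      have h3 : ∑ r ∈ range n, (if σ r ∈ v then (1 : ℝ) else 0) =
          ∑ i ∈ v, ∑ r ∈ range n, (if σ r = i then (1 : ℝ) else 0) := by
        rw [sum_comm]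
        refine sum_congr rfl ?_
        intro r _
        rw [sum_ite_eq v (σ r) (fun _ => (1 : ℝ))]
      rw [h3]
      refine sum_le_sum ?_
      intro i _
      rw [sum_boole]
      exact_mod_cast hσ i
    rw [sum_comm]
    have h4 : ∑ r ∈ range n, ∑ i ∈ v, (if i = u r then (1 : ℝ) else 0) ≤
        ∑ r ∈ range n, (if σ r ∈ v then (1 : ℝ) else 0) +
        ∑ r ∈ range n, (if σ r ∈ v then 0 else ∑ i ∈ v, (if i = u r then (1 : ℝ) else 0)) := by
      rw [← sum_add_distrib]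
      refine sum_le_sum ?_
      intro r _
      rw [sum_ind]
      split_ifs <;> norm_num
    linarith
  refine (sum_le_sum h1).trans (le_of_eq ?_)
  rw [sum_comm]
  refine sum_congr rfl ?_
  intro r _
  rw [sum_out hlev k (σ r) (fun i => if i = u r then (1 : ℝ) else 0)]
  rw [sum_eq_single (u r)]
  · rw [if_pos rfl, hlev.symm]
  · intro i _ hi
    rw [if_neg hi, ite_self]
  · intro h
    exact absurd (mem_univ _) h

theorem tree_cost [Nonempty V] {lev : V → V → ℕ} (hlev : IsUlt lev) (K : ℕ)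
    (hK : ∀ i j, lev i j ≤ K) (δ : ℕ → ℝ) (hδz : δ 0 = 0) (hδ0 : ∀ k, 0 ≤ δ k) (H : ℝ)
    (hH : (harmonic (Fintype.card V) : ℝ) ≤ H) (hδ : ∀ k, 1 ≤ k → 2 * H * δ k ≤ δ (k + 1))
    (a : V → ℕ) (u : ℕ → V) (x : ℕ → V → ℝ) (n : ℕ)
    (hx : ∀ t < n, Step lev (fun i => (a i : ℝ)) (fun i => ∑ r ∈ range t, x r i) (u t) (x t))
    (σ : ℕ → V) (hσ : ∀ i, ((range n).filter (fun t => σ t = i)).card ≤ a i) :
    ∑ t ∈ range n, ∑ i, x t i * δ (lev (u t) i) ≤
      4 * (1 + H) * ∑ t ∈ range n, δ (lev (u t) (σ t)) := by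
  have hH1 : 1 ≤ H := (one_le_harmonic (V := V)).trans hH
  have hδ2 : ∀ k, 1 ≤ k → 2 * δ k ≤ δ (k + 1) := by
    intro k hk
    refine le_trans ?_ (hδ k hk)
    have h := mul_le_mul_of_nonneg_right hH1 (hδ0 k)
    linarith
  have hI := tree_inv hlev a u x n hx n le_rfl
  have hC := cost_bound hlev K hK δ hδ0 H hH hδ hI
  -- the left-hand side
  have hL : ∑ t ∈ range n, ∑ i, x t i * δ (lev (u t) i) ≤
      ∑ k ∈ range K, δ (k + 1) * ∑ t ∈ range n, ∑ i, if k < lev (u t) i then x t i else 0 := by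
    have h1 : ∑ k ∈ range K, δ (k + 1) * ∑ t ∈ range n, ∑ i, (if k < lev (u t) i then x t i else 0) =
        ∑ t ∈ range n, ∑ i, x t i * ∑ k ∈ range K, if k < lev (u t) i then δ (k + 1) else 0 := by
      simp only [mul_sum]
      rw [sum_comm]
      refine sum_congr rfl ?_
      intro t _
      rw [sum_comm]
      refine sum_congr rfl ?_
      intro i _
      refine sum_congr rfl ?_
      intro k _
      split_ifs
      · ring
      · rw [mul_zero, mul_zero]
    rw [h1]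
    refine sum_le_sum ?_
    intro t ht
    refine sum_le_sum ?_
    intro i _
    exact mul_le_mul_of_nonneg_left (delta_le δ hδz hδ0 K _ (hK _ _))
      ((hx t (mem_range.mp ht)).x0 i)
  have hP : ∑ k ∈ range K, δ (k + 1) * ∑ t ∈ range n, ∑ i, (if k < lev (u t) i then x t i else 0) =
      ∑ k ∈ range K, δ (k + 1) * ∑ v ∈ clusters lev k,
        (∑ i ∈ v, ∑ r ∈ range n, (if i = u r then (1 : ℝ) else 0) -
        ∑ i ∈ v, ∑ r ∈ range n, x r i +
        ∑ r ∈ range n, if u r ∈ v then 0 else ∑ i ∈ v, x r i) := by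
    refine sum_congr rfl ?_
    intro k _
    rw [pot_eq hlev u x n (fun t ht => (hx t ht).sum) k]
  -- the right-hand side
  have hR : ∑ k ∈ range K, δ (k + 1) * ∑ v ∈ clusters lev k,
      max 0 (∑ i ∈ v, ∑ r ∈ range n, (if i = u r then (1 : ℝ) else 0) - ∑ i ∈ v, (a i : ℝ)) ≤
      2 * ∑ t ∈ range n, δ (lev (u t) (σ t)) := by
    have h1 : ∑ k ∈ range K, δ (k + 1) * ∑ v ∈ clusters lev k,
        max 0 (∑ i ∈ v, ∑ r ∈ range n, (if i = u r then (1 : ℝ) else 0) - ∑ i ∈ v, (a i : ℝ)) ≤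
        ∑ k ∈ range K, δ (k + 1) * ∑ t ∈ range n, if k < lev (u t) (σ t) then 1 else 0 := by
      refine sum_le_sum ?_
      intro k _
      exact mul_le_mul_of_nonneg_left (excess_le hlev a u n σ hσ k) (hδ0 _)
    refine h1.trans ?_
    have h2 : ∑ k ∈ range K, δ (k + 1) * ∑ t ∈ range n, (if k < lev (u t) (σ t) then (1 : ℝ) else 0) =
        ∑ t ∈ range n, ∑ k ∈ range K, if k < lev (u t) (σ t) then δ (k + 1) else 0 := by
      simp only [mul_sum]
      rw [sum_comm]
      refine sum_congr rfl ?_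
      intro t _
      refine sum_congr rfl ?_
      intro k _
      split_ifs
      · rw [mul_one]
      · rw [mul_zero]
    rw [h2, mul_sum]
    refine sum_le_sum ?_
    intro t _
    exact sum_if_le δ hδz hδ0 hδ2 K _ (hK _ _)
  calc ∑ t ∈ range n, ∑ i, x t i * δ (lev (u t) i) ≤ _ := hL
    _ = _ := hP
    _ ≤ _ := hC
    _ ≤ 2 * (1 + H) * (2 * ∑ t ∈ range n, δ (lev (u t) (σ t))) :=
        mul_le_mul_of_nonneg_left hR (by linarith)
    _ = 4 * (1 + H) * ∑ t ∈ range n, δ (lev (u t) (σ t)) := by ring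

end Pool.Agent.Helper8.OT
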