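import Pool.Agent.Helper8.OT.Water
import Pool.Agent.Helper8.OT.TreeCost

/-!
PROJECT OT, module OT-TreeAlg (short assembly; uses the statements of Water, TreeCost).
The fractional algorithm on an ultrametric, as a function of the list of the requests so far.

PLAN.  For `F : V → ℝ` and a request `u` let `next F u : V → ℝ` be an `x` with `Step lev a F u x` if there
is one (choice) and `0` otherwise (so always `0 ≤ next F u i`).
`Fl : List V → V → ℝ`, `Fl l = l.foldl (fun F u i => F i + next F u i) 0`.
`X l = next (Fl l.dropLast) (l.getLast)` for `l ≠ []`, and `0` for `l = []`.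
For `u : ℕ → V`: `hist u t = (List.range t).map u ++ [u t]` (`List.range_succ`), so with
`F t = Fl ((List.range t).map u)`: `X (hist u t) = next (F t) (u t)`, `F (t+1) i = F t i + X (hist u t) i`,
hence `F t i = ∑_{r<t} X (hist u r) i`.
Induction on `t ≤ n` (`n ≤ ∑ a`): `F t ≤ a` and `∑ i, F t i = t`, so for `t < n`:
`1 ≤ ∑ (a i - F t i) = ∑ a - t`, and `exists_step` gives `Step lev a (F t) (u t) (X (hist u t))`.
The cost bound is `tree_cost`.
-/

namespace Pool.Agent.Helper8.OT

open Finset

variable {V : Type} [Fintype V] [DecidableEq V]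

/-- The next fractional assignment. -/
private noncomputable def nxt (lev : V → V → ℕ) (a F : V → ℝ) (u : V) : V → ℝ :=
  open Classical in if h : ∃ x, Step lev a F u x then h.choose else fun _ => 0

private theorem nxt_nonneg (lev : V → V → ℕ) (a F : V → ℝ) (u i : V) :
    0 ≤ nxt lev a F u i := by
  unfold nxt
  split_ifs with h
  · exact h.choose_spec.x0 i
  · exact le_refl _

private theorem nxt_spec {lev : V → V → ℕ} {a F : V → ℝ} {u : V} (h : ∃ x, Step lev a F u x) :
    Step lev a F u (nxt lev a F u) := by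
  unfold nxt
  rw [dif_pos h]
  exact h.choose_spec

/-- The loads after a list of requests. -/
private noncomputable def Fl (lev : V → V → ℕ) (a : V → ℝ) (l : List V) : V → ℝ :=
  l.foldl (fun F u i => F i + nxt lev a F u i) (fun _ => 0)

private theorem Fl_concat (lev : V → V → ℕ) (a : V → ℝ) (l : List V) (v : V) :
    Fl lev a (l ++ [v]) = fun i => Fl lev a l i + nxt lev a (Fl lev a l) v i := by
  unfold Fl
  rw [List.foldl_append]
  rfl

/-- The algorithm. -/
private noncomputable def Xf (lev : V → V → ℕ) (a : V → ℝ) (l : List V) : V → ℝ :=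
  match l.getLast? with
  | none => fun _ => 0
  | some v => nxt lev a (Fl lev a l.dropLast) v

private theorem Xf_nonneg (lev : V → V → ℕ) (a : V → ℝ) (l : List V) (i : V) :
    0 ≤ Xf lev a l i := by
  unfold Xf
  cases h : l.getLast? with
  | none => exact le_refl _
  | some v => exact nxt_nonneg _ _ _ _ _

private theorem hist_eq (u : ℕ → V) (t : ℕ) : hist u t = (List.range t).map u ++ [u t] := by
  unfold hist
  rw [List.range_succ, List.map_append]
  rfl

private theorem Xf_hist (lev : V → V → ℕ) (a : V → ℝ) (u : ℕ → V) (t : ℕ) :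
    Xf lev a (hist u t) = nxt lev a (Fl lev a ((List.range t).map u)) (u t) := by
  rw [hist_eq]
  unfold Xf
  rw [List.getLast?_concat, List.dropLast_concat]

private theorem Fl_range (lev : V → V → ℕ) (a : V → ℝ) (u : ℕ → V) (t : ℕ) (i : V) :
    Fl lev a ((List.range t).map u) i = ∑ r ∈ range t, Xf lev a (hist u r) i := by
  induction t with
  | zero => simp [Fl]
  | succ t ih =>
    have h1 : (List.range (t + 1)).map u = (List.range t).map u ++ [u t] := by
      rw [List.range_succ, List.map_append]; rfl
    rw [h1, Fl_concat, Finset.sum_range_succ, ← ih, Xf_hist]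

theorem tree_alg [Nonempty V] {lev : V → V → ℕ} (hlev : IsUlt lev) (K : ℕ)
    (hK : ∀ i j, lev i j ≤ K) (δ : ℕ → ℝ) (hδz : δ 0 = 0) (hδ0 : ∀ k, 0 ≤ δ k) (H : ℝ)
    (hH : (harmonic (Fintype.card V) : ℝ) ≤ H) (hδ : ∀ k, 1 ≤ k → 2 * H * δ k ≤ δ (k + 1))
    (a : V → ℕ) :
    ∃ X : List V → V → ℝ, (∀ l i, 0 ≤ X l i) ∧
      ∀ (u : ℕ → V) (n : ℕ), n ≤ ∑ i, a i →
        (∀ t < n, ∑ i, X (hist u t) i = 1) ∧
        (∀ i, ∑ t ∈ range n, X (hist u t) i ≤ a i) ∧
        ∀ σ : ℕ → V, (∀ i, ((range n).filter (fun t => σ t = i)).card ≤ a i) →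
          ∑ t ∈ range n, ∑ i, X (hist u t) i * δ (lev (u t) i) ≤
            4 * (1 + H) * ∑ t ∈ range n, δ (lev (u t) (σ t)) := by
  set A : V → ℝ := fun i => (a i : ℝ) with hA
  refine ⟨Xf lev A, ?_, ?_⟩
  · intro l i
    exact Xf_nonneg lev A l i
  intro u n hn
  have hn' : (n : ℝ) ≤ ∑ i, A i := by
    have : ((∑ i, a i : ℕ) : ℝ) = ∑ i, A i := by rw [Nat.cast_sum]
    rw [← this]
    exact_mod_cast hn
  have key : ∀ t, t ≤ n → (∀ i, ∑ r ∈ range t, Xf lev A (hist u r) i ≤ A i) ∧
      (∑ i, ∑ r ∈ range t, Xf lev A (hist u r) i = t) ∧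
      ∀ s < t, Step lev A (fun i => ∑ r ∈ range s, Xf lev A (hist u r) i) (u s)
        (Xf lev A (hist u s)) := by
    intro t
    induction t with
    | zero =>
      intro _
      refine ⟨?_, ?_, ?_⟩
      · intro i
        simp [hA]
      · simp
      · intro s hs
        exact absurd hs (Nat.not_lt_zero _)
    | succ t ih =>
      intro ht
      obtain ⟨h1, h2, h3⟩ := ih (Nat.le_of_succ_le ht)
      have hroom : 1 ≤ ∑ i, (A i - ∑ r ∈ range t, Xf lev A (hist u r) i) := by
        rw [Finset.sum_sub_distrib, h2]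
        have : ((t + 1 : ℕ) : ℝ) ≤ n := by exact_mod_cast ht
        push_cast at this
        linarith
      have hex := exists_step hlev A (fun i => ∑ r ∈ range t, Xf lev A (hist u r) i) h1 hroom (u t)
      have hF : Fl lev A ((List.range t).map u) =
          fun i => ∑ r ∈ range t, Xf lev A (hist u r) i := by
        funext i
        exact Fl_range lev A u t i
      have hst : Step lev A (fun i => ∑ r ∈ range t, Xf lev A (hist u r) i) (u t)
          (Xf lev A (hist u t)) := by
        rw [Xf_hist, hF]
        exact nxt_spec hex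
      refine ⟨?_, ?_, ?_⟩
      · intro i
        rw [Finset.sum_range_succ]
        exact hst.xa i
      · have : ∑ i, ∑ r ∈ range (t + 1), Xf lev A (hist u r) i =
            ∑ i, ∑ r ∈ range t, Xf lev A (hist u r) i + ∑ i, Xf lev A (hist u t) i := by
          rw [← Finset.sum_add_distrib]
          refine Finset.sum_congr rfl fun i _ => ?_
          rw [Finset.sum_range_succ]
        rw [this, h2, hst.sum]
        push_cast
        ring
      · intro s hs
        rcases Nat.lt_succ_iff_lt_or_eq.mp hs with h | h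
        · exact h3 s h
        · rw [h]
          exact hst
  obtain ⟨h1, _, h3⟩ := key n le_rfl
  refine ⟨fun t ht => (h3 t ht).sum, ?_, ?_⟩
  · intro i
    exact h1 i
  · intro σ hσ
    exact tree_cost hlev K hK δ hδz hδ0 H hH hδ a u (fun t => Xf lev A (hist u t)) n h3 σ hσ

end Pool.Agent.Helper8.OT
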