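import Pool.Agent.Helper8.OT.Defs

/-!
PROJECT OT, module OT-Ult (short, independent).  Clusters of an ultrametric `lev : V → V → ℕ`.
`cl lev k i = {j | lev i j ≤ k}`.  All statements are direct consequences of the ultrametric
inequality.  `sum_children`: the children of a cluster `P` of level `k+1` are a partition of `P`
(`Finset.sum_biUnion` / `sum_fiberwise_of_maps_to`; two clusters of the same level are equal or
disjoint).  `sum_clusters`: every cluster of level `k` is the child of exactly one cluster of level
`k+1` (`Finset.sum_biUnion`: `clusters lev k` is the disjoint union of the sets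
`children lev k P`, `P ∈ clusters lev (k+1)`).
-/

namespace Pool.Agent.Helper8.OT

open Finset

variable {V : Type} [Fintype V] [DecidableEq V]

theorem mem_cl {lev : V → V → ℕ} {k : ℕ} {i j : V} : j ∈ cl lev k i ↔ lev i j ≤ k := by
  unfold cl
  rw [mem_filter]
  exact ⟨fun h => h.2, fun h => ⟨mem_univ j, h⟩⟩

theorem self_mem_cl {lev : V → V → ℕ} (hlev : IsUlt lev) (k : ℕ) (i : V) : i ∈ cl lev k i := by
  rw [mem_cl, (hlev.zero i i).mpr rfl]
  exact Nat.zero_le k

theorem cl_eq {lev : V → V → ℕ} (hlev : IsUlt lev) {k : ℕ} {i j : V} (h : j ∈ cl lev k i) :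
    cl lev k j = cl lev k i := by
  rw [mem_cl] at h
  ext x
  rw [mem_cl, mem_cl]
  constructor
  · intro hx
    exact (hlev.tri i j x).trans (max_le h hx)
  · intro hx
    refine (hlev.tri j i x).trans (max_le ?_ hx)
    rw [hlev.symm j i]
    exact h

theorem cl_zero {lev : V → V → ℕ} (hlev : IsUlt lev) (i : V) : cl lev 0 i = {i} := by
  ext x
  rw [mem_cl, mem_singleton, Nat.le_zero, hlev.zero]
  exact eq_comm

theorem cl_mono {lev : V → V → ℕ} {k l : ℕ} (h : k ≤ l) (i : V) : cl lev k i ⊆ cl lev l i := by
  intro x hx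
  rw [mem_cl] at hx ⊢
  exact hx.trans h

/-- Two clusters of the same level with a common element are equal. -/
theorem clusters_eq {lev : V → V → ℕ} (hlev : IsUlt lev) {k : ℕ} {v w : Finset V}
    (hv : v ∈ clusters lev k) (hw : w ∈ clusters lev k) {i : V} (hiv : i ∈ v) (hiw : i ∈ w) :
    v = w := by
  unfold clusters at hv hw
  rw [mem_image] at hv hw
  obtain ⟨a, -, ha⟩ := hv
  obtain ⟨b, -, hb⟩ := hw
  rw [← ha] at hiv ⊢
  rw [← hb] at hiw ⊢
  rw [← cl_eq hlev hiv, ← cl_eq hlev hiw]

theorem mem_clusters {lev : V → V → ℕ} (hlev : IsUlt lev) {k : ℕ} {v : Finset V}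
    (hv : v ∈ clusters lev k) {i : V} (hi : i ∈ v) : v = cl lev k i := by
  have h : cl lev k i ∈ clusters lev k := by
    unfold clusters
    exact mem_image_of_mem _ (mem_univ i)
  exact clusters_eq hlev hv h hi (self_mem_cl hlev k i)

theorem cl_mem_clusters (lev : V → V → ℕ) (k : ℕ) (i : V) : cl lev k i ∈ clusters lev k := by
  unfold clusters
  exact mem_image_of_mem _ (mem_univ i)

theorem children_subset {lev : V → V → ℕ} {k : ℕ} {P v : Finset V} (hv : v ∈ children lev k P) :
    v ∈ clusters lev k := by
  unfold children at hv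
  rw [mem_image] at hv
  obtain ⟨a, -, ha⟩ := hv
  rw [← ha]
  exact cl_mem_clusters lev k a

/-- A cluster of level `k` is a child of `P` iff it is contained in `P`. -/
theorem mem_children {lev : V → V → ℕ} (hlev : IsUlt lev) {k : ℕ} {P v : Finset V}
    (hP : P ∈ clusters lev (k + 1)) : v ∈ children lev k P ↔ v ∈ clusters lev k ∧ v ⊆ P := by
  constructor
  · intro hv
    refine ⟨children_subset hv, ?_⟩
    unfold children at hv
    rw [mem_image] at hv
    obtain ⟨a, haP, ha⟩ := hv
    rw [← ha, mem_clusters hlev hP haP]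
    exact cl_mono (Nat.le_succ k) a
  · rintro ⟨hv, hvP⟩
    have hv' := hv
    unfold clusters at hv'
    rw [mem_image] at hv'
    obtain ⟨a, -, ha⟩ := hv'
    unfold children
    rw [mem_image]
    refine ⟨a, hvP ?_, ha⟩
    rw [← ha]
    exact self_mem_cl hlev k a

theorem sum_children {lev : V → V → ℕ} (hlev : IsUlt lev) {k : ℕ} {P : Finset V}
    (hP : P ∈ clusters lev (k + 1)) (g : V → ℝ) :
    ∑ v ∈ children lev k P, ∑ i ∈ v, g i = ∑ i ∈ P, g i := by
  have hd : (↑(children lev k P) : Set (Finset V)).PairwiseDisjoint id := by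
    intro v hv w hw hne
    refine disjoint_left.mpr ?_
    intro i hi hi'
    exact hne (clusters_eq hlev (children_subset hv) (children_subset hw) hi hi')
  have hu : (children lev k P).biUnion id = P := by
    ext i
    rw [mem_biUnion]
    constructor
    · rintro ⟨v, hv, hi⟩
      exact ((mem_children hlev hP).mp hv).2 hi
    · intro hi
      refine ⟨cl lev k i, ?_, self_mem_cl hlev k i⟩
      unfold children
      exact mem_image_of_mem _ hi
  have h := sum_biUnion (f := g) hd
  rw [hu] at h
  exact h.symm

theorem sum_clusters {lev : V → V → ℕ} (hlev : IsUlt lev) (k : ℕ) (g : Finset V → ℝ) :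
    ∑ P ∈ clusters lev (k + 1), ∑ v ∈ children lev k P, g v = ∑ v ∈ clusters lev k, g v := by
  have hd : (↑(clusters lev (k + 1)) : Set (Finset V)).PairwiseDisjoint
      (fun P => children lev k P) := by
    intro P hP Q hQ hne
    refine disjoint_left.mpr ?_
    intro v hv hv'
    have h1 := (mem_children hlev hP).mp hv
    have h2 := (mem_children hlev hQ).mp hv'
    have h3 := h1.1
    unfold clusters at h3
    rw [mem_image] at h3
    obtain ⟨a, -, ha⟩ := h3
    have h4 : a ∈ v := by
      rw [← ha]
      exact self_mem_cl hlev k a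
    exact hne (clusters_eq hlev hP hQ (h1.2 h4) (h2.2 h4))
  have hu : (clusters lev (k + 1)).biUnion (fun P => children lev k P) = clusters lev k := by
    ext v
    rw [mem_biUnion]
    constructor
    · rintro ⟨P, -, hv⟩
      exact children_subset hv
    · intro hv
      have h3 := hv
      unfold clusters at h3
      rw [mem_image] at h3
      obtain ⟨a, -, ha⟩ := h3
      refine ⟨cl lev (k + 1) a, cl_mem_clusters lev (k + 1) a, ?_⟩
      rw [← ha]
      unfold children
      exact mem_image_of_mem _ (self_mem_cl hlev (k + 1) a)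
  have h := sum_biUnion (f := g) hd
  rw [hu] at h
  exact h.symm

theorem sum_clusters_sum {lev : V → V → ℕ} (hlev : IsUlt lev) (k : ℕ) (g : V → ℝ) :
    ∑ v ∈ clusters lev k, ∑ i ∈ v, g i = ∑ i, g i := by
  have hd : (↑(clusters lev k) : Set (Finset V)).PairwiseDisjoint id := by
    intro v hv w hw hne
    refine disjoint_left.mpr ?_
    intro i hi hi'
    exact hne (clusters_eq hlev hv hw hi hi')
  have hu : (clusters lev k).biUnion id = univ := by
    ext i
    rw [mem_biUnion]
    exact ⟨fun _ => mem_univ i, fun _ => ⟨cl lev k i, cl_mem_clusters lev k i,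
      self_mem_cl hlev k i⟩⟩
  have h := sum_biUnion (f := g) hd
  rw [hu] at h
  exact h.symm

theorem clusters_top [Nonempty V] {lev : V → V → ℕ} {K : ℕ} (hK : ∀ i j, lev i j ≤ K) :
    clusters lev K = {univ} := by
  have h : ∀ i, cl lev K i = univ := by
    intro i
    ext j
    rw [mem_cl]
    exact ⟨fun _ => mem_univ j, fun _ => hK i j⟩
  ext v
  unfold clusters
  rw [mem_image, mem_singleton]
  constructor
  · rintro ⟨a, -, ha⟩
    rw [← ha, h a]
  · intro hv
    obtain ⟨i⟩ := (inferInstance : Nonempty V)
    exact ⟨i, mem_univ i, (h i).trans hv.symm⟩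

theorem card_children_le {lev : V → V → ℕ} {k : ℕ} {P : Finset V} :
    (children lev k P).card ≤ Fintype.card V := by
  unfold children
  exact card_image_le.trans (card_le_univ P)

end Pool.Agent.Helper8.OT
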