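import Pool.Agent.Helper8.OT.Fill

/-!
PROJECT OT, module OT-Water (uses the statements of `Ult.lean`, `Fill.lean`).
Existence of the water filling step.
PLAN.  `own_fill`: induction on `k`.  `k = 0`: `cl lev 0 u = {u}`, `x u = min 1 (ρ u)`.  Step `k → k+1`:
let `P = cl lev (k+1) u`, `w = cl lev k u` (a child of `P`), `x` from the induction hypothesis (supported
on `w`), `μ' = min 1 ρ(P) - min 1 ρ(w) ≥ 0`; `μ' ≤ ρ(P) - ρ(w) = ∑ over the other children of ρ(v)`.
`water_level` for the other children gives `lam ≥ 0`; if `μ' = 0` take `lam = 0` instead.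
Fill every other child `v` by `fill` with `min lam (ρ(v))` (functions chosen as functions of the set
`v`), and keep `x` on `w`.  If the child `w` is not full (`x(w) < ρ(w)`) then `min 1 ρ(w) < ρ(w)`, so
`min 1 ρ(w) = 1`, `μ' = 0`, `lam = 0`.  Levels `j < k`: the cluster `Q ⊆ P` of level `j+1` is contained in
exactly one child of `P`; if this is `w` use the induction hypothesis, otherwise `fill` (then `u ∉ Q`).
`exists_step`: take `K` with `lev ≤ K` (maximum over the finite set), `own_fill` for `k = K` with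
`ρ i = a i - F i`: `cl lev K u = univ`, `min 1 (∑ ρ) = 1`.  For levels `k ≥ K` (in `own` and `water`) the
clusters are `univ`: `own` is clear (`∑ x = 1`); `water` for `k ≥ K`: the only child of `univ` is
`univ ∋ u`, take `lam = 0`.
-/

namespace Pool.Agent.Helper8.OT

open Finset

variable {V : Type} [Fintype V] [DecidableEq V]

theorem own_fill {lev : V → V → ℕ} (hlev : IsUlt lev) (ρ : V → ℝ) (hρ : ∀ i, 0 ≤ ρ i) (u : V)
    (k : ℕ) :
    ∃ x : V → ℝ, (∀ i, 0 ≤ x i) ∧ (∀ i, x i ≤ ρ i) ∧ (∀ i, i ∉ cl lev k u → x i = 0) ∧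
      (∀ j ≤ k, ∑ i ∈ cl lev j u, x i = min 1 (∑ i ∈ cl lev j u, ρ i)) ∧
      ∀ j < k, ∀ Q ∈ clusters lev (j + 1), Q ⊆ cl lev k u → ∃ lam : ℝ, 0 ≤ lam ∧
        (∀ v ∈ children lev j Q, u ∉ v → ∑ i ∈ v, x i = min lam (∑ i ∈ v, ρ i)) ∧
        (∀ v ∈ children lev j Q, u ∈ v → ∑ i ∈ v, x i < ∑ i ∈ v, ρ i → lam = 0) := by
  induction k with
  | zero =>
    refine ⟨fun i => if i = u then min 1 (ρ u) else 0, ?_, ?_, ?_, ?_, ?_⟩
    · intro i
      dsimp only
      split_ifs
      · exact le_min zero_le_one (hρ u)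
      · exact le_rfl
    · intro i
      dsimp only
      split_ifs with h
      · rw [h]
        exact min_le_right _ _
      · exact hρ i
    · intro i hi
      rw [cl_zero hlev, mem_singleton] at hi
      exact if_neg hi
    · intro j hj
      have hj0 : j = 0 := by omega
      subst hj0
      rw [cl_zero hlev, sum_singleton, sum_singleton, if_pos rfl]
    · intro j hj
      omega
  | succ k ih =>
    obtain ⟨x, hx0, hxρ, hxs, hxm, hxl⟩ := ih
    set P : Finset V := cl lev (k + 1) u with hP
    set w : Finset V := cl lev k u with hw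
    have hPc : P ∈ clusters lev (k + 1) := cl_mem_clusters lev (k + 1) u
    have huw : u ∈ w := self_mem_cl hlev k u
    have hwP : w ⊆ P := cl_mono (Nat.le_succ k) u
    have hwc : w ∈ children lev k P :=
      (mem_children hlev hPc).2 ⟨cl_mem_clusters lev k u, hwP⟩
    set C : Finset (Finset V) := (children lev k P).erase w with hC
    have hsum : ∀ g : V → ℝ, ∑ i ∈ w, g i + ∑ v ∈ C, ∑ i ∈ v, g i = ∑ i ∈ P, g i := by
      intro g
      rw [← sum_children hlev hPc g]
      exact Finset.add_sum_erase (children lev k P) (fun v => ∑ i ∈ v, g i) hwc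
    set rw' : ℝ := ∑ i ∈ w, ρ i with hrw
    set rP : ℝ := ∑ i ∈ P, ρ i with hrP
    have hrwP : rw' ≤ rP := sum_le_sum_of_subset_of_nonneg hwP (fun i _ _ => hρ i)
    have hCsum : ∑ v ∈ C, ∑ i ∈ v, ρ i = rP - rw' := by
      have := hsum ρ
      linarith
    have hμ0 : 0 ≤ min 1 rP - min 1 rw' := sub_nonneg.2 (min_le_min le_rfl hrwP)
    have hμ1 : min 1 rP - min 1 rw' ≤ rP - rw' := by
      rcases le_total rw' 1 with h | h
      · rw [min_eq_right h]
        have := min_le_right 1 rP
        linarith
      · rw [min_eq_left h, min_eq_left (h.trans hrwP)]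
        linarith
    have hlam : ∃ lam : ℝ, 0 ≤ lam ∧ ∑ v ∈ C, min lam (∑ i ∈ v, ρ i) = min 1 rP - min 1 rw' ∧
        (min 1 rP - min 1 rw' = 0 → lam = 0) := by
      by_cases h : min 1 rP - min 1 rw' = 0
      · refine ⟨0, le_rfl, ?_, fun _ => rfl⟩
        rw [h]
        refine sum_eq_zero fun v _ => ?_
        exact min_eq_left (sum_nonneg fun i _ => hρ i)
      · obtain ⟨lam, h1, h2⟩ := water_level C (fun v => ∑ i ∈ v, ρ i)
          (fun v _ => sum_nonneg fun i _ => hρ i) (min 1 rP - min 1 rw') hμ0
          (by rw [hCsum]; exact hμ1)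
        exact ⟨lam, h1, h2, fun h' => absurd h' h⟩
    obtain ⟨lam, hlam0, hlam1, hlam2⟩ := hlam
    -- the fillings of the other children
    have hy : ∀ v : Finset V, ∃ y : V → ℝ, v ∈ clusters lev k → (∀ i, 0 ≤ y i) ∧
        (∀ i, y i ≤ ρ i) ∧ (∀ i, i ∉ v → y i = 0) ∧
        ∑ i ∈ v, y i = min lam (∑ i ∈ v, ρ i) ∧
        ∀ j < k, ∀ Q ∈ clusters lev (j + 1), Q ⊆ v → ∃ lam : ℝ, 0 ≤ lam ∧
          ∀ v' ∈ children lev j Q, ∑ i ∈ v', y i = min lam (∑ i ∈ v', ρ i) := by
      intro v
      by_cases hv : v ∈ clusters lev k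
      · obtain ⟨q, -, hq⟩ := mem_image.1 hv
        obtain ⟨y, h1, h2, h3, h4, h5⟩ := fill hlev ρ hρ k q
          (min lam (∑ i ∈ cl lev k q, ρ i)) (le_min hlam0 (sum_nonneg fun i _ => hρ i))
          (min_le_right _ _)
        refine ⟨y, fun _ => ?_⟩
        rw [← hq]
        exact ⟨h1, h2, h3, h4, h5⟩
      · exact ⟨fun _ => 0, fun h => absurd h hv⟩
    choose y hy using hy
    -- the new function
    set x' : V → ℝ := fun i => if i ∈ w then x i else if i ∈ P then y (cl lev k i) i else 0
      with hx'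
    have hx'w : ∀ i ∈ w, x' i = x i := fun i hi => if_pos hi
    have hx'v : ∀ v ∈ children lev k P, v ≠ w → ∀ i ∈ v, x' i = y v i := by
      intro v hv hvw i hi
      have hvc := children_subset hv
      have h1 : i ∉ w := fun h =>
        hvw (clusters_eq hlev hvc (cl_mem_clusters lev k u) hi h)
      have h2 : i ∈ P := ((mem_children hlev hPc).1 hv).2 hi
      have h3 : v = cl lev k i := mem_clusters hlev hvc hi
      rw [hx']
      dsimp only
      rw [if_neg h1, if_pos h2, ← h3]
    have hsw : ∀ v ⊆ w, ∑ i ∈ v, x' i = ∑ i ∈ v, x i := fun v hv =>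
      sum_congr rfl fun i hi => hx'w i (hv hi)
    have hsv : ∀ v ∈ children lev k P, v ≠ w → ∀ v' ⊆ v, ∑ i ∈ v', x' i = ∑ i ∈ v', y v i :=
      fun v hv hvw v' hv' => sum_congr rfl fun i hi => hx'v v hv hvw i (hv' hi)
    have hxw : ∑ i ∈ w, x' i = min 1 rw' := by
      rw [hsw w Subset.rfl]
      exact hxm k le_rfl
    have hxv : ∀ v ∈ children lev k P, v ≠ w → ∑ i ∈ v, x' i = min lam (∑ i ∈ v, ρ i) := by
      intro v hv hvw
      rw [hsv v hv hvw v Subset.rfl]
      exact (hy v (children_subset hv)).2.2.2.1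
    refine ⟨x', ?_, ?_, ?_, ?_, ?_⟩
    · intro i
      rw [hx']
      dsimp only
      split_ifs
      · exact hx0 i
      · exact (hy _ (cl_mem_clusters lev k i)).1 i
      · exact le_rfl
    · intro i
      rw [hx']
      dsimp only
      split_ifs
      · exact hxρ i
      · exact (hy _ (cl_mem_clusters lev k i)).2.1 i
      · exact hρ i
    · intro i hi
      have h1 : i ∉ w := fun h => hi (hwP h)
      rw [hx']
      dsimp only
      rw [if_neg h1, if_neg hi]
    · intro j hj
      rcases Nat.lt_or_ge k j with h | h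
      · have hjk : j = k + 1 := by omega
        subst hjk
        change ∑ i ∈ P, x' i = min 1 rP
        rw [← hsum x', hxw]
        have h1 : ∑ v ∈ C, ∑ i ∈ v, x' i = ∑ v ∈ C, min lam (∑ i ∈ v, ρ i) := by
          refine sum_congr rfl fun v hv => ?_
          rw [hC, mem_erase] at hv
          exact hxv v hv.2 hv.1
        rw [h1, hlam1]
        ring
      · rw [hsw _ (cl_mono h u)]
        exact hxm j h
    · intro j hj Q hQ hQP
      obtain ⟨i, -, hi⟩ := mem_image.1 hQ
      have hiQ : i ∈ Q := by
        rw [← hi]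
        exact self_mem_cl hlev _ i
      rcases Nat.lt_or_ge j k with h | h
      · set v : Finset V := cl lev k i with hv
        have hQv : Q ⊆ v := by
          rw [← hi]
          exact cl_mono (by omega) i
        have hvc : v ∈ children lev k P := mem_image.2 ⟨i, hQP hiQ, rfl⟩
        by_cases hvw : v = w
        · rw [hvw] at hQv
          obtain ⟨l, hl0, hl1, hl2⟩ := hxl j h Q hQ hQv
          refine ⟨l, hl0, ?_, ?_⟩
          · intro v' hv' hu'
            have hs : v' ⊆ w := (((mem_children hlev hQ).1 hv').2).trans hQv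
            rw [hsw v' hs]
            exact hl1 v' hv' hu'
          · intro v' hv' hu'
            have hs : v' ⊆ w := (((mem_children hlev hQ).1 hv').2).trans hQv
            rw [hsw v' hs]
            exact hl2 v' hv' hu'
        · obtain ⟨l, hl0, hl1⟩ := (hy v (cl_mem_clusters lev k i)).2.2.2.2 j h Q hQ hQv
          refine ⟨l, hl0, ?_, ?_⟩
          · intro v' hv' _
            have hs : v' ⊆ v := (((mem_children hlev hQ).1 hv').2).trans hQv
            rw [hsv v hvc hvw v' hs]
            exact hl1 v' hv'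
          · intro v' hv' hu'
            exfalso
            have hs : v' ⊆ v := (((mem_children hlev hQ).1 hv').2).trans hQv
            exact hvw (clusters_eq hlev (cl_mem_clusters lev k i) (cl_mem_clusters lev k u)
              (hs hu') huw)
      · have hjk : j = k := by omega
        subst hjk
        have hQP' : Q = P := clusters_eq hlev hQ hPc hiQ (hQP hiQ)
        rw [hQP']
        refine ⟨lam, hlam0, ?_, ?_⟩
        · intro v hv huv
          exact hxv v hv (fun h => huv (h ▸ huw))
        · intro v hv huv hlt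
          have hvw : v = w := clusters_eq hlev (children_subset hv) (cl_mem_clusters lev j u)
            huv huw
          rw [hvw, hxw] at hlt
          have h1 : 1 < rw' := by
            by_contra hc
            push Not at hc
            rw [min_eq_right hc] at hlt
            exact lt_irrefl _ hlt
          apply hlam2
          rw [min_eq_left h1.le, min_eq_left (h1.le.trans hrwP), sub_self]

theorem exists_step {lev : V → V → ℕ} (hlev : IsUlt lev) (a F : V → ℝ) (hF : ∀ i, F i ≤ a i)
    (hroom : 1 ≤ ∑ i, (a i - F i)) (u : V) : ∃ x, Step lev a F u x := by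
  classical
  set ρ : V → ℝ := fun i => a i - F i with hρ
  have hρ0 : ∀ i, 0 ≤ ρ i := fun i => sub_nonneg.2 (hF i)
  obtain ⟨K, hK⟩ : ∃ K : ℕ, ∀ i j, lev i j ≤ K := by
    refine ⟨univ.sup fun i => univ.sup fun j => lev i j, fun i j => ?_⟩
    exact (Finset.le_sup (f := fun j => lev i j) (mem_univ j)).trans
      (Finset.le_sup (f := fun i => univ.sup fun j => lev i j) (mem_univ i))
  have hcl : ∀ k, K ≤ k → ∀ i, cl lev k i = univ := by
    intro k hk i
    ext j
    simp only [mem_cl, mem_univ, iff_true]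
    exact (hK i j).trans hk
  obtain ⟨x, hx0, hxρ, -, hxm, hxl⟩ := own_fill hlev ρ hρ0 u K
  have hsum : ∑ i, x i = 1 := by
    have := hxm K le_rfl
    rw [hcl K le_rfl u, min_eq_left hroom] at this
    exact this
  have hadd : ∀ v : Finset V, ∑ i ∈ v, (F i + x i) = ∑ i ∈ v, F i + ∑ i ∈ v, x i := fun v =>
    sum_add_distrib
  have hsub : ∀ v : Finset V, ∑ i ∈ v, ρ i = ∑ i ∈ v, a i - ∑ i ∈ v, F i := fun v =>
    sum_sub_distrib _ _
  refine ⟨x, hx0, hsum, ?_, ?_, ?_⟩
  · intro i
    have := hxρ i
    rw [hρ] at this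
    dsimp only at this
    linarith
  · intro k hk
    rcases Nat.lt_or_ge K k with h | h
    · rw [hcl k h.le u, hsum] at hk
      exact absurd hk (lt_irrefl _)
    · have h1 := hxm k h
      rw [h1] at hk
      have h2 : ∑ i ∈ cl lev k u, ρ i < 1 := by
        by_contra hc
        push Not at hc
        rw [min_eq_left hc] at hk
        exact lt_irrefl _ hk
      rw [min_eq_right h2.le, hsub] at h1
      rw [hadd, h1]
      ring
  · intro k P hP
    rcases Nat.lt_or_ge k K with h | h
    · obtain ⟨lam, h0, h1, h2⟩ := hxl k h P hP (by rw [hcl K le_rfl u]; exact subset_univ _)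
      refine ⟨lam, h0, h1, ?_⟩
      intro v hv huv hlt
      apply h2 v hv huv
      rw [hadd] at hlt
      rw [hsub]
      linarith
    · refine ⟨0, le_rfl, ?_, fun _ _ _ _ => rfl⟩
      intro v hv huv
      exfalso
      obtain ⟨i, -, hi⟩ := mem_image.1 hv
      apply huv
      rw [← hi, hcl k h i]
      exact mem_univ u

end Pool.Agent.Helper8.OT
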